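import Pool.Agent.Zk77.Spl.Sep
import Mathlib

/-!
# Arithmetic progressions modulo `n` (helper77)
-/

set_option autoImplicit false

namespace Pool.Agent.Zk77.Spl

open Finset Pool.Agent.H581R2.Splay Pool.Agent.TH49.Spl Pool.Agent.Y395.SP Pool.Agent.N724.TW

lemma exists_tree : ∀ L : List ℕ, ∃ T : Tr, keys T = L
  | [] => ⟨Tr.nil, rfl⟩
  | a :: L => by
    obtain ⟨T, hT⟩ := exists_tree L
    exact ⟨Tr.node a Tr.nil T, by simp [keys, hT]⟩

/-- the residue of `a s + b` -/
def apF (n a b : ℕ) (hn : 1 ≤ n) (s : ℕ) : Fin n := ⟨(a * s + b) % n, Nat.mod_lt _ hn⟩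

lemma apF_sub (n a b : ℕ) (hn : 1 ≤ n) (i j : ℕ) :
    ∃ z : ℤ, ((apF n a b hn j : ℕ) : ℤ) - ((apF n a b hn i : ℕ) : ℤ) = a * ((j : ℤ) - i) - n * z := by
  have h1 := Int.emod_add_mul_ediv ((a * j + b : ℕ) : ℤ) (n : ℤ)
  have h2 := Int.emod_add_mul_ediv ((a * i + b : ℕ) : ℤ) (n : ℤ)
  refine ⟨((a * j + b : ℕ) : ℤ) / n - ((a * i + b : ℕ) : ℤ) / n, ?_⟩
  unfold apF
  simp only [Int.natCast_mod]
  push_cast at h1 h2 ⊢
  linarith

lemma apF_eq_of_mod (n a b : ℕ) (hn : 1 ≤ n) (i j : ℕ) (h : i ≡ j [MOD n]) : apF n a b hn i = apF n a b hn j := by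
  apply Fin.ext
  unfold apF
  simp only
  exact (h.mul_left a).add_right b

lemma take_drop_range {α : Type} (F : ℕ → α) (M u l : ℕ) (h : u + l ≤ M) :
    (((List.range M).map F).drop u).take l = (List.range' u l).map F := by
  apply List.ext_getElem
  · simp
    omega
  · intro i h1 h2
    simp

section
variable {n : ℕ} (a b : ℕ) (hn : 1 ≤ n) {R : ℝ}
  (hbad : ∀ h : ℕ, 1 ≤ h → h < n → ∀ z : ℤ, (n : ℝ) ≤ R * h * |(a : ℝ) * h - n * z|)

include hn hbad in
lemma apF_dist {i h : ℕ} (h1 : 1 ≤ h) (h2 : h < n) :
    (n : ℝ) ≤ R * h * Nat.dist (apF n a b hn (i + h) : ℕ) (apF n a b hn i : ℕ) := by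
  obtain ⟨z, hz⟩ := apF_sub n a b hn i (i + h)
  have h3 := hbad h h1 h2 z
  have h4 : ((Nat.dist (apF n a b hn (i + h) : ℕ) (apF n a b hn i : ℕ) : ℕ) : ℝ) = |(a : ℝ) * h - n * z| := by
    have h5 : ((Nat.dist (apF n a b hn (i + h) : ℕ) (apF n a b hn i : ℕ) : ℕ) : ℤ) =
        |((apF n a b hn (i + h) : ℕ) : ℤ) - ((apF n a b hn i : ℕ) : ℤ)| := by
      unfold Nat.dist
      rcases le_total (apF n a b hn (i + h) : ℕ) (apF n a b hn i : ℕ) with h6 | h6
      · rw [abs_of_nonpos (by omega)]
        omega
      · rw [abs_of_nonneg (by omega)]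
        omega
    rw [hz] at h5
    have e : (a : ℤ) * (((i + h : ℕ) : ℤ) - i) - n * z = a * h - n * z := by
      push_cast
      ring
    rw [e] at h5
    have h6 := congrArg (fun x : ℤ => (x : ℝ)) h5
    push_cast at h6
    exact h6
  rw [h4]
  exact h3

include hn hbad in
lemma apF_ne {i h : ℕ} (h1 : 1 ≤ h) (h2 : h < n) : apF n a b hn (i + h) ≠ apF n a b hn i := by
  intro h3
  have h4 := apF_dist a b hn hbad (i := i) h1 h2
  rw [h3, Nat.dist_self] at h4
  have : (1 : ℝ) ≤ n := by exact_mod_cast hn
  simp at h4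
  omega

include hn hbad in
/-- **Arithmetic progressions modulo `n`.** -/
theorem ap_ratio {M : ℕ} (hM : n ≤ M) (hR : 1 ≤ R) {T : Tr} (hT : keys T = List.range n) :
    (costSplay T ((List.range M).map fun s => (a * s + b) % n) : ℝ) ≤
      2100 * (1 + Real.logb 2 R) * optAny (List.range n) ((List.range M).map fun s => (a * s + b) % n) := by
  classical
  obtain ⟨X, hX⟩ : ∃ X : List (Fin n), X = (List.range M).map (apF n a b hn) := ⟨_, rfl⟩
  have hXv : X.map vl = (List.range M).map fun s => (a * s + b) % n := by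
    rw [hX, List.map_map]
    rfl
  rw [← hXv]
  have hinj : ∀ i j, i < j → j < i + n → apF n a b hn j ≠ apF n a b hn i := by
    intro i j h1 h2
    have := apF_ne a b hn hbad (i := i) (h := j - i) (by omega) (by omega)
    rwa [Nat.add_sub_cancel' h1.le] at this
  refine (sep_ratio hT X hn hR ?_).2 ?_
  · intro U W V hUWV x hx y hy hxy
    -- the entries of the window
    have hW : W = (List.range' U.length W.length).map (apF n a b hn) := by
      have h1 : W = (X.drop U.length).take W.length := by
        rw [hUWV]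
        simp
      have h2 : M = U.length + W.length + V.length := by
        have := congrArg List.length hUWV
        rw [hX, List.length_map, List.length_range, List.length_append, List.length_append] at this
        exact this
      rw [hX, take_drop_range (apF n a b hn) M U.length W.length (by omega)] at h1
      exact h1
    have key : ∀ i j : ℕ, i < j → U.length ≤ i → j < U.length + W.length → apF n a b hn i ≠ apF n a b hn j →
        (n : ℝ) ≤ R * W.toFinset.card * Nat.dist (apF n a b hn j : ℕ) (apF n a b hn i : ℕ) := by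
      intro i j hij hi hj hne
      obtain ⟨h, hh⟩ : ∃ h, h = (j - i) % n := ⟨_, rfl⟩
      have hhn : h < n := by rw [hh]; exact Nat.mod_lt _ hn
      have hmod : i + h ≡ j [MOD n] := by
        have h1 : h ≡ j - i [MOD n] := by
          rw [hh]
          exact Nat.mod_modEq _ _
        have h2 := h1.add_left i
        rwa [Nat.add_sub_cancel' hij.le] at h2
      have hFj : apF n a b hn j = apF n a b hn (i + h) := (apF_eq_of_mod n a b hn _ _ hmod).symm
      have hh1 : 1 ≤ h := by
        by_contra hcon
        have h0 : h = 0 := by omega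
        rw [h0, add_zero] at hFj
        exact hne hFj.symm
      have hhij : h ≤ j - i := by rw [hh]; exact Nat.mod_le _ _
      have h3 := apF_dist a b hn hbad (i := i) hh1 hhn
      rw [← hFj] at h3
      refine h3.trans ?_
      apply mul_le_mul_of_nonneg_right _ (Nat.cast_nonneg _)
      apply mul_le_mul_of_nonneg_left _ (by linarith)
      have h4 : (Finset.Ico i (i + h)).card ≤ W.toFinset.card := by
        apply Finset.card_le_card_of_injOn (apF n a b hn)
        · intro s hs
          rw [Finset.mem_coe, Finset.mem_Ico] at hs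
          rw [Finset.mem_coe, List.mem_toFinset, hW]
          apply List.mem_map_of_mem
          rw [List.mem_range'_1]
          omega
        · intro s hs s' hs' hss
          rw [Finset.mem_coe, Finset.mem_Ico] at hs hs'
          rcases lt_trichotomy s s' with h5 | h5 | h5
          · exact absurd hss.symm (hinj s s' h5 (by omega))
          · exact h5
          · exact absurd hss (hinj s' s h5 (by omega))
      rw [Nat.card_Ico] at h4
      have h5 : h ≤ W.toFinset.card := by omega
      exact_mod_cast h5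
    have hx' := hx
    have hy' := hy
    rw [hW, List.mem_map] at hx' hy'
    obtain ⟨i, hi, rfl⟩ := hx'
    obtain ⟨j, hj, rfl⟩ := hy'
    rw [List.mem_range'_1] at hi hj
    rcases lt_trichotomy i j with h1 | h1 | h1
    · rw [Nat.dist_comm]
      exact key i j h1 hi.1 hj.2 hxy
    · exact absurd (by rw [h1]) hxy
    · exact key j i h1 hj.1 hi.2 (Ne.symm hxy)
  · intro x
    -- every key is requested
    have h1 : Function.Injective (fun i : Fin n => apF n a b hn i) := by
      intro i j h
      rcases lt_trichotomy (i : ℕ) (j : ℕ) with h2 | h2 | h2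
      · exact absurd h.symm (hinj i j h2 (by omega))
      · exact Fin.ext h2
      · exact absurd h (hinj j i h2 (by omega))
    obtain ⟨i, hi⟩ := (Finite.injective_iff_surjective.1 h1) x
    rw [hX, ← hi]
    apply List.mem_map_of_mem
    rw [List.mem_range]
    omega

end

end Pool.Agent.Zk77.Spl
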