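import Pool.Agent.N724.TW.T_VAL

/-!
# The interleave bound for shifted dyadic schemes, and windows (helper77)
-/

set_option autoImplicit false

namespace Pool.Agent.Zk77.Spl

open Pool.Agent.H581R2.Splay Pool.Agent.TH49.Spl Pool.Agent.N724.TW

lemma cnt_shift (c l m r : ℕ) (Y : List ℕ) : ∀ b : Bool,
    cnt (l - c) (m - c) (r - c) b Y = cnt l m r b (Y.map (· + c)) := by
  induction Y with
  | nil => intro b; rfl
  | cons x Y ih =>
    intro b
    have h1 : (l - c ≤ x ∧ x < m - c) ↔ (l ≤ x + c ∧ x + c < m) := by omega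
    have h2 : (m - c ≤ x ∧ x < r - c) ↔ (m ≤ x + c ∧ x + c < r) := by omega
    simp only [List.map_cons, cnt, h1, h2, ih]

/-- the dyadic scheme on `[l, l + 2 ^ D)`, shifted by `- c` -/
def FSc (c : ℕ) : ℕ → ℕ → AS
  | 0, _ => AS.leaf
  | D + 1, l => AS.node (l + 2 ^ D - c) false false (FSc c D l) (FSc c D (l + 2 ^ D))

theorem cred_FSc (c D l : ℕ) : cred (FSc c D l) = 0 := by
  induction D generalizing l with
  | zero => rfl
  | succ D ih => simp [FSc, cred, ih]

theorem ok_FSc (c D l : ℕ) : ok (FSc c D l) (l - c) (l + 2 ^ D - c) := by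
  induction D generalizing l with
  | zero => trivial
  | succ D ih =>
    have e : l + 2 ^ (D + 1) = l + 2 ^ D + 2 ^ D := by rw [pow_succ]; ring
    rw [e]
    exact ⟨Nat.sub_le_sub_right (Nat.le_add_right _ _) _, Nat.sub_le_sub_right (Nat.le_add_right _ _) _, ih l,
      ih (l + 2 ^ D)⟩

theorem inv_FSc (T : Tr) (c D l l' r' : ℕ) : inv T (FSc c D l) l' r' := by
  induction D generalizing l l' r' with
  | zero => trivial
  | succ D ih => exact ⟨by simp, ih _ _ _, ih _ _ _⟩

theorem val_FSc (c : ℕ) (Y : List ℕ) (D l : ℕ) : val (FSc c D l) (l - c) (l + 2 ^ D - c) Y =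
    val (VALaux.FS D l) l (l + 2 ^ D) (Y.map (· + c)) := by
  induction D generalizing l with
  | zero => rfl
  | succ D ih =>
    have e : l + 2 ^ (D + 1) = l + 2 ^ D + 2 ^ D := by rw [pow_succ]; ring
    have h1 := ih (l + 2 ^ D)
    rw [← e] at h1
    simp only [FSc, VALaux.FS, val]
    rw [ih l, h1, cnt_shift]

/-- **The interleave bound for shifted dyadic schemes.** -/
theorem alt_shift {T : Tr} {Y : List ℕ} {v : ℕ} (hb : IsBST T) (hY : ∀ x ∈ Y, x ∈ keys T) (hE : Exec T Y v)
    (D c : ℕ) : alt D (Y.map (· + c)) ≤ 2 * v := by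
  have h := exec_val hE hb hY (FSc c D 0) (0 - c) (0 + 2 ^ D - c) (ok_FSc c D 0) (inv_FSc T c D 0 _ _)
  rw [cred_FSc, val_FSc, VALaux.val_FS] at h
  unfold alt
  simpa only [zero_add, add_zero] using h

/-- the state after the requests -/
def stt (l m r : ℕ) : Bool → List ℕ → Bool
  | b, [] => b
  | b, x :: X => if l ≤ x ∧ x < m then stt l m r true X
      else if m ≤ x ∧ x < r then stt l m r false X
      else stt l m r b X

lemma cnt_append (l m r : ℕ) (X Y : List ℕ) : ∀ b : Bool,
    cnt l m r b (X ++ Y) = cnt l m r b X + cnt l m r (stt l m r b X) Y := by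
  induction X with
  | nil => intro b; simp [cnt, stt]
  | cons x X ih =>
    intro b
    simp only [List.cons_append, cnt, stt]
    split_ifs
    · exact ih true
    · rw [ih false, add_assoc]
    · rw [ih false, add_assoc]
    · exact ih b

lemma cnt_false_le (l m r : ℕ) (Y : List ℕ) (b : Bool) : cnt l m r false Y ≤ cnt l m r b Y := by
  cases b
  · exact le_rfl
  · induction Y with
    | nil => exact le_rfl
    | cons x X ih =>
      simp only [cnt]
      by_cases h1 : l ≤ x ∧ x < m
      · rw [if_pos h1, if_pos h1]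
      · rw [if_neg h1, if_neg h1]
        by_cases h2 : m ≤ x ∧ x < r
        · rw [if_pos h2, if_pos h2]
          simp
        · rw [if_neg h2, if_neg h2]
          exact ih

lemma cnt_true_pos (l m r : ℕ) (Y : List ℕ) (h : ∃ y ∈ Y, m ≤ y ∧ y < r) : 1 ≤ cnt l m r true Y := by
  induction Y with
  | nil => simp at h
  | cons x X ih =>
    simp only [cnt]
    by_cases h1 : l ≤ x ∧ x < m
    · rw [if_pos h1]
      apply ih
      obtain ⟨y, hy, hy2⟩ := h
      rcases List.mem_cons.1 hy with rfl | hy
      · omega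
      · exact ⟨y, hy, hy2⟩
    · rw [if_neg h1]
      by_cases h2 : m ≤ x ∧ x < r
      · rw [if_pos h2]
        simp
      · rw [if_neg h2]
        apply ih
        obtain ⟨y, hy, hy2⟩ := h
        rcases List.mem_cons.1 hy with rfl | hy
        · exact absurd hy2 h2
        · exact ⟨y, hy, hy2⟩

lemma stt_true (l m r : ℕ) (X : List ℕ) : stt l m r true X = true ∨ 1 ≤ cnt l m r true X := by
  induction X with
  | nil => left; rfl
  | cons x X ih =>
    simp only [cnt, stt]
    by_cases h1 : l ≤ x ∧ x < m
    · rw [if_pos h1, if_pos h1]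
      exact ih
    · rw [if_neg h1, if_neg h1]
      by_cases h2 : m ≤ x ∧ x < r
      · rw [if_pos h2, if_pos h2]
        right
        simp
      · rw [if_neg h2, if_neg h2]
        exact ih

lemma stt_or (l m r : ℕ) (X : List ℕ) (h : ∃ x ∈ X, l ≤ x ∧ x < m) : ∀ b : Bool,
    stt l m r b X = true ∨ 1 ≤ cnt l m r b X := by
  induction X with
  | nil => simp at h
  | cons x X ih =>
    intro b
    simp only [cnt, stt]
    by_cases h1 : l ≤ x ∧ x < m
    · rw [if_pos h1, if_pos h1]
      exact stt_true l m r X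
    · rw [if_neg h1, if_neg h1]
      have h' : ∃ x ∈ X, l ≤ x ∧ x < m := by
        obtain ⟨y, hy, hy2⟩ := h
        rcases List.mem_cons.1 hy with rfl | hy
        · exact absurd hy2 h1
        · exact ⟨y, hy, hy2⟩
      by_cases h2 : m ≤ x ∧ x < r
      · rw [if_pos h2, if_pos h2]
        rcases ih h' false with h3 | h3
        · exact Or.inl h3
        · right
          omega
      · rw [if_neg h2, if_neg h2]
        exact ih h' b

/-- the left part is hit and then the right part -/
lemma cnt_pos (l m r : ℕ) (X Y : List ℕ) (h : ∃ x ∈ X, l ≤ x ∧ x < m) (h' : ∃ y ∈ Y, m ≤ y ∧ y < r) (b : Bool) :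
    1 ≤ cnt l m r b (X ++ Y) := by
  rw [cnt_append]
  rcases stt_or l m r X h b with h1 | h1
  · rw [h1]
    have := cnt_true_pos l m r Y h'
    omega
  · omega

section
variable {κ : Type}

/-- the sum over the pairs (first, second), (third, fourth), ... of windows -/
def psum (g : List κ → List κ → ℕ) : List (List κ) → ℕ
  | W :: W' :: Ws => g W W' + psum g Ws
  | _ => 0

/-- number of the nodes of a level whose left half is hit by `W` and whose right half is hit by `W'` -/
noncomputable def both (N k : ℕ) (f : κ → ℕ) (W W' : List κ) : ℕ :=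
  open Classical in ((Finset.range N).filter (fun i => (∃ x ∈ W, f x / k = 2 * i) ∧ ∃ x ∈ W', f x / k = 2 * i + 1)).card

lemma psum_le (N k : ℕ) (hk : 1 ≤ k) (f : κ → ℕ) : ∀ (Ws : List (List κ)) (rest : List κ) (b : ℕ → Bool),
    psum (both N k f) Ws ≤ ∑ i ∈ Finset.range N,
      cnt (i * (2 * k)) (i * (2 * k) + k) ((i + 1) * (2 * k)) (b i) ((Ws.flatten ++ rest).map f)
  | [], rest, b => by simp [psum]
  | [W], rest, b => by simp [psum]
  | W :: W' :: Ws, rest, b => by
    classical
    have e : ((W :: W' :: Ws).flatten ++ rest).map f = (W.map f ++ W'.map f) ++ (Ws.flatten ++ rest).map f := by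
      simp [List.flatten_cons]
    rw [psum]
    have h1 : both N k f W W' ≤ ∑ i ∈ Finset.range N,
        cnt (i * (2 * k)) (i * (2 * k) + k) ((i + 1) * (2 * k)) (b i) (W.map f ++ W'.map f) := by
      unfold both
      rw [Finset.card_filter]
      refine Finset.sum_le_sum fun i _ => ?_
      split_ifs with h
      · obtain ⟨⟨x, hx, hxi⟩, y, hy, hyi⟩ := h
        refine cnt_pos _ _ _ _ _ ⟨f x, List.mem_map_of_mem hx, ?_⟩ ⟨f y, List.mem_map_of_mem hy, ?_⟩ _
        · have h1 := Nat.div_add_mod (f x) k
          have h2 := Nat.mod_lt (f x) hk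
          rw [hxi] at h1
          have e1 : i * (2 * k) = k * (2 * i) := by ring
          rw [e1]
          omega
        · have h1 := Nat.div_add_mod (f y) k
          have h2 := Nat.mod_lt (f y) hk
          rw [hyi] at h1
          have e1 : i * (2 * k) = k * (2 * i) := by ring
          have e2 : (i + 1) * (2 * k) = k * (2 * i) + 2 * k := by ring
          have e3 : k * (2 * i + 1) = k * (2 * i) + k := by ring
          rw [e3] at h1
          rw [e1, e2]
          omega
      · exact Nat.zero_le _
    have h2 := psum_le N k hk f Ws rest (fun i => stt (i * (2 * k)) (i * (2 * k) + k) ((i + 1) * (2 * k)) (b i)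
      (W.map f ++ W'.map f))
    rw [e]
    have h3 : ∀ i, cnt (i * (2 * k)) (i * (2 * k) + k) ((i + 1) * (2 * k)) (b i)
        ((W.map f ++ W'.map f) ++ (Ws.flatten ++ rest).map f) =
        cnt (i * (2 * k)) (i * (2 * k) + k) ((i + 1) * (2 * k)) (b i) (W.map f ++ W'.map f) +
        cnt (i * (2 * k)) (i * (2 * k) + k) ((i + 1) * (2 * k))
          (stt (i * (2 * k)) (i * (2 * k) + k) ((i + 1) * (2 * k)) (b i) (W.map f ++ W'.map f))
          ((Ws.flatten ++ rest).map f) := fun i => cnt_append _ _ _ _ _ _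
    rw [Finset.sum_congr rfl fun i _ => h3 i, Finset.sum_add_distrib]
    exact Nat.add_le_add h1 h2

end

end Pool.Agent.Zk77.Spl
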