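import Pool.Agent.Zk77.Spl.Alt

/-!
# The half intervals which are missed by a set of keys: second moment (helper77)
-/

set_option autoImplicit false

namespace Pool.Agent.Zk77.Spl

open Finset

section
variable {κ : Type} [DecidableEq κ]

/-- the half intervals of length `k` which meet `[c, c + n)` -/
def blocks (k c n : ℕ) : Finset ℕ := Finset.Icc (c / k) ((c + n - 1) / k)

/-- number of the half intervals without elements -/
def emp (k c n : ℕ) (f : κ → ℕ) (Q : Finset κ) : ℕ := (blocks k c n \ Q.image (fun x => f x / k)).card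

/-- number of the ordered pairs in the same half interval -/
def coll (k : ℕ) (f : κ → ℕ) (Q : Finset κ) : ℕ := (Q.offDiag.filter (fun z => f z.1 / k = f z.2 / k)).card

lemma card_blocks (k c n : ℕ) (hk : 1 ≤ k) (hn : 1 ≤ n) : ((blocks k c n).card : ℝ) ≤ n / k + 2 := by
  have hk0 : (0 : ℝ) < k := by exact_mod_cast hk
  have h1 : c / k ≤ (c + n - 1) / k := Nat.div_le_div_right (by omega)
  have h2 : (blocks k c n).card = (c + n - 1) / k + 1 - c / k := by
    rw [blocks, Nat.card_Icc]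
  have h3 : (((c + n - 1) / k : ℕ) : ℝ) ≤ ((c + n - 1 : ℕ) : ℝ) / k := Nat.cast_div_le
  have h4 : (c : ℝ) / k < ((c / k : ℕ) : ℝ) + 1 := by
    rw [div_lt_iff₀ hk0]
    have := Nat.lt_div_mul_add (a := c) (b := k) hk
    have h5 : c < (c / k + 1) * k := by
      rw [add_mul, one_mul]
      exact this
    exact_mod_cast h5
  have h6 : ((c + n - 1 : ℕ) : ℝ) ≤ c + n := by
    have : ((c + n - 1 : ℕ) : ℝ) ≤ ((c + n : ℕ) : ℝ) := by exact_mod_cast Nat.sub_le _ _
    push_cast at this
    exact this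
  have h7 : ((c + n - 1 : ℕ) : ℝ) / k ≤ (c + n) / k := div_le_div_of_nonneg_right h6 hk0.le
  rw [h2, Nat.cast_sub (by omega)]
  push_cast
  have h8 : ((c : ℝ) + n) / k = c / k + n / k := add_div _ _ _
  linarith

/-- **Second moment.** -/
lemma emp_le {k c n : ℕ} (hk : 1 ≤ k) (hn : 1 ≤ n) {f : κ → ℕ} {Q : Finset κ} (hQ : Q.Nonempty)
    (hf : ∀ x ∈ Q, c ≤ f x ∧ f x < c + n) :
    (emp k c n f Q : ℝ) ≤ (Q.card + coll k f Q) * ((n : ℝ) / (Q.card * k)) ^ 2 - n / k + 2 := by
  have hk0 : (0 : ℝ) < k := by exact_mod_cast hk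
  have hn0 : (0 : ℝ) < n := by exact_mod_cast hn
  have hq0 : (0 : ℝ) < Q.card := by exact_mod_cast hQ.card_pos
  obtain ⟨N, hN⟩ : ∃ N : ℕ → ℕ, N = fun j => (Q.filter (fun x => f x / k = j)).card := ⟨_, rfl⟩
  have hmaps : ∀ x ∈ Q, f x / k ∈ blocks k c n := by
    intro x hx
    obtain ⟨h1, h2⟩ := hf x hx
    rw [blocks, Finset.mem_Icc]
    exact ⟨Nat.div_le_div_right h1, Nat.div_le_div_right (by omega)⟩
  have hsum : ∑ j ∈ blocks k c n, (N j : ℝ) = Q.card := by
    rw [hN]
    have := Finset.card_eq_sum_card_fiberwise (f := fun x => f x / k) (s := Q) (t := blocks k c n)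
      (fun x hx => hmaps x hx)
    rw [this]
    push_cast
    rfl
  have hsq : ∑ j ∈ blocks k c n, ((N j : ℝ)) ^ 2 ≤ Q.card + coll k f Q := by
    have h1 : ((Q ×ˢ Q).filter (fun z => f z.1 / k = f z.2 / k)).card = Q.card + coll k f Q := by
      rw [← Finset.diag_union_offDiag, Finset.filter_union, Finset.card_union_of_disjoint
        (Finset.disjoint_filter_filter (Finset.disjoint_diag_offDiag Q))]
      congr 1
      rw [Finset.filter_true_of_mem]
      · exact Finset.diag_card Q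
      · intro z hz
        rw [Finset.mem_diag] at hz
        rw [hz.2]
    have h2 : ∑ j ∈ blocks k c n, (N j) ^ 2 ≤ ((Q ×ˢ Q).filter (fun z => f z.1 / k = f z.2 / k)).card := by
      rw [Finset.card_eq_sum_card_fiberwise (f := fun z : κ × κ => f z.1 / k) (t := blocks k c n)
        (s := (Q ×ˢ Q).filter (fun z => f z.1 / k = f z.2 / k)) (fun z hz => by
          rw [Finset.mem_coe, Finset.mem_filter, Finset.mem_product] at hz
          exact hmaps z.1 hz.1.1)]
      refine Finset.sum_le_sum fun j _ => ?_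
      rw [hN]
      change (Q.filter (fun x => f x / k = j)).card ^ 2 ≤ _
      rw [sq, ← Finset.card_product]
      apply Finset.card_le_card
      intro z hz
      rw [Finset.mem_product, Finset.mem_filter, Finset.mem_filter] at hz
      rw [Finset.mem_filter, Finset.mem_filter, Finset.mem_product]
      exact ⟨⟨⟨hz.1.1, hz.2.1⟩, by rw [hz.1.2, hz.2.2]⟩, hz.1.2⟩
    rw [h1] at h2
    exact_mod_cast h2
  obtain ⟨μ, hμ⟩ : ∃ μ : ℝ, μ = Q.card * k / n := ⟨_, rfl⟩
  have hμ0 : 0 < μ := by rw [hμ]; positivity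
  have hlow : (emp k c n f Q : ℝ) * μ ^ 2 ≤ ∑ j ∈ blocks k c n, ((N j : ℝ) - μ) ^ 2 := by
    have h1 : (emp k c n f Q : ℝ) * μ ^ 2 = ∑ j ∈ blocks k c n \ Q.image (fun x => f x / k), ((N j : ℝ) - μ) ^ 2 := by
      rw [emp, ← nsmul_eq_mul, ← Finset.sum_const]
      refine Finset.sum_congr rfl fun j hj => ?_
      rw [Finset.mem_sdiff] at hj
      have h0 : N j = 0 := by
        rw [hN]
        change (Q.filter (fun x => f x / k = j)).card = 0
        rw [Finset.card_eq_zero, Finset.filter_eq_empty_iff]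
        intro x hx hxj
        exact hj.2 (Finset.mem_image.2 ⟨x, hx, hxj⟩)
      rw [h0]
      push_cast
      ring
    rw [h1]
    exact Finset.sum_le_sum_of_subset_of_nonneg Finset.sdiff_subset (fun _ _ _ => sq_nonneg _)
  have hexp : ∑ j ∈ blocks k c n, ((N j : ℝ) - μ) ^ 2 =
      ∑ j ∈ blocks k c n, ((N j : ℝ)) ^ 2 - 2 * μ * Q.card + (blocks k c n).card * μ ^ 2 := by
    have h1 : ∀ j, ((N j : ℝ) - μ) ^ 2 = (N j : ℝ) ^ 2 - 2 * μ * N j + μ ^ 2 := fun j => by ring
    rw [Finset.sum_congr rfl fun j _ => h1 j, Finset.sum_add_distrib, Finset.sum_sub_distrib, ← Finset.mul_sum,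
      hsum, Finset.sum_const, nsmul_eq_mul]
  have hB := card_blocks k c n hk hn
  have h3 : (emp k c n f Q : ℝ) * μ ^ 2 ≤
      ((Q.card + coll k f Q) * ((n : ℝ) / (Q.card * k)) ^ 2 - n / k + 2) * μ ^ 2 := by
    have e1 : ((n : ℝ) / (Q.card * k)) ^ 2 * μ ^ 2 = 1 := by
      rw [hμ]
      field_simp
    have e2 : (n : ℝ) / k * μ = Q.card := by
      rw [hμ]
      field_simp
    have e3 : ((Q.card + coll k f Q) * ((n : ℝ) / (Q.card * k)) ^ 2 - n / k + 2) * μ ^ 2 =
        (Q.card + coll k f Q) * (((n : ℝ) / (Q.card * k)) ^ 2 * μ ^ 2) - (n / k * μ) * μ + 2 * μ ^ 2 := by ring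
    rw [e3, e1, e2]
    have h5 : ((blocks k c n).card : ℝ) * μ ^ 2 ≤ (n / k + 2) * μ ^ 2 :=
      mul_le_mul_of_nonneg_right hB (sq_nonneg _)
    have e4 : ((n : ℝ) / k + 2) * μ ^ 2 = (n / k * μ) * μ + 2 * μ ^ 2 := by ring
    rw [e4, e2] at h5
    nlinarith
  exact le_of_mul_le_mul_right h3 (by positivity)

/-- nodes whose halves are both hit -/
lemma both_ge {k c n N : ℕ} (hk : 1 ≤ k) (hn : 1 ≤ n) (hN : c + n ≤ N * (2 * k)) (f : κ → ℕ) (W W' : List κ) :
    (n : ℝ) / (2 * k) - 2 - emp k c n f W.toFinset - emp k c n f W'.toFinset ≤ (both N k f W W' : ℝ) := by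
  classical
  have hk0 : (0 : ℝ) < k := by exact_mod_cast hk
  obtain ⟨a, ha⟩ : ∃ a : ℕ, a = (c + 2 * k - 1) / (2 * k) := ⟨_, rfl⟩
  obtain ⟨b, hb⟩ : ∃ b : ℕ, b = (c + n) / (2 * k) := ⟨_, rfl⟩
  have hac : c ≤ 2 * k * a := by
    have h1 := Nat.lt_div_mul_add (a := c + 2 * k - 1) (b := 2 * k) (by omega)
    rw [← ha] at h1
    have e : a * (2 * k) = 2 * k * a := by ring
    omega
  have hbc : 2 * k * b ≤ c + n := by
    rw [hb]
    exact Nat.mul_div_le _ _
  have hsub : Finset.Ico a b ⊆ ((Finset.range N).filter (fun i => (∃ x ∈ W, f x / k = 2 * i) ∧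
      ∃ x ∈ W', f x / k = 2 * i + 1)) ∪
      (((Finset.Ico a b).filter (fun i => 2 * i ∉ W.toFinset.image (fun x => f x / k))) ∪
        ((Finset.Ico a b).filter (fun i => 2 * i + 1 ∉ W'.toFinset.image (fun x => f x / k)))) := by
    intro i hi
    have hi' := Finset.mem_Ico.1 hi
    have h1 : 2 * k * (i + 1) ≤ c + n := le_trans (Nat.mul_le_mul_left _ hi'.2) hbc
    have hiN : i < N := by
      have h2 : (i + 1) * (2 * k) ≤ N * (2 * k) := by
        have e : (i + 1) * (2 * k) = 2 * k * (i + 1) := by ring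
        omega
      exact Nat.le_of_mul_le_mul_right h2 (by omega)
    by_cases c1 : 2 * i ∈ W.toFinset.image (fun x => f x / k)
    · by_cases c2 : 2 * i + 1 ∈ W'.toFinset.image (fun x => f x / k)
      · rw [Finset.mem_union]
        left
        rw [Finset.mem_filter]
        obtain ⟨x, hx, hxi⟩ := Finset.mem_image.1 c1
        obtain ⟨y, hy, hyi⟩ := Finset.mem_image.1 c2
        exact ⟨Finset.mem_range.2 hiN, ⟨x, List.mem_toFinset.1 hx, hxi⟩, ⟨y, List.mem_toFinset.1 hy, hyi⟩⟩
      · rw [Finset.mem_union, Finset.mem_union]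
        right; right
        exact Finset.mem_filter.2 ⟨hi, c2⟩
    · rw [Finset.mem_union, Finset.mem_union]
      right; left
      exact Finset.mem_filter.2 ⟨hi, c1⟩
  have hin : ∀ i ∈ Finset.Ico a b, 2 * i ∈ blocks k c n ∧ 2 * i + 1 ∈ blocks k c n := by
    intro i hi
    have hi' := Finset.mem_Ico.1 hi
    have h1 : 2 * k * (i + 1) ≤ c + n := le_trans (Nat.mul_le_mul_left _ hi'.2) hbc
    have h2 : c ≤ 2 * k * i := le_trans hac (Nat.mul_le_mul_left _ hi'.1)
    have e1 : 2 * k * (i + 1) = (2 * i + 1) * k + k := by ring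
    have e2 : 2 * k * i = 2 * i * k := by ring
    have h3 : c / k ≤ 2 * i := by
      calc c / k ≤ (2 * i * k) / k := Nat.div_le_div_right (by omega)
        _ = 2 * i := Nat.mul_div_cancel _ hk
    have h4 : 2 * i + 1 ≤ (c + n - 1) / k := by
      rw [Nat.le_div_iff_mul_le hk]
      omega
    rw [blocks, Finset.mem_Icc, Finset.mem_Icc]
    omega
  have h1 : ((Finset.Ico a b).filter (fun i => 2 * i ∉ W.toFinset.image (fun x => f x / k))).card ≤
      emp k c n f W.toFinset := by
    unfold emp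
    apply Finset.card_le_card_of_injOn (fun i => 2 * i)
    · intro i hi
      rw [Finset.mem_coe, Finset.mem_filter] at hi
      rw [Finset.mem_coe, Finset.mem_sdiff]
      exact ⟨(hin i hi.1).1, hi.2⟩
    · intro i _ j _ hij
      simp only at hij
      omega
  have h2 : ((Finset.Ico a b).filter (fun i => 2 * i + 1 ∉ W'.toFinset.image (fun x => f x / k))).card ≤
      emp k c n f W'.toFinset := by
    unfold emp
    apply Finset.card_le_card_of_injOn (fun i => 2 * i + 1)
    · intro i hi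
      rw [Finset.mem_coe, Finset.mem_filter] at hi
      rw [Finset.mem_coe, Finset.mem_sdiff]
      exact ⟨(hin i hi.1).2, hi.2⟩
    · intro i _ j _ hij
      simp only at hij
      omega
  have h3 := (Finset.card_le_card hsub).trans ((Finset.card_union_le _ _).trans
    (Nat.add_le_add_left (Finset.card_union_le _ _) _))
  rw [Nat.card_Ico] at h3
  have h4 : b - a ≤ both N k f W W' + (emp k c n f W.toFinset + emp k c n f W'.toFinset) := by
    refine h3.trans (Nat.add_le_add ?_ (Nat.add_le_add h1 h2))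
    unfold both
    exact le_of_eq (by congr)
  have h5 : ((b : ℝ)) - a ≤ ((b - a : ℕ) : ℝ) := by
    rcases le_total a b with h | h
    · rw [Nat.cast_sub h]
    · have : (b : ℝ) ≤ a := by exact_mod_cast h
      have h0 : (0 : ℝ) ≤ ((b - a : ℕ) : ℝ) := Nat.cast_nonneg _
      linarith
  have h6 : ((b - a : ℕ) : ℝ) ≤ both N k f W W' + (emp k c n f W.toFinset + emp k c n f W'.toFinset) := by
    exact_mod_cast h4
  have h7 : ((c : ℝ) + n) / (2 * k) < b + 1 := by
    rw [div_lt_iff₀ (by positivity)]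
    have := Nat.lt_div_mul_add (a := c + n) (b := 2 * k) (by omega)
    rw [← hb] at this
    have h8 : c + n < (b + 1) * (2 * k) := by
      rw [add_mul, one_mul]
      exact this
    exact_mod_cast h8
  have h8 : (a : ℝ) ≤ c / (2 * k) + 1 := by
    have h9 : (a : ℝ) ≤ ((c + 2 * k - 1 : ℕ) : ℝ) / ((2 * k : ℕ) : ℝ) := by
      rw [ha]
      exact Nat.cast_div_le
    have h10 : ((c + 2 * k - 1 : ℕ) : ℝ) ≤ c + 2 * k := by
      have : ((c + 2 * k - 1 : ℕ) : ℝ) ≤ ((c + 2 * k : ℕ) : ℝ) := by exact_mod_cast Nat.sub_le _ _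
      push_cast at this
      exact this
    have h11 : ((c + 2 * k - 1 : ℕ) : ℝ) / ((2 * k : ℕ) : ℝ) ≤ (c + 2 * k) / (2 * k) := by
      push_cast
      exact div_le_div_of_nonneg_right h10 (by positivity)
    have h12 : ((c : ℝ) + 2 * k) / (2 * k) = c / (2 * k) + 1 := by
      field_simp
    linarith
  have h9 : ((c : ℝ) + n) / (2 * k) = c / (2 * k) + n / (2 * k) := add_div _ _ _
  linarith

end

end Pool.Agent.Zk77.Spl
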