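import Pool.Agent.Zk77.Spl.Lev
import Pool.Agent.N724.TW.T_INV
import Pool.Agent.Y395.SP.Asm

/-!
# Splay trees and spread families of relabellings (helper77)
-/

set_option autoImplicit false

namespace Pool.Agent.Zk77.Spl

open Finset Pool.Agent.H581R2.Splay Pool.Agent.TH49.Spl Pool.Agent.Y395.SP Pool.Agent.N724.TW

/-- a family of permutations for which the differences of the images of any two keys are spread -/
def Spread {n : ℕ} (S : Finset (Equiv.Perm (Fin n))) : Prop :=
  ∀ x y : Fin n, x ≠ y → ∀ k : ℕ, 1 ≤ k → k ≤ n →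
    n * ∑ σ ∈ S, (k - Nat.dist (σ x) (σ y)) ≤ k ^ 2 * S.card

/-- the lower bound -/
noncomputable def lowA (n : ℕ) (δ : ℝ) (Ws : ℕ → List (List (Fin n))) : ℝ :=
  ∑ e ∈ levs n δ, (((Ws e).length / 2 : ℕ) : ℝ) * (n / (4 * 2 ^ e))

theorem opt_ge_alt {n : ℕ} {T : Tr} (hT : keys T = List.range n) (Y : List ℕ) (hY : ∀ y ∈ Y, y < n) (D c : ℕ) :
    (alt D (Y.map (· + c)) : ℝ) ≤ 2 * optAny (List.range n) Y := by
  have h1 : ((alt D (Y.map (· + c)) : ℝ)) / 2 ≤ (optAny (List.range n) Y : ℝ) := by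
    refine optAny_ge hT fun T' v hT' hE => ?_
    have hb : IsBST T' := by
      unfold IsBST
      rw [hT']
      exact List.pairwise_lt_range
    have h2 := alt_shift hb (fun x hx => by
      rw [hT', List.mem_range]; exact hY x hx) hE D c
    have h3 : (alt D (Y.map (· + c)) : ℝ) ≤ ((2 * v : ℕ) : ℝ) := by exact_mod_cast h2
    push_cast at h3
    linarith
  linarith

theorem opt_ge_len {n : ℕ} {T : Tr} (hT : keys T = List.range n) (Y : List ℕ) :
    (Y.length : ℝ) ≤ optAny (List.range n) Y := by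
  refine optAny_ge hT fun T' c hT' hE => ?_
  exact_mod_cast exec_length hE

theorem cost_ws {n : ℕ} {T : Tr} (hT : keys T = List.range n) (X : List (Fin n)) (ρ : Equiv.Perm (Fin n)) :
    (costSplay T (rel ρ X) : ℝ) ≤ 8 * X.length + 6 * wsumF [] X + 8 * (n * Real.logb 2 n) := by
  rcases X with _ | ⟨x0, X0⟩
  · have h0 : costSplay T (rel ρ []) = 0 := by simp [rel, costSplay]
    rw [h0]
    have : 0 ≤ Real.logb 2 n := by
      rcases Nat.eq_zero_or_pos n with rfl | hn
      · simp
      · exact Real.logb_nonneg (by norm_num) (by exact_mod_cast hn)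
    simp only [List.length_nil, wsumF]
    push_cast
    positivity
  · have hn : T ≠ Tr.nil := by
      rintro rfl
      have h1 : (keys Tr.nil).length = (List.range n).length := by rw [hT]
      simp only [keys, List.length_nil, List.length_range] at h1
      exact absurd x0.2 (by omega)
    have hb : IsBST T := by
      unfold IsBST
      rw [hT]
      exact List.pairwise_lt_range
    have h1 := ws_holds T (rel ρ (x0 :: X0)) hb hn (fun x hx => by
      rw [hT, List.mem_range]
      exact rel_lt ρ _ x hx)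
    rw [holds_INV n ρ (x0 :: X0), hT, List.length_range] at h1
    have h3 : (rel ρ (x0 :: X0)).length = (x0 :: X0).length := by simp [rel]
    rw [h3] at h1
    linarith
where
  rel_lt (σ : Equiv.Perm (Fin n)) (X : List (Fin n)) : ∀ x ∈ rel σ X, x < n := by
    intro x hx
    unfold rel at hx
    rw [List.mem_map] at hx
    obtain ⟨y, -, rfl⟩ := hx
    exact (σ y).2

/-- **Spread families: the lower bound for most members.** -/
theorem spread_core {n : ℕ} (hn : 1 ≤ n) (S : Finset (Equiv.Perm (Fin n))) (hsp : Spread S) (δ u : ℝ) (hδ : 0 < δ)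
    (hδ1 : δ ≤ 1) (hu : 48 ≤ δ * u) (X : List (Fin n)) (Ws : ℕ → List (List (Fin n))) (rest : ℕ → List (Fin n))
    (hX : ∀ e, X = (Ws e).flatten ++ rest e) (hW : ∀ e, ∀ W ∈ Ws e, W.toFinset.card = qq n u e) :
    ∃ B ⊆ S, (B.card : ℝ) ≤ δ * S.card ∧ ∀ σ ∈ S, σ ∉ B → ∀ T : Tr, keys T = List.range n →
      lowA n δ Ws ≤ 4 * optAny (List.range n) (rel σ X) := by
  classical
  have hn2 : n ≤ 2 ^ n := Nat.lt_two_pow_self.le
  obtain ⟨S', hS'⟩ : ∃ S' : Finset (Equiv.Perm (Fin n) × ℕ), S' = S ×ˢ Finset.range (2 ^ n) := ⟨_, rfl⟩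
  have hcard : (S'.card : ℝ) = S.card * 2 ^ n := by
    rw [hS', Finset.card_product, Finset.card_range]
    push_cast
    rfl
  have h := core S' (fun ω (x : Fin n) => ((ω.1 x : Fin n) : ℕ) + ω.2) (fun ω => ω.2) n (n + 1) hn
    (fun ω _ x => ⟨Nat.le_add_left _ _, by
      have := (ω.1 x).2
      omega⟩)
    (fun ω hω => by
      rw [hS', Finset.mem_product, Finset.mem_range] at hω
      have := hω.2
      rw [pow_succ]
      omega) δ u hδ hδ1 hu (levs n δ) (fun e he => (mem_levs.1 he).2) (fun e he x y hxy => by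
        obtain ⟨he1, he2⟩ := mem_levs.1 he
        have hke : (2 : ℕ) ^ e ≤ n := by
          have h1 : (2 : ℝ) ^ e ≤ n := by
            have h2 : (0 : ℝ) < 2 ^ e := by positivity
            have h3 : δ * n ≤ n := by
              have : (0 : ℝ) ≤ n := Nat.cast_nonneg _
              nlinarith
            nlinarith
          exact_mod_cast h1
        have h1 := hsp x y hxy (2 ^ e) Nat.one_le_two_pow hke
        have h2 : (S'.filter (fun ω => (((ω.1 x : Fin n) : ℕ) + ω.2) / 2 ^ e = (((ω.1 y : Fin n) : ℕ) + ω.2) / 2 ^ e)).card =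
            2 ^ (n - e) * ∑ σ ∈ S, (2 ^ e - Nat.dist (σ x) (σ y)) := by
          rw [hS', Finset.card_filter, Finset.sum_product, Finset.mul_sum]
          refine Finset.sum_congr rfl fun σ _ => ?_
          rw [← Finset.card_filter]
          have e1 : 2 ^ n = 2 ^ e * 2 ^ (n - e) := by
            rw [← pow_add]
            congr 1
            omega
          simp only
          rw [e1]
          exact count_shift Nat.one_le_two_pow (2 ^ (n - e)) _ _
        rw [h2]
        have h3 : n * (2 ^ (n - e) * ∑ σ ∈ S, (2 ^ e - Nat.dist (σ x) (σ y))) ≤ 2 ^ e * (S.card * 2 ^ n) := by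
          calc n * (2 ^ (n - e) * ∑ σ ∈ S, (2 ^ e - Nat.dist (σ x) (σ y))) =
                2 ^ (n - e) * (n * ∑ σ ∈ S, (2 ^ e - Nat.dist (σ x) (σ y))) := by ring
            _ ≤ 2 ^ (n - e) * ((2 ^ e) ^ 2 * S.card) := Nat.mul_le_mul_left _ h1
            _ = 2 ^ e * (S.card * (2 ^ (n - e) * 2 ^ e)) := by ring
            _ = 2 ^ e * (S.card * 2 ^ n) := by
                rw [← pow_add, Nat.sub_add_cancel he1.le]
        rw [hcard]
        exact_mod_cast h3)
    (qq n u) (fun e _ => Nat.le_ceil _) X Ws rest (fun e _ => hX e) (fun e _ => hW e)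
  obtain ⟨B', hB'⟩ : ∃ B' : Finset (Equiv.Perm (Fin n) × ℕ), B' = S'.filter (fun ω =>
      (alt (n + 1) (X.map (fun (x : Fin n) => ((ω.1 x : Fin n) : ℕ) + ω.2)) : ℝ) < (1 / 2) * lowA n δ Ws) := ⟨_, rfl⟩
  have hB'c : (B'.card : ℝ) ≤ δ * (S.card * 2 ^ n) := by
    rw [← hcard, hB']
    exact h
  obtain ⟨bad, hbad⟩ : ∃ bad : Equiv.Perm (Fin n) → Prop,
      bad = fun σ => ∀ c ∈ Finset.range (2 ^ n), (σ, c) ∈ B' := ⟨_, rfl⟩
  refine ⟨S.filter bad, Finset.filter_subset _ _, ?_, ?_⟩
  · have h1 : (S.filter bad).card * 2 ^ n ≤ B'.card := by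
      have : (S.filter bad) ×ˢ Finset.range (2 ^ n) ⊆ B' := by
        intro z hz
        rw [Finset.mem_product, Finset.mem_filter, hbad] at hz
        exact hz.1.2 z.2 hz.2
      have h2 := Finset.card_le_card this
      rw [Finset.card_product, Finset.card_range] at h2
      exact h2
    have h2 : ((S.filter bad).card : ℝ) * 2 ^ n ≤ (δ * S.card) * 2 ^ n := by
      have : (((S.filter bad).card : ℝ)) * 2 ^ n ≤ B'.card := by
        exact_mod_cast h1
      linarith
    exact le_of_mul_le_mul_right h2 (by positivity)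
  · intro σ hσ hσB T hT
    rw [Finset.mem_filter, not_and] at hσB
    have h1 := hσB hσ
    rw [hbad] at h1
    push Not at h1
    obtain ⟨c, hc, hcB⟩ := h1
    rw [hB', Finset.mem_filter, not_and, not_lt] at hcB
    have h2 := hcB (by
      rw [hS', Finset.mem_product]
      exact ⟨hσ, hc⟩)
    have h3 := opt_ge_alt hT (rel σ X) (fun y hy => cost_ws.rel_lt σ X y hy) (n + 1) c
    have e : (rel σ X).map (· + c) = X.map (fun (x : Fin n) => ((σ x : Fin n) : ℕ) + c) := by
      unfold rel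
      rw [List.map_map]
      rfl
    rw [e] at h3
    simp only at h2
    linarith

lemma logb_le_self {z : ℝ} (hz : 1 ≤ z) : Real.logb 2 z ≤ z := by
  rw [Real.logb_le_iff_le_rpow (by norm_num) (by linarith)]
  have h1 : z = (⌊z⌋₊ : ℝ) + (z - ⌊z⌋₊) := by ring
  have h2 : (⌊z⌋₊ : ℝ) ≤ z := Nat.floor_le (by linarith)
  have h3 := Nat.lt_floor_add_one z
  have h4 : ⌊z⌋₊ + 1 ≤ 2 ^ ⌊z⌋₊ := Nat.lt_two_pow_self
  have h5 : ((⌊z⌋₊ : ℝ)) + 1 ≤ 2 ^ ⌊z⌋₊ := by exact_mod_cast h4
  have h6 : (2 : ℝ) ^ ⌊z⌋₊ ≤ 2 ^ z := by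
    rw [← Real.rpow_natCast]
    exact Real.rpow_le_rpow_of_exponent_le (by norm_num) h2
  linarith

lemma sum_two_pow_inv (E : Finset ℕ) : ∑ e ∈ E, (1 : ℝ) / 2 ^ e ≤ 2 := by
  have h1 : ∑ e ∈ E, (1 : ℝ) / 2 ^ e = ∑ e ∈ E, (1 / 2 : ℝ) ^ e := by
    refine Finset.sum_congr rfl fun e _ => ?_
    rw [div_pow, one_pow]
  rw [h1]
  have h2 := Summable.sum_le_tsum E (fun e _ => by positivity) summable_geometric_two
  rw [tsum_geometric_two] at h2
  exact h2

/-- **Splay trees and spread families.** -/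
theorem spread_main {n : ℕ} (S : Finset (Equiv.Perm (Fin n))) (hsp : Spread S) (X : List (Fin n)) (δ : ℝ) (hδ : 0 < δ)
    (hδ1 : δ ≤ 1) :
    ∃ B ⊆ S, (B.card : ℝ) ≤ δ * S.card ∧ ∀ σ ∈ S, σ ∉ B → ∀ (ρ : Equiv.Perm (Fin n)) (T : Tr),
      keys T = List.range n →
        (costSplay T (rel ρ X) : ℝ) ≤ 20000 / δ * (optAny (List.range n) (rel σ X) + n) + 8 * (n * Real.logb 2 n) ∧
        ((∀ x : Fin n, x ∈ X) → (costSplay T (rel ρ X) : ℝ) ≤ 100000 / δ * optAny (List.range n) (rel σ X)) := by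
  classical
  rcases Nat.eq_zero_or_pos n with rfl | hn
  · refine ⟨∅, Finset.empty_subset _, by simp; positivity, fun σ _ _ ρ T hT => ?_⟩
    have hX : X = [] := by
      rcases X with _ | ⟨x, X⟩
      · rfl
      · exact absurd x.2 (by omega)
    subst hX
    have h0 : costSplay T (rel ρ []) = 0 := by simp [rel, costSplay]
    rw [h0]
    have h1 : (0 : ℝ) ≤ optAny (List.range 0) (rel σ []) := Nat.cast_nonneg _
    constructor
    · simp
      positivity
    · intro _
      simp
      positivity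
  have hn0 : (1 : ℝ) ≤ n := by exact_mod_cast hn
  obtain ⟨u, hu⟩ : ∃ u : ℝ, u = 48 / δ := ⟨_, rfl⟩
  have hu1 : 48 ≤ u := by
    rw [hu, le_div_iff₀ hδ]
    nlinarith
  have hδu : δ * u = 48 := by
    rw [hu]
    field_simp
  have hwin : ∀ e, ∃ (Ws : List (List (Fin n))) (rest : List (Fin n)),
      X = Ws.flatten ++ rest ∧ (∀ W ∈ Ws, W.toFinset.card = qq n u e) ∧ rest.toFinset.card < qq n u e := by
    intro e
    refine windows (qq n u e) ?_ X.length X le_rfl
    rw [qq, Nat.one_le_ceil_iff]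
    positivity
  choose Ws rest hX hW hr using hwin
  obtain ⟨B, hBS, hBc, hB⟩ := spread_core hn S hsp δ u hδ hδ1 hδu.ge X Ws rest hX hW
  refine ⟨B, hBS, hBc, fun σ hσ hσB ρ T hT => ?_⟩
  have hA := hB σ hσ hσB T hT
  obtain ⟨A, hAd⟩ : ∃ A : ℝ, A = lowA n δ Ws := ⟨_, rfl⟩
  rw [← hAd] at hA
  obtain ⟨OP, hOP⟩ : ∃ OP : ℝ, OP = (optAny (List.range n) (rel σ X) : ℝ) := ⟨_, rfl⟩
  rw [← hOP] at hA ⊢
  have hlen : (X.length : ℝ) ≤ OP := by
    have := opt_ge_len hT (rel σ X)
    rw [hOP]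
    have e : (rel σ X).length = X.length := by simp [rel]
    rw [e] at this
    exact this
  have hcost := cost_ws hT X ρ
  obtain ⟨L₀, hL₀⟩ : ∃ L₀ : ℝ, L₀ = Real.logb 2 (96 * u / δ) + 2 := ⟨_, rfl⟩
  have hws := wsum_le (levs n δ) (qq n u) L₀ (fun t ht => by
    rw [hL₀]
    exact log_levs hδ hδ1 (by linarith) t ht) X []
  have hqle : ∀ e ∈ levs n δ, (qq n u e : ℝ) ≤ 2 * u * (n / 2 ^ e) := by
    intro e he
    obtain ⟨-, h2⟩ := mem_levs.1 he
    have hk : (0 : ℝ) < 2 ^ e := by positivity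
    have h3 : 1 ≤ u * n / 2 ^ e := by
      rw [le_div_iff₀ hk]
      nlinarith
    have h4 : (qq n u e : ℝ) < u * n / 2 ^ e + 1 := Nat.ceil_lt_add_one (by positivity)
    have e1 : 2 * u * ((n : ℝ) / 2 ^ e) = 2 * (u * n / 2 ^ e) := by ring
    rw [e1]
    linarith
  have hVP : ∀ e, ((Ws e).length : ℝ) + 1 ≤ 2 * (((Ws e).length / 2 : ℕ) : ℝ) + 2 := by
    intro e
    have : (Ws e).length + 1 ≤ 2 * ((Ws e).length / 2) + 2 := by omega
    exact_mod_cast this
  have hsum1 : ∑ e ∈ levs n δ, (n : ℝ) / 2 ^ e ≤ 2 * n := by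
    have h1 := sum_two_pow_inv (levs n δ)
    have e1 : ∑ e ∈ levs n δ, (n : ℝ) / 2 ^ e = n * ∑ e ∈ levs n δ, (1 : ℝ) / 2 ^ e := by
      rw [Finset.mul_sum]
      refine Finset.sum_congr rfl fun e _ => ?_
      ring
    rw [e1]
    nlinarith
  have hcws : ∑ e ∈ levs n δ, (cws (qq n u e) [] X : ℝ) ≤ 16 * u * A + 8 * u * n := by
    have h1 : ∀ e ∈ levs n δ, (cws (qq n u e) [] X : ℝ) ≤
        16 * u * ((((Ws e).length / 2 : ℕ) : ℝ) * (n / (4 * 2 ^ e))) + 4 * u * (n / 2 ^ e) := by
      intro e he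
      have h2 := cws_le (qq n u e) (Ws e) (rest e) [] (hW e) (hr e)
      rw [← hX e] at h2
      have h3 : (cws (qq n u e) [] X : ℝ) ≤ (qq n u e : ℝ) * (((Ws e).length : ℝ) + 1) := by exact_mod_cast h2
      have hk : (0 : ℝ) < 2 ^ e := by positivity
      calc (cws (qq n u e) [] X : ℝ) ≤ (qq n u e : ℝ) * (((Ws e).length : ℝ) + 1) := h3
        _ ≤ (2 * u * (n / 2 ^ e)) * (2 * (((Ws e).length / 2 : ℕ) : ℝ) + 2) :=
            mul_le_mul (hqle e he) (hVP e) (by positivity) (by positivity)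
        _ = 16 * u * ((((Ws e).length / 2 : ℕ) : ℝ) * (n / (4 * 2 ^ e))) + 4 * u * (n / 2 ^ e) := by
            field_simp
            ring
    refine (Finset.sum_le_sum h1).trans ?_
    rw [Finset.sum_add_distrib, ← Finset.mul_sum, ← Finset.mul_sum]
    have e1 : ∑ e ∈ levs n δ, (((Ws e).length / 2 : ℕ) : ℝ) * (n / (4 * 2 ^ e)) = A := by rw [hAd, lowA]
    rw [e1]
    nlinarith
  -- constants
  have hd1 : 1 ≤ 1 / δ := by
    rw [le_div_iff₀ hδ]
    linarith
  have hud : u = 48 * (1 / δ) := by rw [hu]; ring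
  have hL1 : L₀ ≤ 17 * (1 / δ) := by
    have e1 : 96 * u / δ = 4608 * (1 / δ) ^ 2 := by
      rw [hu]
      field_simp
      norm_num
    have e2 : Real.logb 2 (96 * u / δ) = Real.logb 2 4608 + 2 * Real.logb 2 (1 / δ) := by
      rw [e1, Real.logb_mul (by norm_num) (by positivity), Real.logb_pow]
      norm_num
    have e3 : Real.logb 2 4608 ≤ 13 := by
      rw [Real.logb_le_iff_le_rpow (by norm_num) (by norm_num)]
      norm_num
    have e4 := logb_le_self hd1
    rw [hL₀, e2]
    linarith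
  have hOP0 : 0 ≤ OP := by
    have : (0 : ℝ) ≤ X.length := Nat.cast_nonneg _
    linarith
  have hL0 : 0 ≤ L₀ := by
    rw [hL₀]
    have : 0 ≤ Real.logb 2 (96 * u / δ) := Real.logb_nonneg (by norm_num) (by
      rw [le_div_iff₀ hδ]
      nlinarith)
    linarith
  have hm : L₀ * X.length ≤ 17 * (1 / δ) * OP :=
    mul_le_mul hL1 hlen (Nat.cast_nonneg _) (by positivity)
  have hmain : (costSplay T (rel ρ X) : ℝ) ≤ 18542 * (1 / δ) * OP + 2304 * (1 / δ) * n + 8 * (n * Real.logb 2 n) := by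
    have h1 : (8 : ℝ) * X.length ≤ 8 * (1 / δ) * OP := by
      have : (1 : ℝ) * OP ≤ 1 / δ * OP := mul_le_mul_of_nonneg_right hd1 hOP0
      nlinarith
    have h2 : 16 * u * A ≤ 64 * u * OP := by nlinarith
    have h3 : wsumF [] X ≤ 64 * u * OP + 8 * u * n + 17 * (1 / δ) * OP := by linarith
    rw [hud] at h3
    linarith
  refine ⟨?_, fun hall => ?_⟩
  · refine hmain.trans ?_
    have e1 : 20000 / δ = 20000 * (1 / δ) := by ring
    rw [e1]
    have h1 : 0 ≤ 1 / δ * OP := by positivity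
    have h2 : 0 ≤ 1 / δ * (n : ℝ) := by positivity
    nlinarith
  · -- every key is requested
    have hnX : (n : ℝ) ≤ X.length := by
      have h1 : Fintype.card (Fin n) ≤ X.toFinset.card := by
        rw [← Finset.card_univ]
        apply Finset.card_le_card
        intro x _
        exact List.mem_toFinset.2 (hall x)
      rw [Fintype.card_fin] at h1
      exact_mod_cast h1.trans (List.toFinset_card_le X)
    have hcount := levs_ge (n := n) (a := 8 * u) hδ hδ1 hn (by linarith)
    have hP : ∀ e ∈ (levs n δ).filter (fun e => 8 * u ≤ (2 : ℝ) ^ e),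
        (n : ℝ) / (32 * u) ≤ (((Ws e).length / 2 : ℕ) : ℝ) * (n / (4 * 2 ^ e)) := by
      intro e he
      rw [Finset.mem_filter] at he
      obtain ⟨he, he2⟩ := he
      have hk : (0 : ℝ) < 2 ^ e := by positivity
      have h1 := keys_le (qq n u e) (Ws e) (rest e) (hW e) (hr e)
      rw [← hX e] at h1
      have h2 : n ≤ X.toFinset.card := by
        have h1 : Fintype.card (Fin n) ≤ X.toFinset.card := by
          rw [← Finset.card_univ]
          apply Finset.card_le_card
          intro x _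
          exact List.mem_toFinset.2 (hall x)
        rwa [Fintype.card_fin] at h1
      have h3 : (n : ℝ) ≤ (qq n u e : ℝ) * (((Ws e).length : ℝ) + 1) := by exact_mod_cast h2.trans h1
      have h4 : (n : ℝ) ≤ (2 * u * (n / 2 ^ e)) * (2 * (((Ws e).length / 2 : ℕ) : ℝ) + 2) :=
        h3.trans (mul_le_mul (hqle e he) (hVP e) (by positivity) (by positivity))
      have h5 : (2 : ℝ) ^ e ≤ 4 * u * ((((Ws e).length / 2 : ℕ) : ℝ) + 1) := by
        have e1 : (2 * u * ((n : ℝ) / 2 ^ e)) * (2 * (((Ws e).length / 2 : ℕ) : ℝ) + 2) =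
            (4 * u * ((((Ws e).length / 2 : ℕ) : ℝ) + 1)) * n / 2 ^ e := by
          field_simp
          ring
        rw [e1, le_div_iff₀ hk] at h4
        have h6 : (2 : ℝ) ^ e * n ≤ 4 * u * ((((Ws e).length / 2 : ℕ) : ℝ) + 1) * n := by linarith
        exact le_of_mul_le_mul_right h6 (by linarith)
      have h6 : (2 : ℝ) ^ e ≤ 8 * u * (((Ws e).length / 2 : ℕ) : ℝ) := by nlinarith
      rw [div_le_iff₀ (by positivity)]
      have e2 : (((Ws e).length / 2 : ℕ) : ℝ) * ((n : ℝ) / (4 * 2 ^ e)) * (32 * u) =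
          (8 * u * (((Ws e).length / 2 : ℕ) : ℝ)) * n / 2 ^ e := by
        field_simp
        ring
      rw [e2, le_div_iff₀ hk]
      nlinarith
    have hA2 : (((levs n δ).filter (fun e => 8 * u ≤ (2 : ℝ) ^ e)).card : ℝ) * (n / (32 * u)) ≤ A := by
      rw [hAd, lowA, ← nsmul_eq_mul, ← Finset.sum_const]
      refine (Finset.sum_le_sum hP).trans (Finset.sum_le_sum_of_subset_of_nonneg (Finset.filter_subset _ _) ?_)
      intro e _ _
      positivity
    have hlog : n * Real.logb 2 n ≤ 128 * u * OP + (Real.logb 2 (768 * u / δ) + 1) * OP := by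
      have e1 : Real.logb 2 (δ * n / 96) - Real.logb 2 (8 * u) - 1 = Real.logb 2 n - (Real.logb 2 (768 * u / δ) + 1) := by
        have e2 : Real.logb 2 (δ * n / 96) = Real.logb 2 δ + Real.logb 2 n - Real.logb 2 96 := by
          rw [Real.logb_div (by positivity) (by norm_num), Real.logb_mul (by positivity) (by positivity)]
        have e3 : Real.logb 2 (768 * u / δ) = Real.logb 2 96 + Real.logb 2 (8 * u) - Real.logb 2 δ := by
          rw [Real.logb_div (by positivity) (by positivity), ← Real.logb_mul (by norm_num) (by positivity)]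
          congr 2
          ring
        rw [e2, e3]
        ring
      rw [e1] at hcount
      have h1 : (Real.logb 2 n - (Real.logb 2 (768 * u / δ) + 1)) * (n / (32 * u)) ≤ A :=
        (mul_le_mul_of_nonneg_right hcount (by positivity)).trans hA2
      have h2 : (Real.logb 2 n - (Real.logb 2 (768 * u / δ) + 1)) * n ≤ 32 * u * A := by
        have h3 : (Real.logb 2 n - (Real.logb 2 (768 * u / δ) + 1)) * (n / (32 * u)) * (32 * u) ≤ A * (32 * u) :=
          mul_le_mul_of_nonneg_right h1 (by positivity)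
        have e2 : (Real.logb 2 n - (Real.logb 2 (768 * u / δ) + 1)) * ((n : ℝ) / (32 * u)) * (32 * u) =
            (Real.logb 2 n - (Real.logb 2 (768 * u / δ) + 1)) * n := by
          field_simp
        rw [e2] at h3
        linarith
      have h3 : 0 ≤ Real.logb 2 (768 * u / δ) + 1 := by
        have : 0 ≤ Real.logb 2 (768 * u / δ) := Real.logb_nonneg (by norm_num) (by
          rw [le_div_iff₀ hδ]
          nlinarith)
        linarith
      have h4 : (Real.logb 2 (768 * u / δ) + 1) * n ≤ (Real.logb 2 (768 * u / δ) + 1) * OP :=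
        mul_le_mul_of_nonneg_left (hnX.trans hlen) h3
      have h5 : 32 * u * A ≤ 128 * u * OP := by nlinarith
      nlinarith
    have hlog2 : Real.logb 2 (768 * u / δ) + 1 ≤ 19 * (1 / δ) := by
      have e1 : 768 * u / δ = 36864 * (1 / δ) ^ 2 := by
        rw [hu]
        field_simp
        norm_num
      have e2 : Real.logb 2 (768 * u / δ) = Real.logb 2 36864 + 2 * Real.logb 2 (1 / δ) := by
        rw [e1, Real.logb_mul (by norm_num) (by positivity), Real.logb_pow]
        norm_num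
      have e3 : Real.logb 2 36864 ≤ 16 := by
        rw [Real.logb_le_iff_le_rpow (by norm_num) (by norm_num)]
        norm_num
      have e4 := logb_le_self hd1
      rw [e2]
      linarith
    have h1 : (Real.logb 2 (768 * u / δ) + 1) * OP ≤ 19 * (1 / δ) * OP := mul_le_mul_of_nonneg_right hlog2 hOP0
    have h2 : (n : ℝ) ≤ OP := hnX.trans hlen
    have e1 : 100000 / δ = 100000 * (1 / δ) := by ring
    rw [e1]
    rw [hud] at hlog
    rw [hud] at h1
    have h3 : 0 ≤ 1 / δ * OP := by positivity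
    have h4 : 1 / δ * (n : ℝ) ≤ 1 / δ * OP := mul_le_mul_of_nonneg_left h2 (by positivity)
    nlinarith

end Pool.Agent.Zk77.Spl
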