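import Pool.Agent.Zk77.Spl.Dil

/-!
# Examples of spread families: pairwise uniform families, multiplications modulo a prime (helper77)
-/

set_option autoImplicit false

namespace Pool.Agent.Zk77.Spl

open Finset Pool.Agent.H581R2.Splay Pool.Agent.TH49.Spl Pool.Agent.N724.TW

/-- sums of `(k - d)` -/
lemma sum_tri (k N : ℕ) : 2 * ∑ d ∈ Finset.range N, (k - (d + 1)) ≤ k * (k - 1) := by
  have h1 : ∑ d ∈ Finset.range N, (k - (d + 1)) ≤ ∑ d ∈ Finset.range k, (k - (d + 1)) := by
    have h2 : ∑ d ∈ Finset.range (max N k), (k - (d + 1)) = ∑ d ∈ Finset.range k, (k - (d + 1)) := by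
      symm
      apply Finset.sum_subset (Finset.range_mono (le_max_right _ _))
      intro d _ hd
      rw [Finset.mem_range] at hd
      omega
    rw [← h2]
    exact Finset.sum_le_sum_of_subset (Finset.range_mono (le_max_left _ _))
  have h2 : ∑ d ∈ Finset.range k, (k - (d + 1)) = ∑ d ∈ Finset.range k, d := by
    rw [← Finset.sum_range_reflect]
    refine Finset.sum_congr rfl fun d hd => ?_
    rw [Finset.mem_range] at hd
    omega
  have h3 := Finset.sum_range_id_mul_two k
  rw [h2] at h1
  omega

lemma sum_tri_Ico (k N : ℕ) : 2 * ∑ d ∈ Finset.Ico 1 N, (k - d) ≤ k * (k - 1) := by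
  have h := sum_tri k (N - 1)
  have e : ∑ d ∈ Finset.Ico 1 N, (k - d) = ∑ d ∈ Finset.range (N - 1), (k - (d + 1)) := by
    rw [Finset.sum_Ico_eq_sum_range]
    refine Finset.sum_congr rfl fun d _ => ?_
    rw [add_comm]
  rw [e]
  exact h

/-- the sum over the other points of `[0, n)` -/
lemma sum_dist (k n a : ℕ) : ∑ b ∈ (Finset.range n).erase a, (k - Nat.dist a b) ≤ k * (k - 1) := by
  have h1 : ∑ b ∈ (Finset.range n).erase a, (k - Nat.dist a b) ≤
      ∑ b ∈ Finset.range a, (k - Nat.dist a b) + ∑ b ∈ Finset.Ico (a + 1) (a + 1 + n), (k - Nat.dist a b) := by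
    rw [← Finset.sum_union]
    · apply Finset.sum_le_sum_of_subset
      intro b hb
      rw [Finset.mem_erase, Finset.mem_range] at hb
      rw [Finset.mem_union, Finset.mem_range, Finset.mem_Ico]
      omega
    · rw [Finset.disjoint_left]
      intro b h1 h2
      rw [Finset.mem_range] at h1
      rw [Finset.mem_Ico] at h2
      omega
  have h2 : ∑ b ∈ Finset.range a, (k - Nat.dist a b) = ∑ d ∈ Finset.range a, (k - (d + 1)) := by
    rw [← Finset.sum_range_reflect]
    refine Finset.sum_congr rfl fun d hd => ?_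
    rw [Finset.mem_range] at hd
    congr 1
    unfold Nat.dist
    omega
  have h3 : ∑ b ∈ Finset.Ico (a + 1) (a + 1 + n), (k - Nat.dist a b) = ∑ d ∈ Finset.range n, (k - (d + 1)) := by
    rw [Finset.sum_Ico_eq_sum_range, Nat.add_sub_cancel_left]
    refine Finset.sum_congr rfl fun d _ => ?_
    congr 1
    unfold Nat.dist
    omega
  have h4 := sum_tri k a
  have h5 := sum_tri k n
  rw [h2, h3] at h1
  omega

/-- pairwise uniform families of permutations -/
def PairwiseUniform {n : ℕ} (S : Finset (Equiv.Perm (Fin n))) : Prop :=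
  ∀ a b a' b' : Fin n, a ≠ b → a' ≠ b' → (S.filter fun σ => σ a = a' ∧ σ b = b').card * (n * (n - 1)) = S.card

theorem spread_of_uniform {n : ℕ} (S : Finset (Equiv.Perm (Fin n))) (hS : PairwiseUniform S) : Spread S := by
  classical
  intro x y hxy k hk hkn
  have hn2 : 2 ≤ n := by
    by_contra h
    have h1 := x.2
    have h2 := y.2
    apply hxy
    apply Fin.ext
    omega
  have h1 : n * (n - 1) * ∑ σ ∈ S, (k - Nat.dist (σ x) (σ y)) =
      S.card * ∑ z ∈ (Finset.univ : Finset (Fin n × Fin n)).filter (fun z => z.1 ≠ z.2), (k - Nat.dist z.1 z.2) := by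
    have e1 : ∑ σ ∈ S, (k - Nat.dist (σ x) (σ y)) =
        ∑ z ∈ (Finset.univ : Finset (Fin n × Fin n)).filter (fun z => z.1 ≠ z.2),
          ∑ σ ∈ S.filter (fun σ => (σ x, σ y) = z), (k - Nat.dist (σ x) (σ y)) := by
      symm
      apply Finset.sum_fiberwise_of_maps_to
      intro σ _
      rw [Finset.mem_filter]
      exact ⟨Finset.mem_univ _, fun h => hxy (σ.injective h)⟩
    rw [e1, Finset.mul_sum, Finset.mul_sum]
    refine Finset.sum_congr rfl fun z hz => ?_
    rw [Finset.mem_filter] at hz
    have h2 := hS x y z.1 z.2 hxy hz.2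
    have e2 : ∑ σ ∈ S.filter (fun σ => (σ x, σ y) = z), (k - Nat.dist (σ x) (σ y)) =
        (S.filter (fun σ => σ x = z.1 ∧ σ y = z.2)).card * (k - Nat.dist z.1 z.2) := by
      rw [← smul_eq_mul, ← Finset.sum_const]
      apply Finset.sum_congr
      · apply Finset.filter_congr
        intro σ _
        rw [Prod.ext_iff]
      · intro σ hσ
        rw [Finset.mem_filter] at hσ
        rw [hσ.2.1, hσ.2.2]
    rw [e2, ← h2]
    ring
  have h2 : ∑ z ∈ (Finset.univ : Finset (Fin n × Fin n)).filter (fun z => z.1 ≠ z.2), (k - Nat.dist z.1 z.2) ≤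
      n * (k * (k - 1)) := by
    have e1 : ∑ z ∈ (Finset.univ : Finset (Fin n × Fin n)).filter (fun z => z.1 ≠ z.2), (k - Nat.dist z.1 z.2) =
        ∑ a : Fin n, ∑ b ∈ (Finset.univ : Finset (Fin n)).erase a, (k - Nat.dist a b) := by
      rw [Finset.sum_filter, ← Finset.univ_product_univ, Finset.sum_product]
      refine Finset.sum_congr rfl fun a _ => ?_
      rw [← Finset.sum_filter]
      apply Finset.sum_congr
      · ext b
        simp [ne_comm]
      · intro b _
        rfl
    rw [e1]
    calc ∑ a : Fin n, ∑ b ∈ (Finset.univ : Finset (Fin n)).erase a, (k - Nat.dist a b) ≤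
          ∑ _a : Fin n, k * (k - 1) := by
          refine Finset.sum_le_sum fun a _ => ?_
          refine le_trans (le_of_eq ?_) (sum_dist k n a)
          symm
          apply Finset.sum_nbij' (fun b => if h : b < n then (⟨b, h⟩ : Fin n) else a) (fun b => (b : ℕ))
          · intro b hb
            rw [Finset.mem_erase, Finset.mem_range] at hb
            rw [dif_pos hb.2, Finset.mem_erase]
            exact ⟨fun h => hb.1 (by rw [← h]), Finset.mem_univ _⟩
          · intro b hb
            rw [Finset.mem_erase] at hb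
            rw [Finset.mem_erase, Finset.mem_range]
            exact ⟨fun h => hb.1 (Fin.ext h), b.2⟩
          · intro b hb
            rw [Finset.mem_erase, Finset.mem_range] at hb
            rw [dif_pos hb.2]
          · intro b _
            rw [dif_pos b.2]
          · intro b hb
            rw [Finset.mem_erase, Finset.mem_range] at hb
            rw [dif_pos hb.2]
      _ = n * (k * (k - 1)) := by rw [Finset.sum_const, Finset.card_univ, Fintype.card_fin, smul_eq_mul]
  have h3 : (n - 1) * (n * ∑ σ ∈ S, (k - Nat.dist (σ x) (σ y))) ≤ (n - 1) * (k ^ 2 * S.card) := by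
    calc (n - 1) * (n * ∑ σ ∈ S, (k - Nat.dist (σ x) (σ y))) =
          n * (n - 1) * ∑ σ ∈ S, (k - Nat.dist (σ x) (σ y)) := by ring
      _ ≤ S.card * (n * (k * (k - 1))) := by
          rw [h1]
          exact Nat.mul_le_mul_left _ h2
      _ = S.card * k * (n * (k - 1)) := by ring
      _ ≤ S.card * k * ((n - 1) * k) := by
          apply Nat.mul_le_mul_left
          obtain ⟨n', rfl⟩ := Nat.exists_eq_add_of_le' (by omega : 1 ≤ n)
          obtain ⟨k', rfl⟩ := Nat.exists_eq_add_of_le' hk
          simp only [Nat.add_sub_cancel]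
          nlinarith
      _ = (n - 1) * (k ^ 2 * S.card) := by ring
  exact Nat.le_of_mul_le_mul_left h3 (by omega)

section
variable {F : Type} [Field F] [Fintype F] [DecidableEq F]

/-- the affine map `x ↦ a x + b`, with the elements of the field numbered by `e` -/
def affinePerm (e : F ≃ Fin (Fintype.card F)) (z : Fˣ × F) : Equiv.Perm (Fin (Fintype.card F)) :=
  e.symm.trans ((Units.mulLeft z.1).trans ((Equiv.addRight z.2).trans e))

lemma affinePerm_apply (e : F ≃ Fin (Fintype.card F)) (z : Fˣ × F) (x : Fin (Fintype.card F)) :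
    affinePerm e z x = e ((z.1 : F) * e.symm x + z.2) := rfl

theorem affine_uniform (e : F ≃ Fin (Fintype.card F)) :
    PairwiseUniform (Finset.univ.image (affinePerm e)) := by
  classical
  intro a b a' b' hab hab'
  have hinj : Function.Injective (affinePerm e) := by
    intro z w h
    have h0 := congrArg (fun σ : Equiv.Perm (Fin (Fintype.card F)) => σ (e 0)) h
    have h1 := congrArg (fun σ : Equiv.Perm (Fin (Fintype.card F)) => σ (e 1)) h
    simp only [affinePerm_apply, Equiv.symm_apply_apply, mul_zero, zero_add, mul_one] at h0 h1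
    have h2 := e.injective h0
    have h3 := e.injective h1
    rw [h2] at h3
    have h4 : (z.1 : F) = w.1 := add_right_cancel h3
    exact Prod.ext (Units.ext h4) h2
  have hx : e.symm a - e.symm b ≠ 0 := sub_ne_zero.2 fun h => hab (e.symm.injective h)
  have hx' : e.symm a' - e.symm b' ≠ 0 := sub_ne_zero.2 fun h => hab' (e.symm.injective h)
  obtain ⟨s, hs⟩ : ∃ s : Fˣ, (s : F) = (e.symm a' - e.symm b') / (e.symm a - e.symm b) :=
    ⟨Units.mk0 _ (div_ne_zero hx' hx), rfl⟩
  have h1 : (Finset.univ.image (affinePerm e)).filter (fun σ => σ a = a' ∧ σ b = b') =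
      {affinePerm e (s, e.symm a' - s * e.symm a)} := by
    ext σ
    rw [Finset.mem_filter, Finset.mem_image, Finset.mem_singleton]
    constructor
    · rintro ⟨⟨z, -, rfl⟩, h2, h3⟩
      rw [affinePerm_apply] at h2 h3
      have h4 : (z.1 : F) * e.symm a + z.2 = e.symm a' := by rw [← h2, Equiv.symm_apply_apply]
      have h5 : (z.1 : F) * e.symm b + z.2 = e.symm b' := by rw [← h3, Equiv.symm_apply_apply]
      have h6 : (z.1 : F) = s := by
        rw [hs, eq_div_iff hx, ← h4, ← h5]
        ring
      congr 1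
      refine Prod.ext (Units.ext h6) ?_
      rw [← h4, h6]
      ring
    · rintro rfl
      refine ⟨⟨_, Finset.mem_univ _, rfl⟩, ?_, ?_⟩
      · rw [affinePerm_apply]
        have : (s : F) * e.symm a + (e.symm a' - s * e.symm a) = e.symm a' := by ring
        rw [this, Equiv.apply_symm_apply]
      · rw [affinePerm_apply]
        have h7 : (s : F) * (e.symm a - e.symm b) = e.symm a' - e.symm b' := by
          rw [hs, div_mul_cancel₀ _ hx]
        have : (s : F) * e.symm b + (e.symm a' - s * e.symm a) = e.symm b' := by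
          have h8 : (s : F) * e.symm b + (e.symm a' - s * e.symm a) =
              e.symm a' - s * (e.symm a - e.symm b) := by ring
          rw [h8, h7]
          ring
        rw [this, Equiv.apply_symm_apply]
  rw [h1, Finset.card_singleton, one_mul, Finset.card_image_of_injective _ hinj, Finset.card_univ,
    Fintype.card_prod, Fintype.card_units, mul_comm]

end

section
variable (p : ℕ) [Fact p.Prime]

/-- the number of a residue class -/
def resEquiv : ZMod p ≃ Fin p := (ZMod.finEquiv p).symm.toEquiv

lemma resEquiv_val (z : ZMod p) : ((resEquiv p z : Fin p) : ℕ) = z.val := by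
  have hp := (Fact.out : p.Prime).pos
  obtain ⟨m, rfl⟩ : ∃ m, p = m + 1 := ⟨p - 1, by omega⟩
  rfl

/-- multiplication by `s` modulo `p` -/
def mulPerm (s : (ZMod p)ˣ) : Equiv.Perm (Fin p) :=
  (resEquiv p).symm.trans ((Units.mulLeft s).trans (resEquiv p))

lemma mulPerm_apply (s : (ZMod p)ˣ) (x : Fin p) : mulPerm p s x = resEquiv p ((s : ZMod p) * (resEquiv p).symm x) := rfl

lemma mulPerm_inj : Function.Injective (mulPerm p) := by
  intro s t h
  have h1 := congrArg (fun σ : Equiv.Perm (Fin p) => σ (resEquiv p 1)) h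
  simp only [mulPerm_apply, Equiv.symm_apply_apply, mul_one] at h1
  exact Units.ext ((resEquiv p).injective h1)

theorem mul_spread : Spread (Finset.univ.image (mulPerm p)) := by
  classical
  intro x y hxy k hk hkp
  have hp := (Fact.out : p.Prime)
  have hp2 := hp.two_le
  obtain ⟨a, ha⟩ : ∃ a : ZMod p, a = (resEquiv p).symm x := ⟨_, rfl⟩
  obtain ⟨b, hb⟩ : ∃ b : ZMod p, b = (resEquiv p).symm y := ⟨_, rfl⟩
  have hab : a - b ≠ 0 := by
    rw [ha, hb]
    exact sub_ne_zero.2 fun h => hxy ((resEquiv p).symm.injective h)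
  have h1 : ∑ σ ∈ Finset.univ.image (mulPerm p), (k - Nat.dist (σ x) (σ y)) =
      ∑ s : (ZMod p)ˣ, (k - Nat.dist ((s : ZMod p) * a).val ((s : ZMod p) * b).val) := by
    rw [Finset.sum_image (fun s _ t _ h => mulPerm_inj p h)]
    refine Finset.sum_congr rfl fun s _ => ?_
    rw [mulPerm_apply, mulPerm_apply, resEquiv_val, resEquiv_val, ← ha, ← hb]
  have h2 : ∀ s : (ZMod p)ˣ, k - Nat.dist ((s : ZMod p) * a).val ((s : ZMod p) * b).val ≤
      (k - ((s : ZMod p) * (a - b)).val) + (k - (p - ((s : ZMod p) * (a - b)).val)) := by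
    intro s
    have e1 : (s : ZMod p) * a = (s : ZMod p) * (a - b) + (s : ZMod p) * b := by ring
    have h3 : ((s : ZMod p) * a).val = (((s : ZMod p) * (a - b)).val + ((s : ZMod p) * b).val) % p := by
      rw [e1, ZMod.val_add]
    have h4 := ZMod.val_lt ((s : ZMod p) * (a - b))
    have h5 := ZMod.val_lt ((s : ZMod p) * b)
    have h6 : ((s : ZMod p) * a).val = ((s : ZMod p) * (a - b)).val + ((s : ZMod p) * b).val ∨
        ((s : ZMod p) * a).val + p = ((s : ZMod p) * (a - b)).val + ((s : ZMod p) * b).val := by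
      rcases lt_or_ge (((s : ZMod p) * (a - b)).val + ((s : ZMod p) * b).val) p with h7 | h7
      · left
        rw [h3, Nat.mod_eq_of_lt h7]
      · right
        rw [h3, Nat.mod_eq_sub_mod h7, Nat.mod_eq_of_lt (by omega)]
        omega
    unfold Nat.dist
    omega
  obtain ⟨g, hg⟩ : ∃ g : (ZMod p)ˣ → ℕ, g = fun s : (ZMod p)ˣ => ((s : ZMod p) * (a - b)).val := ⟨_, rfl⟩
  have hginj : Function.Injective g := by
    intro s t h
    rw [hg] at h
    have h7 := ZMod.val_injective p h
    exact Units.ext (mul_right_cancel₀ hab h7)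
  have hgIco : Finset.univ.image g ⊆ Finset.Ico 1 p := by
    intro r hr
    obtain ⟨s, -, rfl⟩ := Finset.mem_image.1 hr
    rw [Finset.mem_Ico, hg]
    refine ⟨?_, ZMod.val_lt _⟩
    rw [Nat.one_le_iff_ne_zero, Ne, ZMod.val_eq_zero]
    exact mul_ne_zero s.ne_zero hab
  have h3 : ∀ G : ℕ → ℕ, ∑ s : (ZMod p)ˣ, G (g s) ≤ ∑ r ∈ Finset.Ico 1 p, G r := by
    intro G
    rw [← Finset.sum_image (fun s _ t _ h => hginj h)]
    exact Finset.sum_le_sum_of_subset hgIco
  have h4 : ∑ s : (ZMod p)ˣ, (k - Nat.dist ((s : ZMod p) * a).val ((s : ZMod p) * b).val) ≤ k * (k - 1) := by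
    calc ∑ s : (ZMod p)ˣ, (k - Nat.dist ((s : ZMod p) * a).val ((s : ZMod p) * b).val) ≤
          ∑ s : (ZMod p)ˣ, ((k - g s) + (k - (p - g s))) := by
          rw [hg]
          exact Finset.sum_le_sum fun s _ => h2 s
      _ ≤ ∑ r ∈ Finset.Ico 1 p, ((k - r) + (k - (p - r))) := h3 (fun r => (k - r) + (k - (p - r)))
      _ = ∑ r ∈ Finset.Ico 1 p, (k - r) + ∑ r ∈ Finset.Ico 1 p, (k - (p - r)) := Finset.sum_add_distrib
      _ = ∑ r ∈ Finset.Ico 1 p, (k - r) + ∑ r ∈ Finset.Ico 1 p, (k - r) := by
          congr 1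
          apply Finset.sum_nbij' (fun r => p - r) (fun r => p - r)
          · intro r hr
            rw [Finset.mem_Ico] at hr ⊢
            omega
          · intro r hr
            rw [Finset.mem_Ico] at hr ⊢
            omega
          · intro r hr
            rw [Finset.mem_Ico] at hr
            omega
          · intro r hr
            rw [Finset.mem_Ico] at hr
            omega
          · intro r _
            rfl
      _ ≤ k * (k - 1) := by
          have := sum_tri_Ico k p
          omega
  have hcard : (Finset.univ.image (mulPerm p)).card = p - 1 := by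
    rw [Finset.card_image_of_injective _ (mulPerm_inj p), Finset.card_univ, ZMod.card_units]
  rw [h1, hcard]
  calc p * ∑ s : (ZMod p)ˣ, (k - Nat.dist ((s : ZMod p) * a).val ((s : ZMod p) * b).val) ≤ p * (k * (k - 1)) :=
        Nat.mul_le_mul_left _ h4
    _ = k * (p * (k - 1)) := by ring
    _ ≤ k * (k * (p - 1)) := by
        apply Nat.mul_le_mul_left
        obtain ⟨m, rfl⟩ := Nat.exists_eq_add_of_le' (by omega : 1 ≤ p)
        obtain ⟨k', rfl⟩ := Nat.exists_eq_add_of_le' hk
        simp only [Nat.add_sub_cancel]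
        nlinarith
    _ = k ^ 2 * (p - 1) := by ring

/-- **Multiples modulo a prime.** -/
theorem dilates (X : List (ZMod p)) (δ : ℝ) (hδ : 0 < δ) (hδ1 : δ ≤ 1) :
    ∃ B : Finset (ZMod p)ˣ, (B.card : ℝ) ≤ δ * (p - 1) ∧ ∀ s ∉ B, ∀ (ρ : Equiv.Perm (ZMod p)) (T : Tr),
      keys T = List.range p →
        (costSplay T (X.map fun x => (ρ x).val) : ℝ) ≤
          20000 / δ * (optAny (List.range p) (X.map fun x => ((s : ZMod p) * x).val) + p) +
            8 * (p * Real.logb 2 p) ∧
        ((∀ x : ZMod p, x ∈ X) → (costSplay T (X.map fun x => (ρ x).val) : ℝ) ≤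
          100000 / δ * optAny (List.range p) (X.map fun x => ((s : ZMod p) * x).val)) := by
  classical
  have hp := (Fact.out : p.Prime)
  obtain ⟨B, -, hBc, hB⟩ := spread_main (Finset.univ.image (mulPerm p)) (mul_spread p) (X.map (resEquiv p)) δ hδ hδ1
  have hcard : (Finset.univ.image (mulPerm p)).card = p - 1 := by
    rw [Finset.card_image_of_injective _ (mulPerm_inj p), Finset.card_univ, ZMod.card_units]
  rw [hcard, Nat.cast_sub hp.one_le, Nat.cast_one] at hBc
  refine ⟨Finset.univ.filter (fun s => mulPerm p s ∈ B), ?_, fun s hs ρ T hT => ?_⟩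
  · refine le_trans ?_ hBc
    rw [Nat.cast_le]
    apply Finset.card_le_card_of_injOn (mulPerm p)
    · intro s hs
      exact (Finset.mem_filter.1 (Finset.mem_coe.1 hs)).2
    · intro s _ t _ h
      exact mulPerm_inj p h
  · have hsB : mulPerm p s ∉ B := fun h => hs (Finset.mem_filter.2 ⟨Finset.mem_univ _, h⟩)
    have h := hB (mulPerm p s) (Finset.mem_image_of_mem _ (Finset.mem_univ _)) hsB
      ((resEquiv p).symm.trans (ρ.trans (resEquiv p))) T hT
    have e1 : rel (mulPerm p s) (X.map (resEquiv p)) = X.map fun x => ((s : ZMod p) * x).val := by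
      unfold rel
      rw [List.map_map]
      apply List.map_congr_left
      intro x _
      simp only [Function.comp_apply, mulPerm_apply, Equiv.symm_apply_apply, resEquiv_val]
    have e2 : rel ((resEquiv p).symm.trans (ρ.trans (resEquiv p))) (X.map (resEquiv p)) =
        X.map fun x => (ρ x).val := by
      unfold rel
      rw [List.map_map]
      apply List.map_congr_left
      intro x _
      simp only [Function.comp_apply, Equiv.trans_apply, Equiv.symm_apply_apply, resEquiv_val]
    rw [e1, e2] at h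
    refine ⟨h.1, fun hall => h.2 fun x => ?_⟩
    rw [List.mem_map]
    exact ⟨(resEquiv p).symm x, hall _, Equiv.apply_symm_apply _ _⟩

end

end Pool.Agent.Zk77.Spl
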