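import Pool.Agent.Zk77.Spl.Alt

/-!
# Windows with a given number of distinct keys, and the working set numbers (helper77)
-/

set_option autoImplicit false

namespace Pool.Agent.Zk77.Spl

open Finset Pool.Agent.N724.TW

section
variable {κ : Type} [DecidableEq κ]

lemma card_take_succ (X : List κ) (j : ℕ) : (X.take (j + 1)).toFinset.card ≤ (X.take j).toFinset.card + 1 := by
  rcases lt_or_ge j X.length with h | h
  · rw [List.take_succ_eq_append_getElem h, List.toFinset_append]
    refine (Finset.card_union_le _ _).trans ?_
    simp
  · rw [List.take_of_length_le h, List.take_of_length_le (by omega)]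
    omega

/-- windows with `q` distinct keys -/
theorem windows (q : ℕ) (hq : 1 ≤ q) : ∀ (L : ℕ) (X : List κ), X.length ≤ L → ∃ (Ws : List (List κ)) (rest : List κ),
    X = Ws.flatten ++ rest ∧ (∀ W ∈ Ws, W.toFinset.card = q) ∧ rest.toFinset.card < q := by
  intro L
  induction L with
  | zero =>
    intro X hX
    have : X = [] := List.length_eq_zero_iff.1 (by omega)
    subst this
    exact ⟨[], [], rfl, by simp, by simp; omega⟩
  | succ L ih =>
    intro X hX
    by_cases h : X.toFinset.card < q
    · exact ⟨[], X, by simp, by simp, h⟩
    · push Not at h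
      have hex : ∃ j, q ≤ (X.take j).toFinset.card := ⟨X.length, by rw [List.take_length]; exact h⟩
      obtain ⟨j, hj⟩ : ∃ j, j = Nat.find hex := ⟨_, rfl⟩
      have hj1 : q ≤ (X.take j).toFinset.card := by
        rw [hj]
        exact Nat.find_spec hex
      have hj0 : j ≠ 0 := by
        rintro rfl
        simp at hj1
        omega
      have hj2 : (X.take (j - 1)).toFinset.card < q := by
        have := Nat.find_min hex (m := j - 1) (by omega)
        omega
      have hj3 : (X.take j).toFinset.card ≤ (X.take (j - 1)).toFinset.card + 1 := by
        have := card_take_succ X (j - 1)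
        rwa [Nat.sub_add_cancel (by omega)] at this
      obtain ⟨Ws, rest, e1, e2, e3⟩ := ih (X.drop j) (by
        rw [List.length_drop]
        have : X.length ≠ 0 := by
          intro h0
          have : X = [] := List.length_eq_zero_iff.1 h0
          subst this
          simp at h
          omega
        omega)
      refine ⟨X.take j :: Ws, rest, ?_, ?_, e3⟩
      · rw [List.flatten_cons, List.append_assoc, ← e1, List.take_append_drop]
      · intro W hW
        rcases List.mem_cons.1 hW with rfl | hW
        · omega
        · exact e2 W hW

end

variable {n : ℕ}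

/-- number of the requests with working set number at least `q` -/
def cws (q : ℕ) : List (Fin n) → List (Fin n) → ℕ
  | _, [] => 0
  | h, x :: X => (if q ≤ wsF h x then 1 else 0) + cws q (x :: h) X

lemma cws_append (q : ℕ) (X Y : List (Fin n)) : ∀ h : List (Fin n),
    cws q h (X ++ Y) = cws q h X + cws q (X.reverse ++ h) Y := by
  induction X with
  | nil => intro h; simp [cws]
  | cons x X ih =>
    intro h
    have e : (x :: X).reverse ++ h = X.reverse ++ (x :: h) := by simp
    rw [e, List.cons_append, cws, cws, ih, add_assoc]

lemma takeWhile_append_mem (x : Fin n) (h : List (Fin n)) : ∀ L : List (Fin n), x ∈ L →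
    (L ++ h).takeWhile (fun y => decide (y ≠ x)) = L.takeWhile (fun y => decide (y ≠ x))
  | [], hx => by simp at hx
  | a :: L, hx => by
    by_cases hax : a = x
    · subst hax
      simp
    · have hx' : x ∈ L := by
        rcases List.mem_cons.1 hx with h1 | h1
        · exact absurd h1.symm hax
        · exact h1
      have := takeWhile_append_mem x h L hx'
      rw [List.cons_append, List.takeWhile_cons, List.takeWhile_cons, this]

lemma wsF_lt_of_mem (q : ℕ) (P h : List (Fin n)) (x : Fin n) (hx : x ∈ P) (hP : P.toFinset.card ≤ q) :
    wsF (P.reverse ++ h) x < q := by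
  unfold wsF
  rw [takeWhile_append_mem x h P.reverse (List.mem_reverse.2 hx)]
  have h1 : (P.reverse.takeWhile (fun y => decide (y ≠ x))).toFinset ⊆ P.toFinset.erase x := by
    intro y hy
    rw [List.mem_toFinset] at hy
    rw [Finset.mem_erase, List.mem_toFinset]
    have h2 := List.mem_takeWhile_imp hy
    have h3 := (List.takeWhile_prefix (fun y => decide (y ≠ x)) (l := P.reverse)).subset hy
    refine ⟨?_, List.mem_reverse.1 h3⟩
    simpa using h2
  have h2 := Finset.card_le_card h1
  rw [Finset.card_erase_of_mem (List.mem_toFinset.2 hx)] at h2
  have h3 : 0 < P.toFinset.card := Finset.card_pos.2 ⟨x, List.mem_toFinset.2 hx⟩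
  omega

lemma cws_window (q : ℕ) (h : List (Fin n)) : ∀ W P : List (Fin n), (P ++ W).toFinset.card ≤ q →
    cws q (P.reverse ++ h) W + P.toFinset.card ≤ (P ++ W).toFinset.card
  | [], P, _ => by simp [cws]
  | x :: W, P, hc => by
    have e1 : P ++ x :: W = (P ++ [x]) ++ W := by simp
    have e2 : x :: (P.reverse ++ h) = (P ++ [x]).reverse ++ h := by simp
    have ih := cws_window q h W (P ++ [x]) (by rw [← e1]; exact hc)
    rw [← e1, ← e2] at ih
    rw [cws]
    have hP : P.toFinset.card ≤ q := by
      refine le_trans (Finset.card_le_card ?_) hc
      intro y hy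
      rw [List.mem_toFinset] at hy ⊢
      exact List.mem_append_left _ hy
    by_cases hx : x ∈ P
    · have h1 := wsF_lt_of_mem q P h x hx hP
      rw [if_neg (by omega)]
      have h2 : (P ++ [x]).toFinset = P.toFinset := by
        ext y
        simp only [List.mem_toFinset, List.mem_append, List.mem_singleton]
        constructor
        · rintro (h | rfl)
          · exact h
          · exact hx
        · exact Or.inl
      rw [h2] at ih
      omega
    · have h2 : (P ++ [x]).toFinset.card = P.toFinset.card + 1 := by
        have : (P ++ [x]).toFinset = insert x P.toFinset := by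
          ext y
          simp only [List.mem_toFinset, List.mem_append, List.mem_singleton, Finset.mem_insert]
          tauto
        rw [this, Finset.card_insert_of_notMem (fun hh => hx (List.mem_toFinset.1 hh))]
      rw [h2] at ih
      split_ifs <;> omega

/-- the number of the requests with large working set number and the number of the windows -/
theorem cws_le (q : ℕ) : ∀ (Ws : List (List (Fin n))) (rest h : List (Fin n)),
    (∀ W ∈ Ws, W.toFinset.card = q) → rest.toFinset.card < q →
    cws q h (Ws.flatten ++ rest) ≤ q * (Ws.length + 1)
  | [], rest, h, _, hr => by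
    have := cws_window q h rest [] (by simpa using hr.le)
    simp at this
    simp
    omega
  | W :: Ws, rest, h, hW, hr => by
    have h1 := cws_window q h W [] (by simpa using (hW W (by simp)).le)
    simp only [List.reverse_nil, List.nil_append, List.toFinset_nil, Finset.card_empty, add_zero] at h1
    have h2 := cws_le q Ws rest (W.reverse ++ h) (fun W' hW' => hW W' (List.mem_cons_of_mem _ hW')) hr
    have h3 := hW W (by simp)
    rw [List.flatten_cons, List.append_assoc, cws_append, List.length_cons]
    calc cws q h W + cws q (W.reverse ++ h) (Ws.flatten ++ rest) ≤ q + q * (Ws.length + 1) := by omega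
      _ = q * (Ws.length + 1 + 1) := by ring

/-- the number of the windows and the number of the keys -/
theorem keys_le (q : ℕ) : ∀ (Ws : List (List (Fin n))) (rest : List (Fin n)),
    (∀ W ∈ Ws, W.toFinset.card = q) → rest.toFinset.card < q →
    (Ws.flatten ++ rest).toFinset.card ≤ q * (Ws.length + 1)
  | [], rest, _, hr => by
    simp
    omega
  | W :: Ws, rest, hW, hr => by
    have h2 := keys_le q Ws rest (fun W' hW' => hW W' (List.mem_cons_of_mem _ hW')) hr
    have h3 := hW W (by simp)
    rw [List.flatten_cons, List.append_assoc, List.toFinset_append, List.length_cons]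
    calc (W.toFinset ∪ (Ws.flatten ++ rest).toFinset).card ≤ W.toFinset.card + (Ws.flatten ++ rest).toFinset.card :=
          Finset.card_union_le _ _
      _ ≤ q + q * (Ws.length + 1) := by omega
      _ = q * (Ws.length + 1 + 1) := by ring

/-- the sum of the logarithms of the working set numbers and the levels -/
theorem wsum_le (E : Finset ℕ) (q : ℕ → ℕ) (L₀ : ℝ)
    (hE : ∀ t : ℕ, t + 1 ≤ n → Real.logb 2 (t + 1) ≤ (E.filter (fun e => q e ≤ t)).card + L₀) :
    ∀ X h : List (Fin n), wsumF h X ≤ ∑ e ∈ E, (cws (q e) h X : ℝ) + L₀ * X.length
  | [], h => by simp [wsumF, cws]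
  | x :: X, h => by
    have ih := wsum_le E q L₀ hE X (x :: h)
    have h1 := hE (wsF h x) (by
      unfold wsF
      have h2 := Finset.card_lt_univ_of_notMem (s := (h.takeWhile fun y => decide (y ≠ x)).toFinset) (x := x) (by
        rw [List.mem_toFinset]
        intro hx
        have := List.mem_takeWhile_imp hx
        simp at this)
      rw [Fintype.card_fin] at h2
      exact h2)
    simp only [wsumF, cws, List.length_cons]
    have h3 : ∑ e ∈ E, (((if q e ≤ wsF h x then 1 else 0) + cws (q e) (x :: h) X : ℕ) : ℝ) =
        (E.filter (fun e => q e ≤ wsF h x)).card + ∑ e ∈ E, (cws (q e) (x :: h) X : ℝ) := by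
      push_cast
      rw [Finset.sum_add_distrib, Finset.sum_boole]
    rw [h3]
    push_cast
    linarith

end Pool.Agent.Zk77.Spl
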