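import Pool.Agent.Zk77.Spl.Core
import Pool.Agent.Zk77.Spl.Win

/-!
# The number of changes for most members of a family (helper77)
-/

set_option autoImplicit false

namespace Pool.Agent.Zk77.Spl

open Finset Pool.Agent.N724.TW

section
variable {κ Ω : Type} [DecidableEq κ]

/-- the number of changes is at least the sum over the levels -/
lemma alt_ge {D : ℕ} (E : Finset ℕ) (hE : ∀ e ∈ E, e < D) (f : κ → ℕ) (X : List κ) (Ws : ℕ → List (List κ))
    (rest : ℕ → List κ) (hX : ∀ e ∈ E, X = (Ws e).flatten ++ rest e) :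
    ∑ e ∈ E, psum (both (2 ^ (D - 1 - e)) (2 ^ e) f) (Ws e) ≤ alt D (X.map f) := by
  have hsub : E ⊆ Finset.range D := fun e he => Finset.mem_range.2 (hE e he)
  unfold alt
  refine le_trans (Finset.sum_le_sum fun e he => ?_) (Finset.sum_le_sum_of_subset hsub)
  have h := psum_le (2 ^ (D - 1 - e)) (2 ^ e) Nat.one_le_two_pow f (Ws e) (rest e) (fun _ => false)
  rw [← hX e he] at h
  exact h

/-- the sum over the pairs of windows of a function of the windows -/
def esum (em : List κ → ℝ) : List (List κ) → ℝ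
  | W :: W' :: Ws => em W + em W' + esum em Ws
  | _ => 0

lemma psum_ge (g : List κ → List κ → ℕ) (v : ℝ) (em : List κ → ℝ) : ∀ Ws : List (List κ),
    (∀ W ∈ Ws, ∀ W' ∈ Ws, v - em W - em W' ≤ g W W') →
    ((Ws.length / 2 : ℕ) : ℝ) * v - esum em Ws ≤ (psum g Ws : ℝ)
  | [], _ => by simp [psum, esum]
  | [W], _ => by simp [psum, esum]
  | W :: W' :: Ws, h => by
    have ih := psum_ge g v em Ws (fun V hV V' hV' => h V (by simp [hV]) V' (by simp [hV']))
    have h1 := h W (by simp) W' (by simp)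
    have e : (W :: W' :: Ws).length / 2 = Ws.length / 2 + 1 := by
      simp only [List.length_cons]
      omega
    rw [e, psum, esum]
    push_cast
    linarith

lemma esum_sum (S : Finset Ω) (em : Ω → List κ → ℝ) (β : ℝ) : ∀ Ws : List (List κ),
    (∀ W ∈ Ws, ∑ ω ∈ S, em ω W ≤ β) → ∑ ω ∈ S, esum (em ω) Ws ≤ ((Ws.length / 2 : ℕ) : ℝ) * (2 * β)
  | [], _ => by simp [esum]
  | [W], _ => by simp [esum]
  | W :: W' :: Ws, h => by
    have ih := esum_sum S em β Ws (fun V hV => h V (by simp [hV]))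
    have h1 := h W (by simp)
    have h2 := h W' (by simp)
    have e : (W :: W' :: Ws).length / 2 = Ws.length / 2 + 1 := by
      simp only [List.length_cons]
      omega
    rw [e]
    simp only [esum]
    rw [Finset.sum_add_distrib, Finset.sum_add_distrib]
    push_cast
    linarith

/-- the average number of the half intervals which are missed by a set -/
lemma emp_avg {k n : ℕ} (hk : 1 ≤ k) (hn : 1 ≤ n) (S : Finset Ω) (f : Ω → κ → ℕ) (c : Ω → ℕ) (Q : Finset κ)
    (hQ : Q.Nonempty) (hf : ∀ ω ∈ S, ∀ x, c ω ≤ f ω x ∧ f ω x < c ω + n)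
    (hcoll : ∀ x y, x ≠ y → (n : ℝ) * (S.filter (fun ω => f ω x / k = f ω y / k)).card ≤ k * S.card) :
    ∑ ω ∈ S, (emp k (c ω) n (f ω) Q : ℝ) ≤ S.card * ((n : ℝ) ^ 2 / (Q.card * k ^ 2) + 2) := by
  have hk0 : (0 : ℝ) < k := by exact_mod_cast hk
  have hn0 : (0 : ℝ) < n := by exact_mod_cast hn
  have hq0 : (0 : ℝ) < Q.card := by exact_mod_cast hQ.card_pos
  have h1 : ∑ ω ∈ S, (emp k (c ω) n (f ω) Q : ℝ) ≤
      ∑ ω ∈ S, ((Q.card + coll k (f ω) Q) * ((n : ℝ) / (Q.card * k)) ^ 2 - n / k + 2) :=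
    Finset.sum_le_sum fun ω hω => emp_le hk hn hQ (fun x _ => hf ω hω x)
  have h2 : ∑ ω ∈ S, (coll k (f ω) Q : ℝ) ≤ (Q.card : ℝ) ^ 2 * (k * S.card / n) := by
    have e1 : ∑ ω ∈ S, coll k (f ω) Q = ∑ z ∈ Q.offDiag, (S.filter (fun ω => f ω z.1 / k = f ω z.2 / k)).card := by
      unfold coll
      simp only [Finset.card_filter]
      exact Finset.sum_comm
    have e2 : ∑ ω ∈ S, (coll k (f ω) Q : ℝ) =
        ∑ z ∈ Q.offDiag, ((S.filter (fun ω => f ω z.1 / k = f ω z.2 / k)).card : ℝ) := by exact_mod_cast e1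
    rw [e2]
    calc ∑ z ∈ Q.offDiag, ((S.filter (fun ω => f ω z.1 / k = f ω z.2 / k)).card : ℝ) ≤
          ∑ _z ∈ Q.offDiag, (k * S.card / n : ℝ) := by
          refine Finset.sum_le_sum fun z hz => ?_
          rw [Finset.mem_offDiag] at hz
          rw [le_div_iff₀ hn0, mul_comm]
          exact hcoll z.1 z.2 hz.2.2
      _ = (Q.offDiag.card : ℝ) * (k * S.card / n) := by rw [Finset.sum_const, nsmul_eq_mul]
      _ ≤ (Q.card : ℝ) ^ 2 * (k * S.card / n) := by
          apply mul_le_mul_of_nonneg_right _ (by positivity)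
          rw [Finset.offDiag_card]
          have : Q.card * Q.card - Q.card ≤ Q.card ^ 2 := by
            rw [sq]
            exact Nat.sub_le _ _
          exact_mod_cast this
  have h3 : ∑ ω ∈ S, ((Q.card + coll k (f ω) Q) * ((n : ℝ) / (Q.card * k)) ^ 2 - n / k + 2) =
      (S.card * Q.card + ∑ ω ∈ S, (coll k (f ω) Q : ℝ)) * ((n : ℝ) / (Q.card * k)) ^ 2 + S.card * (2 - n / k) := by
    have e : ∀ ω, ((Q.card : ℝ) + coll k (f ω) Q) * ((n : ℝ) / (Q.card * k)) ^ 2 - n / k + 2 =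
        ((Q.card : ℝ) + coll k (f ω) Q) * ((n : ℝ) / (Q.card * k)) ^ 2 + (2 - n / k) := fun ω => by ring
    rw [Finset.sum_congr rfl fun ω _ => e ω, Finset.sum_add_distrib, ← Finset.sum_mul, Finset.sum_add_distrib,
      Finset.sum_const, Finset.sum_const, nsmul_eq_mul, nsmul_eq_mul]
  rw [h3] at h1
  refine h1.trans ?_
  have h4 : ((S.card : ℝ) * Q.card + ∑ ω ∈ S, (coll k (f ω) Q : ℝ)) * ((n : ℝ) / (Q.card * k)) ^ 2 ≤
      ((S.card : ℝ) * Q.card + (Q.card : ℝ) ^ 2 * (k * S.card / n)) * ((n : ℝ) / (Q.card * k)) ^ 2 :=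
    mul_le_mul_of_nonneg_right (by linarith) (sq_nonneg _)
  have h5 : ((S.card : ℝ) * Q.card + (Q.card : ℝ) ^ 2 * (k * S.card / n)) * ((n : ℝ) / (Q.card * k)) ^ 2 +
      S.card * (2 - n / k) = S.card * ((n : ℝ) ^ 2 / (Q.card * k ^ 2) + 2) := by
    field_simp
    ring
  linarith

/-- **The number of changes for most members of a family.** -/
theorem core (S : Finset Ω) (f : Ω → κ → ℕ) (c : Ω → ℕ) (n D : ℕ) (hn : 1 ≤ n)
    (hf : ∀ ω ∈ S, ∀ x, c ω ≤ f ω x ∧ f ω x < c ω + n) (hD : ∀ ω ∈ S, c ω + n ≤ 2 ^ D)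
    (δ u : ℝ) (hδ : 0 < δ) (hδ1 : δ ≤ 1) (hu : 48 ≤ δ * u) (E : Finset ℕ) (hE : ∀ e ∈ E, 96 * (2 : ℝ) ^ e ≤ δ * n)
    (hcoll : ∀ e ∈ E, ∀ x y, x ≠ y →
      (n : ℝ) * (S.filter (fun ω => f ω x / 2 ^ e = f ω y / 2 ^ e)).card ≤ 2 ^ e * S.card)
    (q : ℕ → ℕ) (hq : ∀ e ∈ E, u * n / 2 ^ e ≤ q e) (X : List κ) (Ws : ℕ → List (List κ)) (rest : ℕ → List κ)
    (hX : ∀ e ∈ E, X = (Ws e).flatten ++ rest e) (hW : ∀ e ∈ E, ∀ W ∈ Ws e, W.toFinset.card = q e) :
    ((S.filter (fun ω => (alt D (X.map (f ω)) : ℝ) <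
      (1 / 2) * ∑ e ∈ E, (((Ws e).length / 2 : ℕ) : ℝ) * (n / (4 * 2 ^ e)))).card : ℝ) ≤ δ * S.card := by
  have hn0 : (0 : ℝ) < n := by exact_mod_cast hn
  have hu0 : 0 < u := by
    by_contra h
    push Not at h
    nlinarith
  obtain ⟨P, hP⟩ : ∃ P : ℕ → ℕ, P = fun e => (Ws e).length / 2 := ⟨_, rfl⟩
  obtain ⟨A, hA⟩ : ∃ A : ℝ, A = ∑ e ∈ E, (((Ws e).length / 2 : ℕ) : ℝ) * (n / (4 * 2 ^ e)) := ⟨_, rfl⟩
  rw [← hA]
  have hA0 : 0 ≤ A := by
    rw [hA]
    exact Finset.sum_nonneg fun e _ => by positivity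
  obtain ⟨em, hem⟩ : ∃ em : Ω → ℕ → List κ → ℝ, em = fun ω e W => (emp (2 ^ e) (c ω) n (f ω) W.toFinset : ℝ) :=
    ⟨_, rfl⟩
  have hem0 : ∀ ω e W, 0 ≤ em ω e W := fun ω e W => by rw [hem]; positivity
  have hnk : ∀ e ∈ E, 96 / δ ≤ (n : ℝ) / 2 ^ e := by
    intro e he
    rw [div_le_div_iff₀ hδ (by positivity)]
    have := hE e he
    linarith
  have hesum0 : ∀ ω e Ws, 0 ≤ esum (em ω e) Ws := by
    intro ω e
    have : ∀ L (Ws : List (List κ)), Ws.length ≤ L → 0 ≤ esum (em ω e) Ws := by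
      intro L
      induction L with
      | zero =>
        intro Ws h
        have : Ws = [] := List.length_eq_zero_iff.1 (by omega)
        subst this
        simp [esum]
      | succ L ih =>
        intro Ws h
        match Ws, h with
        | [], _ => simp [esum]
        | [W], _ => simp [esum]
        | W :: W' :: Ws, h =>
          simp only [esum]
          have h1 := ih Ws (by simp at h; omega)
          have h2 := hem0 ω e W
          have h3 := hem0 ω e W'
          linarith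
    exact fun Ws => this _ Ws le_rfl
  -- the lower bound
  have hlow : ∀ ω ∈ S, A - ∑ e ∈ E, esum (em ω e) (Ws e) ≤ (alt D (X.map (f ω)) : ℝ) := by
    intro ω hω
    have hED : ∀ e ∈ E, e < D := by
      intro e he
      have h1 := hE e he
      have h2 : (n : ℝ) ≤ 2 ^ D := by
        have := hD ω hω
        have h3 : n ≤ 2 ^ D := by omega
        exact_mod_cast h3
      have h4 : (2 : ℝ) ^ e < 2 ^ D := by
        have : (0 : ℝ) < 2 ^ e := by positivity
        nlinarith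
      exact (pow_lt_pow_iff_right₀ (by norm_num)).1 h4
    have h1 := alt_ge E hED (f ω) X Ws rest hX
    have h2 : A - ∑ e ∈ E, esum (em ω e) (Ws e) ≤
        ∑ e ∈ E, (psum (both (2 ^ (D - 1 - e)) (2 ^ e) (f ω)) (Ws e) : ℝ) := by
      rw [hA, ← Finset.sum_sub_distrib]
      refine Finset.sum_le_sum fun e he => ?_
      have hN : c ω + n ≤ 2 ^ (D - 1 - e) * (2 * 2 ^ e) := by
        have e1 : 2 ^ (D - 1 - e) * (2 * 2 ^ e) = 2 ^ D := by
          rw [← pow_succ', ← pow_add]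
          congr 1
          have := hED e he
          omega
        rw [e1]
        exact hD ω hω
      have h3 := psum_ge (both (2 ^ (D - 1 - e)) (2 ^ e) (f ω)) ((n : ℝ) / (2 * ((2 ^ e : ℕ) : ℝ)) - 2) (em ω e) (Ws e)
        (fun W _ W' _ => by
          have := both_ge (κ := κ) (k := 2 ^ e) (c := c ω) (n := n) (N := 2 ^ (D - 1 - e)) Nat.one_le_two_pow hn hN
            (f ω) W W'
          rw [hem]
          exact this)
      have h4 : (((Ws e).length / 2 : ℕ) : ℝ) * (n / (4 * 2 ^ e)) ≤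
          (((Ws e).length / 2 : ℕ) : ℝ) * ((n : ℝ) / (2 * ((2 ^ e : ℕ) : ℝ)) - 2) := by
        apply mul_le_mul_of_nonneg_left _ (Nat.cast_nonneg _)
        have h5 := hnk e he
        have h6 : (96 : ℝ) ≤ 96 / δ := by
          rw [le_div_iff₀ hδ]
          nlinarith
        have e1 : (n : ℝ) / (4 * 2 ^ e) = (n / 2 ^ e) / 4 := by
          rw [div_div]
          congr 1
          ring
        have e2 : (n : ℝ) / (2 * ((2 ^ e : ℕ) : ℝ)) = (n / 2 ^ e) / 2 := by
          rw [div_div]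
          congr 1
          push_cast
          ring
        rw [e1, e2]
        linarith
      linarith
    have h3 : (∑ e ∈ E, (psum (both (2 ^ (D - 1 - e)) (2 ^ e) (f ω)) (Ws e) : ℝ)) ≤ (alt D (X.map (f ω)) : ℝ) := by
      exact_mod_cast h1
    linarith
  -- the average
  have havg : ∑ ω ∈ S, ∑ e ∈ E, esum (em ω e) (Ws e) ≤ S.card * (δ * A / 3) := by
    rw [Finset.sum_comm]
    have h1 : ∀ e ∈ E, ∑ ω ∈ S, esum (em ω e) (Ws e) ≤
        (((Ws e).length / 2 : ℕ) : ℝ) * (2 * (S.card * ((n : ℝ) / 2 ^ e * (δ / 24)))) := by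
      intro e he
      refine esum_sum S (fun ω => em ω e) _ (Ws e) (fun W hW' => ?_)
      have hk0 : (0 : ℝ) < 2 ^ e := by positivity
      have hqe := hW e he W hW'
      have hq1 := hq e he
      have hqpos : (0 : ℝ) < q e := lt_of_lt_of_le (by positivity) hq1
      have hne : W.toFinset.Nonempty := by
        rw [← Finset.card_pos, hqe]
        exact_mod_cast hqpos
      have h2 := emp_avg (k := 2 ^ e) (n := n) Nat.one_le_two_pow hn S f c W.toFinset hne hf (fun x y hxy => by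
        have := hcoll e he x y hxy
        push_cast
        exact this)
      rw [hem]
      refine h2.trans ?_
      apply mul_le_mul_of_nonneg_left _ (Nat.cast_nonneg _)
      rw [hqe]
      push_cast
      have h3 : (n : ℝ) ^ 2 / (q e * (2 ^ e) ^ 2) ≤ n / 2 ^ e * (δ / 48) := by
        rw [div_le_iff₀ (by positivity)]
        have h4 : u * n / 2 ^ e * ((n : ℝ) / 2 ^ e * (δ / 48) * (2 ^ e) ^ 2) ≤
            q e * ((n : ℝ) / 2 ^ e * (δ / 48) * (2 ^ e) ^ 2) := mul_le_mul_of_nonneg_right hq1 (by positivity)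
        have h5 : u * n / 2 ^ e * ((n : ℝ) / 2 ^ e * (δ / 48) * (2 ^ e) ^ 2) = (δ * u) / 48 * n ^ 2 := by
          field_simp
        have h6 : (1 : ℝ) * n ^ 2 ≤ (δ * u) / 48 * n ^ 2 :=
          mul_le_mul_of_nonneg_right (by linarith) (sq_nonneg _)
        have e3 : (n : ℝ) / 2 ^ e * (δ / 48) * (q e * (2 ^ e) ^ 2) =
            q e * ((n : ℝ) / 2 ^ e * (δ / 48) * (2 ^ e) ^ 2) := by ring
        rw [e3]
        linarith
      have h4 : (2 : ℝ) ≤ n / 2 ^ e * (δ / 48) := by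
        have h5 := hnk e he
        have h6 : 96 / δ * (δ / 48) = 2 := by
          field_simp
          norm_num
        have h7 : 96 / δ * (δ / 48) ≤ n / 2 ^ e * (δ / 48) := mul_le_mul_of_nonneg_right h5 (by positivity)
        linarith
      have e4 : (n : ℝ) / 2 ^ e * (δ / 24) = n / 2 ^ e * (δ / 48) + n / 2 ^ e * (δ / 48) := by ring
      rw [e4]
      linarith
    refine (Finset.sum_le_sum h1).trans (le_of_eq ?_)
    rw [hA, Finset.mul_sum, Finset.sum_div, Finset.mul_sum]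
    refine Finset.sum_congr rfl fun e _ => ?_
    have hk0 : (0 : ℝ) < 2 ^ e := by positivity
    field_simp
    ring
  rcases hA0.eq_or_lt with h0 | h0
  · rw [← h0]
    have : S.filter (fun ω => (alt D (X.map (f ω)) : ℝ) < 1 / 2 * 0) = ∅ := by
      rw [Finset.filter_eq_empty_iff]
      intro ω _ h
      have : (0 : ℝ) ≤ (alt D (X.map (f ω)) : ℝ) := Nat.cast_nonneg _
      linarith
    rw [this]
    simp
    positivity
  · have h1 : ((S.filter (fun ω => (alt D (X.map (f ω)) : ℝ) < 1 / 2 * A)).card : ℝ) * (A / 2) ≤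
        ∑ ω ∈ S, ∑ e ∈ E, esum (em ω e) (Ws e) := by
      rw [← nsmul_eq_mul, ← Finset.sum_const]
      refine (Finset.sum_le_sum fun ω hω => ?_).trans (Finset.sum_le_sum_of_subset_of_nonneg
        (Finset.filter_subset _ _) (fun ω _ _ => Finset.sum_nonneg fun e _ => hesum0 ω e _))
      rw [Finset.mem_filter] at hω
      have := hlow ω hω.1
      linarith [hω.2]
    have h2 := h1.trans havg
    have h3 : ((S.filter (fun ω => (alt D (X.map (f ω)) : ℝ) < 1 / 2 * A)).card : ℝ) * (A / 2) ≤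
        (δ * S.card) * (A / 2) := by
      refine h2.trans ?_
      have : (0 : ℝ) ≤ S.card := Nat.cast_nonneg _
      have h4 : 0 ≤ (S.card : ℝ) * (δ * A) := by positivity
      nlinarith
    exact le_of_mul_le_mul_right h3 (by positivity)

end

end Pool.Agent.Zk77.Spl
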