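import Pool.Agent.Zk77.Spl.Win

/-!
# The numbers of the blocks met by windows on different scales (helper77)
-/

set_option autoImplicit false

namespace Pool.Agent.Zk77.Spl

open Finset Pool.Agent.H581R2.Splay Pool.Agent.TH49.Spl Pool.Agent.N724.TW

/-- the change count of a node controls the windows which hit both halves -/
def Lh (l m : ℕ) (X : List ℕ) : Prop := ∃ x ∈ X, l ≤ x ∧ x < m

lemma stt_false_left (l m r : ℕ) : ∀ (X : List ℕ) (b : Bool), Lh l m X → ¬ Lh m r X → stt l m r b X = true
  | [], _, h, _ => by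
    obtain ⟨x, hx, _⟩ := h
    simp at hx
  | x :: X, b, h, h' => by
    have h'' : ¬ Lh m r X := fun ⟨y, hy, hy2⟩ => h' ⟨y, List.mem_cons_of_mem _ hy, hy2⟩
    have hx : ¬ (m ≤ x ∧ x < r) := fun hx => h' ⟨x, by simp, hx⟩
    simp only [stt]
    rw [if_neg hx]
    by_cases h1 : l ≤ x ∧ x < m
    · rw [if_pos h1]
      by_cases h2 : Lh l m X
      · exact stt_false_left l m r X true h2 h''
      · clear h h'
        induction X with
        | nil => rfl
        | cons z X ih =>
          have hz : ¬ (m ≤ z ∧ z < r) := fun hz => h'' ⟨z, by simp, hz⟩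
          have hz2 : ¬ (l ≤ z ∧ z < m) := fun hz => h2 ⟨z, by simp, hz⟩
          simp only [stt]
          rw [if_neg hz, if_neg hz2]
          exact ih (fun ⟨y, hy, hy2⟩ => h'' ⟨y, List.mem_cons_of_mem _ hy, hy2⟩)
            (fun ⟨y, hy, hy2⟩ => h2 ⟨y, List.mem_cons_of_mem _ hy, hy2⟩)
    · rw [if_neg h1]
      apply stt_false_left l m r X b _ h''
      obtain ⟨y, hy, hy2⟩ := h
      rcases List.mem_cons.1 hy with rfl | hy
      · exact absurd hy2 h1
      · exact ⟨y, hy, hy2⟩

/-- the potential of a state -/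
def pot (b : Bool) : ℕ := if b then 0 else 1

open Classical in
lemma win_both (l m r : ℕ) : ∀ (W : List ℕ),
    ((if Lh m r W then 1 else 0) + pot (stt l m r true W) ≤ 2 * cnt l m r true W) ∧
    ((if Lh l m W ∧ Lh m r W then 1 else 0) + pot (stt l m r false W) ≤ 2 * cnt l m r false W + 1)
  | [] => by
    constructor
    · have : ¬ Lh m r [] := by rintro ⟨x, hx, _⟩; simp at hx
      rw [if_neg this]
      simp [stt, cnt, pot]
    · have : ¬ (Lh l m [] ∧ Lh m r []) := by rintro ⟨⟨x, hx, _⟩, _⟩; simp at hx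
      rw [if_neg this]
      simp [stt, cnt, pot]
  | x :: W => by
    obtain ⟨ih1, ih2⟩ := win_both l m r W
    have hL : Lh l m (x :: W) ↔ (l ≤ x ∧ x < m) ∨ Lh l m W := by
      unfold Lh
      simp
    have hR : Lh m r (x :: W) ↔ (m ≤ x ∧ x < r) ∨ Lh m r W := by
      unfold Lh
      simp
    simp only [stt, cnt]
    by_cases h1 : l ≤ x ∧ x < m
    · have h2 : ¬ (m ≤ x ∧ x < r) := by omega
      rw [if_pos h1, if_pos h1, if_pos h1, if_pos h1]
      have hR' : Lh m r (x :: W) ↔ Lh m r W := by
        rw [hR]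
        simp [h2]
      have hL' : Lh l m (x :: W) := hL.2 (Or.inl h1)
      constructor
      · simp only [hR']
        exact ih1
      · have : (Lh l m (x :: W) ∧ Lh m r (x :: W)) ↔ Lh m r W := by rw [hR']; simp [hL']
        simp only [this]
        omega
    · rw [if_neg h1, if_neg h1, if_neg h1, if_neg h1]
      have hL' : Lh l m (x :: W) ↔ Lh l m W := by
        rw [hL]
        simp [h1]
      by_cases h2 : m ≤ x ∧ x < r
      · rw [if_pos h2, if_pos h2, if_pos h2, if_pos h2]
        have hR' : Lh m r (x :: W) := hR.2 (Or.inl h2)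
        constructor
        · rw [if_pos hR']
          simp only [if_true]
          omega
        · have : (Lh l m (x :: W) ∧ Lh m r (x :: W)) ↔ Lh l m W := by rw [hL']; simp [hR']
          simp only [this]
          by_cases h3 : Lh l m W
          · rw [if_pos h3]
            by_cases h4 : Lh m r W
            · rw [if_pos ⟨h3, h4⟩] at ih2
              simp only [Bool.false_eq_true, if_false]
              omega
            · rw [stt_false_left l m r W false h3 h4]
              simp only [pot, if_true, Bool.false_eq_true, if_false]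
              omega
          · rw [if_neg h3]
            rw [if_neg (fun h => h3 h.1)] at ih2
            simp only [Bool.false_eq_true, if_false]
            omega
      · rw [if_neg h2, if_neg h2, if_neg h2, if_neg h2]
        have hR' : Lh m r (x :: W) ↔ Lh m r W := by
          rw [hR]
          simp [h2]
        constructor
        · simp only [hR']
          exact ih1
        · simp only [hL', hR']
          exact ih2

open Classical in
lemma win_pot (l m r : ℕ) (W : List ℕ) (b : Bool) :
    (if Lh l m W ∧ Lh m r W then 1 else 0) + pot (stt l m r b W) ≤ 2 * cnt l m r b W + pot b := by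
  obtain ⟨h1, h2⟩ := win_both l m r W
  cases b
  · have : pot false = 1 := rfl
    rw [this]
    exact h2
  · have : pot true = 0 := rfl
    rw [this, add_zero]
    refine le_trans (Nat.add_le_add_right ?_ _) h1
    split_ifs with h3 h4 h4
    · exact le_rfl
    · exact absurd h3.2 h4
    · exact Nat.zero_le _
    · exact le_rfl

open Classical in
/-- the number of the windows which hit both halves -/
lemma wins_both (l m r : ℕ) : ∀ (Ws : List (List ℕ)) (rest : List ℕ) (b : Bool),
    (Ws.map (fun W => if Lh l m W ∧ Lh m r W then 1 else 0)).sum ≤ 2 * cnt l m r b (Ws.flatten ++ rest) + pot b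
  | [], rest, b => by simp
  | W :: Ws, rest, b => by
    have h1 := win_pot l m r W b
    have h2 := wins_both l m r Ws rest (stt l m r b W)
    rw [List.map_cons, List.sum_cons, List.flatten_cons, List.append_assoc, cnt_append]
    omega

section
variable {κ : Type} [DecidableEq κ]

/-- the number of the blocks of length `k` hit by `W` -/
def hit (k : ℕ) (f : κ → ℕ) (W : List κ) : ℕ := (W.toFinset.image (fun x => f x / k)).card

/-- number of the nodes both halves of which are hit by `W` -/
noncomputable def bothIn (N k : ℕ) (f : κ → ℕ) (W : List κ) : ℕ :=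
  open Classical in ((Finset.range N).filter (fun i => (∃ x ∈ W, f x / k = 2 * i) ∧ ∃ x ∈ W, f x / k = 2 * i + 1)).card

lemma hit_le (N k : ℕ) (hk : 1 ≤ k) (f : κ → ℕ) (W : List κ) (hW : ∀ x ∈ W, f x < N * (2 * k)) :
    hit k f W ≤ hit (2 * k) f W + bothIn N k f W := by
  classical
  obtain ⟨A, hA⟩ : ∃ A : Finset ℕ, A = W.toFinset.image (fun x => f x / k) := ⟨_, rfl⟩
  have hmem : ∀ j, j ∈ A ↔ ∃ x ∈ W, f x / k = j := by
    intro j
    rw [hA, Finset.mem_image]
    simp only [List.mem_toFinset]
  have h1 : A.card = (A.filter (fun j => j % 2 = 0)).card + (A.filter (fun j => ¬ j % 2 = 0)).card :=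
    (Finset.card_filter_add_card_filter_not _).symm
  have h2 : ((A.filter (fun j => j % 2 = 0)).image (fun j => j / 2)).card = (A.filter (fun j => j % 2 = 0)).card := by
    apply Finset.card_image_of_injOn
    intro a ha b hb h
    rw [Finset.mem_coe, Finset.mem_filter] at ha hb
    simp only at h
    omega
  have h3 : ((A.filter (fun j => ¬ j % 2 = 0)).image (fun j => j / 2)).card =
      (A.filter (fun j => ¬ j % 2 = 0)).card := by
    apply Finset.card_image_of_injOn
    intro a ha b hb h
    rw [Finset.mem_coe, Finset.mem_filter] at ha hb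
    simp only at h
    omega
  have h4 := Finset.card_union_add_card_inter ((A.filter (fun j => j % 2 = 0)).image (fun j => j / 2))
    ((A.filter (fun j => ¬ j % 2 = 0)).image (fun j => j / 2))
  have h5 : (((A.filter (fun j => j % 2 = 0)).image (fun j => j / 2)) ∪
      ((A.filter (fun j => ¬ j % 2 = 0)).image (fun j => j / 2))).card ≤ hit (2 * k) f W := by
    unfold hit
    apply Finset.card_le_card
    intro i hi
    rw [Finset.mem_union, Finset.mem_image, Finset.mem_image] at hi
    rw [Finset.mem_image]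
    have : ∃ j ∈ A, j / 2 = i := by
      rcases hi with ⟨j, hj, hj2⟩ | ⟨j, hj, hj2⟩
      · exact ⟨j, (Finset.mem_filter.1 hj).1, hj2⟩
      · exact ⟨j, (Finset.mem_filter.1 hj).1, hj2⟩
    obtain ⟨j, hj, hj2⟩ := this
    obtain ⟨x, hx, hxj⟩ := (hmem j).1 hj
    refine ⟨x, List.mem_toFinset.2 hx, ?_⟩
    rw [mul_comm, ← Nat.div_div_eq_div_mul, hxj, hj2]
  have h6 : (((A.filter (fun j => j % 2 = 0)).image (fun j => j / 2)) ∩
      ((A.filter (fun j => ¬ j % 2 = 0)).image (fun j => j / 2))).card ≤ bothIn N k f W := by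
    unfold bothIn
    apply Finset.card_le_card
    intro i hi
    rw [Finset.mem_inter, Finset.mem_image, Finset.mem_image] at hi
    obtain ⟨⟨j, hj, hj2⟩, ⟨j', hj', hj2'⟩⟩ := hi
    rw [Finset.mem_filter] at hj hj'
    obtain ⟨x, hx, hxj⟩ := (hmem j).1 hj.1
    obtain ⟨x', hx', hxj'⟩ := (hmem j').1 hj'.1
    have e1 : j = 2 * i := by omega
    have e2 : j' = 2 * i + 1 := by omega
    rw [Finset.mem_filter, Finset.mem_range]
    refine ⟨?_, ⟨x, hx, by rw [hxj, e1]⟩, ⟨x', hx', by rw [hxj', e2]⟩⟩
    have h7 := hW x hx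
    have h8 : k * (2 * i) ≤ f x := by
      rw [← e1, ← hxj]
      exact Nat.mul_div_le _ _
    by_contra hcon
    push Not at hcon
    have h9 : N * (2 * k) ≤ i * (2 * k) := Nat.mul_le_mul_right _ hcon
    have e3 : i * (2 * k) = k * (2 * i) := by ring
    omega
  have h7 : hit k f W = A.card := by rw [hA]; rfl
  omega

/-- the number of changes on a level -/
def lsm (N k : ℕ) (Y : List ℕ) : ℕ :=
  ∑ i ∈ Finset.range N, cnt (i * (2 * k)) (i * (2 * k) + k) ((i + 1) * (2 * k)) false Y

lemma alt_eq_lsm (D : ℕ) (Y : List ℕ) : alt D Y = ∑ e ∈ Finset.range D, lsm (2 ^ (D - 1 - e)) (2 ^ e) Y := rfl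

lemma lists_sum_comm {α β : Type} (s : Finset α) (L : List β) (g : α → β → ℕ) :
    ∑ i ∈ s, (L.map (g i)).sum = (L.map (fun W => ∑ i ∈ s, g i W)).sum := by
  induction L with
  | nil => simp
  | cons W L ih =>
    simp only [List.map_cons, List.sum_cons]
    rw [Finset.sum_add_distrib, ih]

lemma both_sum (N k : ℕ) (hk : 1 ≤ k) (f : κ → ℕ) (Ws : List (List κ)) (rest : List κ) :
    (Ws.map (bothIn N k f)).sum ≤ 2 * lsm N k ((Ws.flatten ++ rest).map f) + N := by
  classical
  have h1 : ∀ W : List κ, bothIn N k f W = ∑ i ∈ Finset.range N,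
      (if Lh (i * (2 * k)) (i * (2 * k) + k) (W.map f) ∧ Lh (i * (2 * k) + k) ((i + 1) * (2 * k)) (W.map f)
        then 1 else 0) := by
    intro W
    unfold bothIn
    rw [Finset.card_filter]
    refine Finset.sum_congr rfl fun i _ => ?_
    have e2 : (∃ x ∈ W, f x / k = 2 * i) ↔ Lh (i * (2 * k)) (i * (2 * k) + k) (W.map f) := by
      unfold Lh
      constructor
      · rintro ⟨x, hx, hxi⟩
        refine ⟨f x, List.mem_map_of_mem hx, ?_⟩
        have h1 := Nat.div_add_mod (f x) k
        have h2 := Nat.mod_lt (f x) hk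
        rw [hxi] at h1
        have e1 : i * (2 * k) = k * (2 * i) := by ring
        omega
      · rintro ⟨y, hy, hy2⟩
        obtain ⟨x, hx, rfl⟩ := List.mem_map.1 hy
        refine ⟨x, hx, ?_⟩
        have e1 : i * (2 * k) = (2 * i) * k := by ring
        rw [e1] at hy2
        have h3 := (Nat.le_div_iff_mul_le hk).2 hy2.1
        have h4 : f x / k < 2 * i + 1 := by
          rw [Nat.div_lt_iff_lt_mul hk]
          have : (2 * i + 1) * k = 2 * i * k + k := by ring
          omega
        omega
    have e3 : (∃ x ∈ W, f x / k = 2 * i + 1) ↔ Lh (i * (2 * k) + k) ((i + 1) * (2 * k)) (W.map f) := by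
      unfold Lh
      constructor
      · rintro ⟨x, hx, hxi⟩
        refine ⟨f x, List.mem_map_of_mem hx, ?_⟩
        have h1 := Nat.div_add_mod (f x) k
        have h2 := Nat.mod_lt (f x) hk
        rw [hxi] at h1
        have e1 : i * (2 * k) = k * (2 * i) := by ring
        have e3 : k * (2 * i + 1) = k * (2 * i) + k := by ring
        have e4 : (i + 1) * (2 * k) = k * (2 * i) + 2 * k := by ring
        omega
      · rintro ⟨y, hy, hy2⟩
        obtain ⟨x, hx, rfl⟩ := List.mem_map.1 hy
        refine ⟨x, hx, ?_⟩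
        have e1 : i * (2 * k) + k = (2 * i + 1) * k := by ring
        have e4 : (i + 1) * (2 * k) = (2 * i + 2) * k := by ring
        rw [e1, e4] at hy2
        have h3 := (Nat.le_div_iff_mul_le hk).2 hy2.1
        have h4 : f x / k < 2 * i + 2 := (Nat.div_lt_iff_lt_mul hk).2 hy2.2
        omega
    simp only [e2, e3]
  have h2 : (Ws.map (bothIn N k f)).sum = ∑ i ∈ Finset.range N, (Ws.map (fun W =>
      (if Lh (i * (2 * k)) (i * (2 * k) + k) (W.map f) ∧ Lh (i * (2 * k) + k) ((i + 1) * (2 * k)) (W.map f)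
        then 1 else 0))).sum := by
    rw [lists_sum_comm]
    congr 1
    apply List.map_congr_left
    intro W _
    exact h1 W
  rw [h2]
  have h3 : ∀ i ∈ Finset.range N, (Ws.map (fun W =>
      (if Lh (i * (2 * k)) (i * (2 * k) + k) (W.map f) ∧ Lh (i * (2 * k) + k) ((i + 1) * (2 * k)) (W.map f)
        then 1 else 0))).sum ≤
      2 * cnt (i * (2 * k)) (i * (2 * k) + k) ((i + 1) * (2 * k)) false ((Ws.flatten ++ rest).map f) + 1 := by
    intro i _
    have h4 := wins_both (i * (2 * k)) (i * (2 * k) + k) ((i + 1) * (2 * k)) (Ws.map (fun W => W.map f))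
      (rest.map f) false
    have e1 : ((Ws.flatten ++ rest).map f) = ((Ws.map (fun W => W.map f)).flatten ++ rest.map f) := by
      rw [List.map_append, List.map_flatten]
    rw [e1]
    rw [List.map_map] at h4
    exact h4
  refine (Finset.sum_le_sum h3).trans ?_
  rw [Finset.sum_add_distrib, ← Finset.mul_sum, Finset.sum_const, Finset.card_range]
  unfold lsm
  simp

/-- total number of the blocks hit -/
def hits (k : ℕ) (f : κ → ℕ) (Ws : List (List κ)) : ℕ := (Ws.map (hit k f)).sum

/-- **one step** -/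
lemma hits_step {D e : ℕ} (he : e < D) (f : κ → ℕ) (Ws : List (List κ)) (rest : List κ)
    (hf : ∀ x, f x < 2 ^ D) :
    hits (2 ^ e) f Ws ≤ hits (2 ^ (e + 1)) f Ws +
      (2 * lsm (2 ^ (D - 1 - e)) (2 ^ e) ((Ws.flatten ++ rest).map f) + 2 ^ (D - 1 - e)) := by
  have h1 : hits (2 ^ e) f Ws ≤ hits (2 ^ (e + 1)) f Ws + (Ws.map (bothIn (2 ^ (D - 1 - e)) (2 ^ e) f)).sum := by
    unfold hits
    rw [← List.sum_map_add]
    apply List.sum_le_sum
    intro W _
    have h2 := hit_le (2 ^ (D - 1 - e)) (2 ^ e) Nat.one_le_two_pow f W (fun x _ => by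
      have e1 : 2 ^ (D - 1 - e) * (2 * 2 ^ e) = 2 ^ D := by
        rw [← pow_succ', ← pow_add]
        congr 1
        omega
      rw [e1]
      exact hf x)
    rw [← pow_succ'] at h2
    exact h2
  have h2 := both_sum (2 ^ (D - 1 - e)) (2 ^ e) Nat.one_le_two_pow f Ws rest
  omega

/-- **`J` steps** -/
lemma hits_steps {D : ℕ} (f : κ → ℕ) (Ws : List (List κ)) (rest : List κ) (hf : ∀ x, f x < 2 ^ D) (e : ℕ) :
    ∀ J, e + J ≤ D → hits (2 ^ e) f Ws ≤ hits (2 ^ (e + J)) f Ws + ∑ i ∈ Finset.range J,
      (2 * lsm (2 ^ (D - 1 - (e + i))) (2 ^ (e + i)) ((Ws.flatten ++ rest).map f) + 2 ^ (D - 1 - (e + i)))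
  | 0, _ => by simp
  | J + 1, h => by
    have h1 := hits_steps f Ws rest hf e J (by omega)
    have h2 := hits_step (by omega : e + J < D) f Ws rest hf
    rw [Finset.sum_range_succ]
    have e1 : e + (J + 1) = e + J + 1 := by ring
    rw [e1]
    omega

lemma hit_le_blocks {D e : ℕ} (he : e ≤ D) (f : κ → ℕ) (W : List κ) (hf : ∀ x, f x < 2 ^ D) :
    hit (2 ^ e) f W ≤ 2 ^ (D - e) := by
  unfold hit
  rw [← Finset.card_range (2 ^ (D - e))]
  apply Finset.card_le_card
  intro j hj
  obtain ⟨x, -, rfl⟩ := Finset.mem_image.1 hj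
  rw [Finset.mem_range, Nat.div_lt_iff_lt_mul (by positivity), ← pow_add, Nat.sub_add_cancel he]
  exact hf x

lemma hits_le_blocks {D e : ℕ} (he : e ≤ D) (f : κ → ℕ) (Ws : List (List κ)) (hf : ∀ x, f x < 2 ^ D) :
    hits (2 ^ e) f Ws ≤ Ws.length * 2 ^ (D - e) := by
  unfold hits
  induction Ws with
  | nil => simp
  | cons W Ws ih =>
    rw [List.map_cons, List.sum_cons, List.length_cons]
    have := hit_le_blocks he f W hf
    nlinarith

lemma hit_le_length (k : ℕ) (f : κ → ℕ) (W : List κ) : hit k f W ≤ W.length :=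
  Finset.card_image_le.trans (List.toFinset_card_le W)

lemma hits_le_length (k : ℕ) (f : κ → ℕ) (Ws : List (List κ)) : hits k f Ws ≤ Ws.flatten.length := by
  unfold hits
  induction Ws with
  | nil => simp
  | cons W Ws ih =>
    rw [List.map_cons, List.sum_cons, List.flatten_cons, List.length_append]
    have := hit_le_length k f W
    omega

/-- **The interleave bound is at least the loss of blocks between the scales.** For every level `m` of a set `E` of
levels a division of `X` into windows and a scale `e m`, different levels having different scales. -/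
theorem alt_lower {D J : ℕ} (f : κ → ℕ) (X : List κ) (hf : ∀ x, f x < 2 ^ D) (E : Finset ℕ) (sc : ℕ → ℕ)
    (hsc : ∀ m ∈ E, sc m + J ≤ D) (hinj : ∀ m ∈ E, ∀ m' ∈ E, sc m = sc m' → m = m') (Ws : ℕ → List (List κ))
    (rest : ℕ → List κ) (hX : ∀ m ∈ E, X = (Ws m).flatten ++ rest m) :
    ∑ m ∈ E, hits (2 ^ sc m) f (Ws m) ≤ ∑ m ∈ E, hits (2 ^ (sc m + J)) f (Ws m) + J * (2 * alt D (X.map f) + 2 ^ D) := by
  classical
  obtain ⟨B, hB⟩ : ∃ B : ℕ → ℕ, B = fun e => 2 * lsm (2 ^ (D - 1 - e)) (2 ^ e) (X.map f) + 2 ^ (D - 1 - e) := ⟨_, rfl⟩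
  have h1 : ∀ m ∈ E, hits (2 ^ sc m) f (Ws m) ≤ hits (2 ^ (sc m + J)) f (Ws m) + ∑ i ∈ Finset.range J, B (sc m + i) := by
    intro m hm
    have h := hits_steps f (Ws m) (rest m) hf (sc m) J (hsc m hm)
    rw [← hX m hm] at h
    rw [hB]
    exact h
  refine (Finset.sum_le_sum h1).trans ?_
  rw [Finset.sum_add_distrib]
  apply Nat.add_le_add_left
  rw [Finset.sum_comm]
  have h2 : ∀ i ∈ Finset.range J, ∑ m ∈ E, B (sc m + i) ≤ ∑ e ∈ Finset.range D, B e := by
    intro i hi
    rw [Finset.mem_range] at hi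
    rw [← Finset.sum_image (f := B) (g := fun m => sc m + i) (s := E) (by
      intro m hm m' hm' h
      simp only at h
      exact hinj m hm m' hm' (by omega))]
    apply Finset.sum_le_sum_of_subset
    intro e he
    obtain ⟨m, hm, rfl⟩ := Finset.mem_image.1 he
    rw [Finset.mem_range]
    have := hsc m hm
    omega
  refine (Finset.sum_le_sum h2).trans ?_
  rw [Finset.sum_const, Finset.card_range, smul_eq_mul]
  apply Nat.mul_le_mul_left
  rw [hB, Finset.sum_add_distrib, ← Finset.mul_sum, ← alt_eq_lsm]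
  apply Nat.add_le_add_left
  have h3 : ∑ e ∈ Finset.range D, 2 ^ (D - 1 - e) = ∑ e ∈ Finset.range D, 2 ^ e := Finset.sum_range_reflect (fun e => 2 ^ e) D
  rw [h3]
  have h4 := Nat.geomSum_eq (le_refl 2) D
  rw [h4]
  simp

end

end Pool.Agent.Zk77.Spl
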