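import Pool.Agent.Zk77.Spl.Fam

/-!
# Levels, shifts (helper77)
-/

set_option autoImplicit false

namespace Pool.Agent.Zk77.Spl

open Finset Pool.Agent.N724.TW

/-- the levels used -/
noncomputable def levs (n : ℕ) (δ : ℝ) : Finset ℕ :=
  open Classical in (Finset.range n).filter (fun e => 96 * (2 : ℝ) ^ e ≤ δ * n)

/-- the number of distinct keys in a window -/
noncomputable def qq (n : ℕ) (u : ℝ) (e : ℕ) : ℕ := ⌈u * n / 2 ^ e⌉₊

lemma mem_levs {n : ℕ} {δ : ℝ} {e : ℕ} : e ∈ levs n δ ↔ e < n ∧ 96 * (2 : ℝ) ^ e ≤ δ * n := by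
  unfold levs
  rw [Finset.mem_filter, Finset.mem_range]

/-- many integers in an interval of logarithms -/
lemma card_Icc_log {a b : ℝ} (ha : 1 ≤ a) (hb : 1 ≤ b) :
    Real.logb 2 b - Real.logb 2 a - 1 ≤ ((Finset.Icc ⌈Real.logb 2 a⌉₊ ⌊Real.logb 2 b⌋₊).card : ℝ) := by
  have h1 : 0 ≤ Real.logb 2 a := Real.logb_nonneg (by norm_num) ha
  have h2 : 0 ≤ Real.logb 2 b := Real.logb_nonneg (by norm_num) hb
  have h3 := Nat.ceil_lt_add_one h1
  have h4 := Nat.lt_floor_add_one (Real.logb 2 b)
  rw [Nat.card_Icc]
  have h5 : ((⌊Real.logb 2 b⌋₊ : ℝ)) + 1 - (⌈Real.logb 2 a⌉₊ : ℝ) ≤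
      ((⌊Real.logb 2 b⌋₊ + 1 - ⌈Real.logb 2 a⌉₊ : ℕ) : ℝ) := by
    rcases le_total ⌈Real.logb 2 a⌉₊ (⌊Real.logb 2 b⌋₊ + 1) with h | h
    · rw [Nat.cast_sub h]
      push_cast
      exact le_rfl
    · have h6 : ((⌊Real.logb 2 b⌋₊ : ℝ)) + 1 ≤ (⌈Real.logb 2 a⌉₊ : ℝ) := by exact_mod_cast h
      have h7 : (0 : ℝ) ≤ ((⌊Real.logb 2 b⌋₊ + 1 - ⌈Real.logb 2 a⌉₊ : ℕ) : ℝ) := Nat.cast_nonneg _
      linarith
  linarith

lemma mem_Icc_log {a b : ℝ} (ha : 0 < a) (hb : 0 < b) {e : ℕ}
    (he : e ∈ Finset.Icc ⌈Real.logb 2 a⌉₊ ⌊Real.logb 2 b⌋₊) (hb1 : 1 ≤ b) : a ≤ 2 ^ e ∧ (2 : ℝ) ^ e ≤ b := by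
  rw [Finset.mem_Icc] at he
  constructor
  · have h1 : Real.logb 2 a ≤ e := (Nat.le_ceil _).trans (by exact_mod_cast he.1)
    rw [Real.logb_le_iff_le_rpow (by norm_num) ha, Real.rpow_natCast] at h1
    exact h1
  · have h1 : (e : ℝ) ≤ Real.logb 2 b :=
      le_trans (by exact_mod_cast he.2) (Nat.floor_le (Real.logb_nonneg (by norm_num) hb1))
    rw [Real.le_logb_iff_rpow_le (by norm_num) hb, Real.rpow_natCast] at h1
    exact h1

/-- the levels with `2 ^ e ≥ a` -/
lemma levs_ge {n : ℕ} {δ a : ℝ} (hδ : 0 < δ) (hδ1 : δ ≤ 1) (hn : 1 ≤ n) (ha : 1 ≤ a) :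
    open Classical in Real.logb 2 (δ * n / 96) - Real.logb 2 a - 1 ≤
      (((levs n δ).filter (fun e => a ≤ (2 : ℝ) ^ e)).card : ℝ) := by
  classical
  have hn0 : (1 : ℝ) ≤ n := by exact_mod_cast hn
  rcases lt_or_ge (δ * n / 96) 1 with h | h
  · have h1 : Real.logb 2 (δ * n / 96) ≤ 0 := Real.logb_nonpos (by norm_num) (by positivity) h.le
    have h2 : 0 ≤ Real.logb 2 a := Real.logb_nonneg (by norm_num) ha
    have h3 : (0 : ℝ) ≤ (((levs n δ).filter (fun e => a ≤ (2 : ℝ) ^ e)).card : ℝ) := Nat.cast_nonneg _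
    linarith
  · refine (card_Icc_log ha h).trans ?_
    rw [Nat.cast_le]
    apply Finset.card_le_card
    intro e he
    obtain ⟨h1, h2⟩ := mem_Icc_log (by linarith) (by linarith) he h
    rw [Finset.mem_filter, mem_levs]
    have h3 : 96 * (2 : ℝ) ^ e ≤ δ * n := by
      rw [le_div_iff₀ (by norm_num)] at h2
      linarith
    refine ⟨⟨?_, h3⟩, h1⟩
    have h4 : (2 : ℝ) ^ e < n := by
      have : (0 : ℝ) < 2 ^ e := by positivity
      nlinarith
    have h5 : 2 ^ e < n := by exact_mod_cast h4
    exact lt_trans Nat.lt_two_pow_self h5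

/-- the logarithm of the working set number and the levels -/
lemma log_levs {n : ℕ} {δ u : ℝ} (hδ : 0 < δ) (hδ1 : δ ≤ 1) (hu : 1 ≤ u) (t : ℕ) (ht : t + 1 ≤ n) :
    Real.logb 2 (t + 1) ≤ ((levs n δ).filter (fun e => qq n u e ≤ t)).card + (Real.logb 2 (96 * u / δ) + 2) := by
  classical
  have hn0 : (1 : ℝ) ≤ n := by exact_mod_cast (by omega : 1 ≤ n)
  have hc : (0 : ℝ) ≤ (((levs n δ).filter (fun e => qq n u e ≤ t)).card : ℝ) := Nat.cast_nonneg _
  have hu1 : (1 : ℝ) ≤ 96 * u / δ := by
    rw [le_div_iff₀ hδ]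
    nlinarith
  have h0 : 0 ≤ Real.logb 2 (96 * u / δ) := Real.logb_nonneg (by norm_num) hu1
  rcases Nat.eq_zero_or_pos t with rfl | ht0
  · simp only [CharP.cast_eq_zero, zero_add, Real.logb_one]
    simp only [Nat.le_zero] at hc ⊢
    positivity
  · have ht1 : (1 : ℝ) ≤ t := by exact_mod_cast ht0
    have htn : (t : ℝ) ≤ n := by exact_mod_cast (by omega : t ≤ n)
    have ha : 1 ≤ u * n / t := by
      rw [le_div_iff₀ (by linarith)]
      nlinarith
    have h1 := levs_ge (n := n) (a := u * n / t) hδ hδ1 (by omega) ha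
    have h2 : (((levs n δ).filter (fun e => u * n / t ≤ (2 : ℝ) ^ e)).card : ℝ) ≤
        (((levs n δ).filter (fun e => qq n u e ≤ t)).card : ℝ) := by
      rw [Nat.cast_le]
      apply Finset.card_le_card
      intro e he
      rw [Finset.mem_filter] at he ⊢
      refine ⟨he.1, ?_⟩
      rw [qq, Nat.ceil_le, div_le_iff₀ (by positivity)]
      have := he.2
      rw [div_le_iff₀ (by linarith)] at this
      linarith
    have h3 : Real.logb 2 (δ * n / 96) - Real.logb 2 (u * n / t) = Real.logb 2 t - Real.logb 2 (96 * u / δ) := by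
      have e1 : Real.logb 2 (δ * n / 96) = Real.logb 2 δ + Real.logb 2 n - Real.logb 2 96 := by
        rw [Real.logb_div (by positivity) (by norm_num), Real.logb_mul (by positivity) (by positivity)]
      have e2 : Real.logb 2 (u * n / t) = Real.logb 2 u + Real.logb 2 n - Real.logb 2 t := by
        rw [Real.logb_div (by positivity) (by positivity), Real.logb_mul (by positivity) (by positivity)]
      have e3 : Real.logb 2 (96 * u / δ) = Real.logb 2 96 + Real.logb 2 u - Real.logb 2 δ := by
        rw [Real.logb_div (by positivity) (by positivity), Real.logb_mul (by norm_num) (by positivity)]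
      rw [e1, e2, e3]
      ring
    have h4 : Real.logb 2 (t + 1) ≤ Real.logb 2 t + 1 := by
      have e : Real.logb 2 t + 1 = Real.logb 2 (t * 2) := by
        rw [Real.logb_mul (by positivity) (by norm_num), Real.logb_self_eq_one (by norm_num)]
      rw [e]
      exact Real.logb_le_logb_of_le (by norm_num) (by positivity) (by linarith)
    linarith

/-- the shifts for which two positions are in the same half interval -/
theorem count_shift {k : ℕ} (hk : 1 ≤ k) (N x y : ℕ) :
    ((Finset.range (k * N)).filter (fun c => (x + c) / k = (y + c) / k)).card = N * (k - Nat.dist x y) := by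
  classical
  have key : ∀ x d : ℕ, ((Finset.range (k * N)).filter (fun c => (x + c) / k = (x + d + c) / k)).card = N * (k - d) := by
    intro x d
    obtain ⟨H, hH⟩ : ∃ H : ℕ → ℕ, H = fun z => if z / k = (z + d) / k then 1 else 0 := ⟨_, rfl⟩
    have hper : ∀ z, H (z + k) = H z := by
      intro z
      have e1 : (z + k) / k = z / k + 1 := Nat.add_div_right z hk
      have e2 : (z + k + d) / k = (z + d) / k + 1 := by
        rw [add_right_comm]
        exact Nat.add_div_right (z + d) hk
      rw [hH]
      simp only [e1, e2]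
      congr 1
      simp
    have hper2 : ∀ M z, H (z + k * M) = H z := by
      intro M
      induction M with
      | zero => intro z; simp
      | succ M ih =>
        intro z
        rw [mul_add, mul_one, ← add_assoc, hper, ih]
    have hF : ∀ x, ∑ c ∈ Finset.range k, H (x + c) = k - d := by
      intro x
      induction x with
      | zero =>
        have e1 : ∀ c ∈ Finset.range k, H (0 + c) = if c < k - d then 1 else 0 := by
          intro c hc
          rw [Finset.mem_range] at hc
          rw [hH, zero_add]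
          simp only
          rw [Nat.div_eq_of_lt hc]
          by_cases h : c + d < k
          · rw [Nat.div_eq_of_lt h, if_pos rfl, if_pos (by omega)]
          · rw [if_neg, if_neg (by omega)]
            intro h2
            have : 1 ≤ (c + d) / k := (Nat.one_le_div_iff hk).2 (by omega)
            omega
        rw [Finset.sum_congr rfl e1, ← Finset.card_filter]
        have e2 : (Finset.range k).filter (fun c => c < k - d) = Finset.range (k - d) := by
          ext c
          rw [Finset.mem_filter, Finset.mem_range, Finset.mem_range]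
          omega
        rw [e2, Finset.card_range]
      | succ x ih =>
        have e1 : ∑ c ∈ Finset.range (k + 1), H (x + c) = k - d + H x := by
          rw [Finset.sum_range_succ, ih, hper]
        have e2 : ∑ c ∈ Finset.range (k + 1), H (x + c) = ∑ c ∈ Finset.range k, H (x + 1 + c) + H x := by
          rw [Finset.sum_range_succ']
          congr 1
          refine Finset.sum_congr rfl fun c _ => ?_
          congr 1
          ring
        omega
    rw [Finset.card_filter]
    have e : ∀ c, (if (x + c) / k = (x + d + c) / k then 1 else 0) = H (x + c) := by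
      intro c
      rw [hH]
      simp only
      rw [add_right_comm]
    rw [Finset.sum_congr rfl fun c _ => e c]
    induction N with
    | zero => simp
    | succ M ih =>
      rw [mul_add, mul_one, Finset.sum_range_add, ih]
      have e3 : ∀ c ∈ Finset.range k, H (x + (k * M + c)) = H (x + c) := by
        intro c _
        have : x + (k * M + c) = x + c + k * M := by ring
        rw [this, hper2]
      rw [Finset.sum_congr rfl e3, hF x]
      ring
  rcases le_total x y with h | h
  · obtain ⟨d, rfl⟩ := Nat.exists_eq_add_of_le h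
    have e : Nat.dist x (x + d) = d := by
      unfold Nat.dist
      omega
    rw [e]
    exact key x d
  · obtain ⟨d, rfl⟩ := Nat.exists_eq_add_of_le h
    have e : Nat.dist (y + d) y = d := by
      unfold Nat.dist
      omega
    rw [e, ← key y d]
    congr 1
    apply Finset.filter_congr
    intro c _
    exact eq_comm

end Pool.Agent.Zk77.Spl
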