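import Pool.Agent.Zk77.Spl.PairEx
import Mathlib

/-!
# Powers in fields with `2 ^ D` elements (helper77)
-/

set_option autoImplicit false

namespace Pool.Agent.Zk77.Spl

open Finset Pool.Agent.H581R2.Splay Pool.Agent.TH49.Spl Pool.Agent.Y395.SP Pool.Agent.N724.TW

lemma xor_lt_of_div_eq {x y e : ℕ} (h : x / 2 ^ e = y / 2 ^ e) : x ^^^ y < 2 ^ e := by
  rw [← Nat.shiftRight_eq_div_pow, ← Nat.shiftRight_eq_div_pow] at h
  have h1 : (x ^^^ y) >>> e = 0 := by
    rw [Nat.shiftRight_xor_distrib, h, Nat.xor_self]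
  rw [Nat.shiftRight_eq_div_pow] at h1
  exact (Nat.div_eq_zero_iff_lt (by positivity)).1 h1

/-- **Powers in a field with `2 ^ D` elements, the elements written as `D`-bit numbers in any basis.** -/
theorem lfsr_ratio {F : Type} [Field F] [Fintype F] (D : ℕ) (hF : Fintype.card F = 2 ^ D) (φ : F → ℕ)
    (hinj : Function.Injective φ) (hlt : ∀ x, φ x < 2 ^ D) (hadd : ∀ x x', φ (x + x') = φ x ^^^ φ x')
    (g : Fˣ) (t : ℕ) (ht : orderOf g = t) (ht2 : 2 ≤ t) (c b : F) (hc : c ≠ 0) (M : ℕ)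
    (hM : t ≤ M) (hM2 : 2 ^ D ≤ 2 * M) {T : Tr} (hT : keys T = List.range (2 ^ D)) :
    (costSplay T ((List.range M).map fun s => φ (c * (g : F) ^ s + b)) : ℝ) ≤
      110000 * (1 + Real.logb 2 (2 ^ D / t)) *
        optAny (List.range (2 ^ D)) ((List.range M).map fun s => φ (c * (g : F) ^ s + b)) := by
  classical
  obtain ⟨y, hy⟩ : ∃ y : ℕ → ℕ, y = fun s => φ (c * (g : F) ^ s + b) := ⟨_, rfl⟩
  rw [← hy]
  have h0 : φ 0 = 0 := by
    have := hadd 0 0
    rw [add_zero, Nat.xor_self] at this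
    exact this
  have hchar : ∀ x : F, x + x = 0 := by
    intro x
    apply hinj
    rw [hadd, Nat.xor_self, h0]
  have htp : t ≤ 2 ^ D := by
    rw [← ht, ← hF]
    exact (orderOf_le_card_univ (x := g)).trans (by
      rw [Fintype.card_units]
      exact Nat.sub_le _ _)
  have ht0 : (2 : ℝ) ≤ t := by exact_mod_cast ht2
  have htp' : (t : ℝ) ≤ ((2 ^ D : ℕ) : ℝ) := by exact_mod_cast htp
  have htM : (t : ℝ) ≤ M := by exact_mod_cast hM
  obtain ⟨n, hn⟩ : ∃ n : ℕ, n = 2 ^ D := ⟨_, rfl⟩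
  have hnr : (2 : ℝ) ^ D = n := by rw [hn]; push_cast; rfl
  rw [← hn] at hT htp htp' hM2 ⊢
  rw [hnr]
  have hpc : ∀ h, 1 ≤ h → h < t / 2 → ∀ e, pc M y h (2 ^ e) ≤ (M / t + 1) * 2 ^ e := by
    intro h h1 h2 e
    have hgh : (1 : F) + (g : F) ^ h ≠ 0 := by
      intro h3
      have h4 : g ^ h = 1 := by
        apply Units.ext
        push_cast
        have h5 := hchar 1
        rw [← h5] at h3
        exact add_left_cancel h3
      have h5 := orderOf_dvd_of_pow_eq_one h4
      rw [ht] at h5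
      have := Nat.le_of_dvd (by omega) h5
      omega
    unfold pc
    have hval : ∀ s, y s ^^^ y (s + h) = φ (c * (g : F) ^ s * (1 + (g : F) ^ h)) := by
      intro s
      rw [hy]
      simp only
      rw [← hadd]
      congr 1
      have h3 := hchar b
      rw [pow_add]
      linear_combination h3
    have h3 := Finset.card_le_mul_card_image (f := fun s => y s ^^^ y (s + h))
      ((Finset.range (M - h)).filter (fun s => y s / 2 ^ e = y (s + h) / 2 ^ e)) (M / t + 1) (fun v hv => by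
        obtain ⟨s0, hs0, hs0v⟩ := Finset.mem_image.1 hv
        refine le_trans (Finset.card_le_card ?_) (fiber_le t M (by omega) (s0 % t))
        intro s hs
        rw [Finset.mem_filter, Finset.mem_filter, Finset.mem_range] at hs
        rw [Finset.mem_filter, Finset.mem_range]
        refine ⟨by omega, ?_⟩
        have h4 := hs.2
        rw [← hs0v] at h4
        rw [hval, hval] at h4
        have h5 : (g : F) ^ s = (g : F) ^ s0 := mul_left_cancel₀ hc (mul_right_cancel₀ hgh (hinj h4))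
        have h6 : g ^ s = g ^ s0 := by
          apply Units.ext
          push_cast
          exact h5
        have h7 := pow_eq_pow_iff_modEq.1 h6
        rw [ht] at h7
        exact h7)
    refine h3.trans (Nat.mul_le_mul_left _ ?_)
    have e0 := Finset.card_range (2 ^ e)
    refine le_trans (Finset.card_le_card (t := Finset.range (2 ^ e)) fun v hv => ?_) e0.le
    obtain ⟨s, hs, rfl⟩ := Finset.mem_image.1 hv
    rw [Finset.mem_range]
    exact xor_lt_of_div_eq (Finset.mem_filter.1 hs).2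
  have hC : (1 : ℝ) ≤ 2 * n / t := by
    rw [le_div_iff₀ (by linarith)]
    linarith
  have hn1 : 1 ≤ n := by omega
  have h := ratio_pairs3 (n := n) (M := M) (H := t / 2) hT hn1 hM2 (by omega) (by omega) (by omega) y
    (fun s => by rw [hy, hn]; exact hlt _) (C := 2 * n / t) hC (fun h h1 h2 e _ _ => by
      have h3 : (pc M y h (2 ^ e) : ℝ) ≤ (((M / t : ℕ) : ℝ) + 1) * 2 ^ e := by exact_mod_cast hpc h h1 h2 e
      have h4 : (((M / t : ℕ) : ℝ) + 1) * t ≤ 2 * M := by
        have h4 : (M / t + 1) * t ≤ 2 * M := by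
          have := Nat.div_mul_le_self M t
          have e : (M / t + 1) * t = M / t * t + t := by ring
          omega
        exact_mod_cast h4
      have h5 : (((M / t : ℕ) : ℝ) + 1) ≤ 2 * M / t := by
        rw [le_div_iff₀ (by linarith)]
        exact h4
      have h6 : (n : ℝ) * pc M y h (2 ^ e) ≤ n * ((((M / t : ℕ) : ℝ) + 1) * 2 ^ e) :=
        mul_le_mul_of_nonneg_left h3 (Nat.cast_nonneg _)
      have h7 : (n : ℝ) * ((((M / t : ℕ) : ℝ) + 1) * 2 ^ e) ≤ n * (2 * M / t * 2 ^ e) := by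
        apply mul_le_mul_of_nonneg_left _ (Nat.cast_nonneg _)
        exact mul_le_mul_of_nonneg_right h5 (by positivity)
      have e1 : (n : ℝ) * (2 * M / t * 2 ^ e) = 2 * n / t * M * 2 ^ e := by ring
      linarith)
  refine h.trans ?_
  apply mul_le_mul_of_nonneg_right _ (Nat.cast_nonneg _)
  have hH : (t : ℝ) ≤ 3 * ((t / 2 : ℕ) : ℝ) := by
    exact_mod_cast (by omega : t ≤ 3 * (t / 2))
  have hH0 : (0 : ℝ) < ((t / 2 : ℕ) : ℝ) := by linarith
  have hpt : (1 : ℝ) ≤ n / t := by
    rw [le_div_iff₀ (by linarith)]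
    linarith
  have hld : 0 ≤ Real.logb 2 (n / t) := Real.logb_nonneg (by norm_num) hpt
  have h3 : Real.logb 2 (2 * n / t * n / ((t / 2 : ℕ) : ℝ)) ≤ 3 + 2 * Real.logb 2 (n / t) := by
    have h4 : 2 * (n : ℝ) / t * n / ((t / 2 : ℕ) : ℝ) ≤ 6 * (n / t) ^ 2 := by
      rw [div_le_iff₀ hH0]
      have h5 : 6 * ((n : ℝ) / t) ^ 2 * ((t / 2 : ℕ) : ℝ) = 2 * n / t * n * ((3 * ((t / 2 : ℕ) : ℝ)) / t) := by
        field_simp
        ring
      rw [h5]
      have h6 : (1 : ℝ) ≤ (3 * ((t / 2 : ℕ) : ℝ)) / t := by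
        rw [le_div_iff₀ (by linarith)]
        linarith
      have h7 : (0 : ℝ) ≤ 2 * n / t * n := by positivity
      nlinarith
    have h50 : ((n : ℝ) / t) ^ 2 ≠ 0 := by
      have : (0 : ℝ) < n / t := by linarith
      positivity
    have h5 : Real.logb 2 (6 * ((n : ℝ) / t) ^ 2) = Real.logb 2 6 + 2 * Real.logb 2 (n / t) := by
      rw [Real.logb_mul (by norm_num) h50, Real.logb_pow]
      norm_num
    have h6 : Real.logb 2 6 ≤ 3 := by
      rw [Real.logb_le_iff_le_rpow (by norm_num) (by norm_num)]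
      norm_num
    have hp00 : (0 : ℝ) < n := by linarith
    have h9 := Real.logb_le_logb_of_le (by norm_num : (1 : ℝ) < 2) (by positivity) h4
    linarith
  linarith

end Pool.Agent.Zk77.Spl
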