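import Pool.Agent.Zk77.Spl.Sep

/-!
# All the relabellings of a sequence with spread working sets (helper77)
-/

set_option autoImplicit false

namespace Pool.Agent.Zk77.Spl

open Finset Pool.Agent.H581R2.Splay Pool.Agent.TH49.Spl Pool.Agent.Y395.SP Pool.Agent.N724.TW

variable {n : ℕ}

/-- **The splay cost and the numbers of the windows.** -/
theorem cost_windows_rel {T : Tr} (hT : keys T = List.range n) (X : List (Fin n)) (τ : Equiv.Perm (Fin n)) {D r : ℕ} (hD : n ≤ 2 ^ D)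
    (Ws : ℕ → List (List (Fin n))) (rest : ℕ → List (Fin n)) (hX : ∀ m, X = (Ws m).flatten ++ rest m)
    (hW : ∀ m, ∀ W ∈ Ws m, W.toFinset.card = 2 ^ m) (hr : ∀ m, (rest m).toFinset.card < 2 ^ m) :
    (costSplay T (rel τ X) : ℝ) ≤ (14 + 6 * r) * X.length +
      6 * ∑ m ∈ Finset.Icc 1 (D - r), (2 : ℝ) ^ m * (Ws m).length + 12 * 2 ^ D + 8 * (n * Real.logb 2 n) := by
  have h1 := cost_ws hT X τ
  have h2 := wsum_le (Finset.range D) (fun m => 2 ^ m) 0 (fun t ht => by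
    rw [add_zero]
    exact log_count t (ht.trans hD)) X []
  rw [zero_mul, add_zero] at h2
  have h3 : ∑ m ∈ Finset.range D, (cws (2 ^ m) [] X : ℝ) ≤ (r + 1) * X.length +
      ∑ m ∈ Finset.Icc 1 (D - r), (2 : ℝ) ^ m * (Ws m).length + 2 * 2 ^ D := by
    have h4 : Finset.range D ⊆ Finset.Icc 1 (D - r) ∪ ({0} ∪ Finset.Ico (D - r + 1) (D - r + 1 + r)) := by
      intro m hm
      rw [Finset.mem_range] at hm
      rw [Finset.mem_union, Finset.mem_union, Finset.mem_Icc, Finset.mem_singleton, Finset.mem_Ico]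
      omega
    have h5 := Finset.sum_le_sum_of_subset_of_nonneg (f := fun m => (cws (2 ^ m) [] X : ℝ)) h4
      (fun _ _ _ => Nat.cast_nonneg _)
    refine h5.trans ?_
    have hnn : ∀ m, 0 ≤ (cws (2 ^ m) [] X : ℝ) := fun m => Nat.cast_nonneg _
    have h6 : ∑ m ∈ Finset.Icc 1 (D - r) ∪ ({0} ∪ Finset.Ico (D - r + 1) (D - r + 1 + r)), (cws (2 ^ m) [] X : ℝ) ≤
        ∑ m ∈ Finset.Icc 1 (D - r), (cws (2 ^ m) [] X : ℝ) +
        ∑ m ∈ ({0} ∪ Finset.Ico (D - r + 1) (D - r + 1 + r)), (cws (2 ^ m) [] X : ℝ) := by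
      rw [← Finset.sum_union_inter]
      have : 0 ≤ ∑ m ∈ Finset.Icc 1 (D - r) ∩ ({0} ∪ Finset.Ico (D - r + 1) (D - r + 1 + r)), (cws (2 ^ m) [] X : ℝ) :=
        Finset.sum_nonneg fun m _ => hnn m
      linarith
    have h7 : ∑ m ∈ ({0} ∪ Finset.Ico (D - r + 1) (D - r + 1 + r)), (cws (2 ^ m) [] X : ℝ) ≤ (r + 1) * X.length := by
      have h8 : ∑ m ∈ ({0} ∪ Finset.Ico (D - r + 1) (D - r + 1 + r)), (cws (2 ^ m) [] X : ℝ) ≤
          ∑ _m ∈ ({0} ∪ Finset.Ico (D - r + 1) (D - r + 1 + r)), (X.length : ℝ) :=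
        Finset.sum_le_sum fun m _ => by exact_mod_cast cws_le_length (2 ^ m) X []
      refine h8.trans ?_
      rw [Finset.sum_const, nsmul_eq_mul]
      apply mul_le_mul_of_nonneg_right _ (Nat.cast_nonneg _)
      have h9 : ((({0} : Finset ℕ) ∪ Finset.Ico (D - r + 1) (D - r + 1 + r)).card) ≤ r + 1 := by
        refine (Finset.card_union_le _ _).trans ?_
        rw [Finset.card_singleton, Nat.card_Ico]
        omega
      exact_mod_cast h9
    have h8 : ∑ m ∈ Finset.Icc 1 (D - r), (cws (2 ^ m) [] X : ℝ) ≤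
        ∑ m ∈ Finset.Icc 1 (D - r), (2 : ℝ) ^ m * (Ws m).length + 2 * 2 ^ D := by
      have h9 : ∀ m ∈ Finset.Icc 1 (D - r), (cws (2 ^ m) [] X : ℝ) ≤ (2 : ℝ) ^ m * (Ws m).length + 2 ^ m := by
        intro m _
        have h10 := cws_le (2 ^ m) (Ws m) (rest m) [] (hW m) (hr m)
        rw [← hX m] at h10
        have h11 : (cws (2 ^ m) [] X : ℝ) ≤ ((2 ^ m * ((Ws m).length + 1) : ℕ) : ℝ) := by exact_mod_cast h10
        push_cast at h11
        linarith
      refine (Finset.sum_le_sum h9).trans ?_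
      rw [Finset.sum_add_distrib]
      have h10 : ∑ m ∈ Finset.Icc 1 (D - r), (2 : ℝ) ^ m ≤ 2 * 2 ^ D := by
        have h11 : ∑ m ∈ Finset.Icc 1 (D - r), 2 ^ m ≤ ∑ m ∈ Finset.range (D + 1), 2 ^ m := by
          apply Finset.sum_le_sum_of_subset
          intro m hm
          rw [Finset.mem_Icc] at hm
          rw [Finset.mem_range]
          omega
        have h12 : ∑ m ∈ Finset.range (D + 1), 2 ^ m ≤ 2 * 2 ^ D := by
          rw [Nat.geomSum_eq (le_refl 2)]
          rw [pow_succ]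
          simp
          omega
        have h13 := h11.trans h12
        exact_mod_cast h13
      linarith
    linarith
  linarith

/-- **The competitive ratio and the spread.** -/
theorem spread_ratio_rel {T : Tr} (hT : keys T = List.range n) (X : List (Fin n)) (τ : Equiv.Perm (Fin n)) {D r : ℕ} (hD : n ≤ 2 ^ D)
    (hD2 : 2 ^ D < 2 * n)
    (Ws : ℕ → List (List (Fin n))) (rest : ℕ → List (Fin n)) (hX : ∀ m, X = (Ws m).flatten ++ rest m)
    (hW : ∀ m, ∀ W ∈ Ws m, W.toFinset.card = 2 ^ m) (hr : ∀ m, (rest m).toFinset.card < 2 ^ m)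
    {ρ : ℝ} (hρ : 0 < ρ) (hρ1 : ρ ≤ 1)
    (hs : ρ * ∑ m ∈ Finset.Icc 1 (D - r), (2 : ℝ) ^ m * (Ws m).length ≤
      ∑ m ∈ Finset.Icc 1 (D - r), (hits (2 ^ (D - r - m)) vl (Ws m) : ℝ)) :
    (costSplay T (rel τ X) : ℝ) ≤ 150 / ρ * (1 + r + Real.logb 2 (1 / ρ)) *
      (optAny (List.range n) (X.map vl) + n) + 8 * (n * Real.logb 2 n) ∧
    ((∀ x : Fin n, x ∈ X) → (costSplay T (rel τ X) : ℝ) ≤ 700 / ρ * (1 + r + Real.logb 2 (1 / ρ)) *
      optAny (List.range n) (X.map vl)) := by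
  obtain ⟨Z, hZ⟩ : ∃ Z : ℝ, Z = ∑ m ∈ Finset.Icc 1 (D - r), (2 : ℝ) ^ m * (Ws m).length := ⟨_, rfl⟩
  obtain ⟨OP, hOP⟩ : ∃ OP : ℝ, OP = (optAny (List.range n) (X.map vl) : ℝ) := ⟨_, rfl⟩
  have hlen : (X.length : ℝ) ≤ OP := by
    have := opt_ge_len hT (X.map vl)
    rw [List.length_map] at this
    rw [hOP]
    exact this
  have hM0 : (0 : ℝ) ≤ X.length := Nat.cast_nonneg _
  have hlg : 0 ≤ Real.logb 2 (1 / ρ) := Real.logb_nonneg (by norm_num) (by
    rw [le_div_iff₀ hρ]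
    linarith)
  obtain ⟨Λ, hΛ⟩ : ∃ Λ : ℝ, Λ = 1 + r + Real.logb 2 (1 / ρ) := ⟨_, rfl⟩
  have hr0 : (0 : ℝ) ≤ r := Nat.cast_nonneg _
  have hΛ1 : 1 ≤ Λ := by rw [hΛ]; linarith
  have hΛr : 1 + (r : ℝ) ≤ Λ := by rw [hΛ]; linarith
  have hc := cost_windows_rel hT X τ (r := r) hD Ws rest hX hW hr
  have hz := windows_opt hT X (r := r) hD Ws rest hX hρ hρ1 hs
  rw [← hZ, ← hOP, ← hΛ] at hz
  rw [← hZ] at hc
  rw [← hOP, ← hΛ]
  have hn1 : 1 ≤ n := by
    have : 0 < 2 ^ D := by positivity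
    omega
  have hDn : (2 : ℝ) ^ D ≤ 2 * n := by exact_mod_cast hD2.le
  obtain ⟨κ, hκ⟩ : ∃ κ : ℝ, κ = 1 / ρ := ⟨_, rfl⟩
  have hκ1 : 1 ≤ κ := by
    rw [hκ, le_div_iff₀ hρ]
    linarith
  have hn0 : (1 : ℝ) ≤ n := by exact_mod_cast hn1
  have hOP0 : 0 ≤ OP := by linarith
  have hΛκ : Λ ≤ κ * Λ := by nlinarith
  have hz2 : Z ≤ κ * Λ * (20 * OP + 8 * n) := by
    refine hz.trans ?_
    have e1 : 4 / ρ * Λ * (5 * OP + 2 ^ D) = κ * Λ * (20 * OP + 4 * 2 ^ D) := by
      rw [hκ]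
      ring
    rw [e1]
    apply mul_le_mul_of_nonneg_left _ (by positivity)
    linarith
  have e150 : 150 / ρ * Λ * (OP + n) = κ * Λ * (150 * OP + 150 * n) := by rw [hκ]; ring
  have e700 : 700 / ρ * Λ * OP = κ * Λ * (700 * OP) := by rw [hκ]; ring
  have h14 : (14 + 6 * (r : ℝ)) * X.length ≤ κ * Λ * (14 * OP) := by
    have h1 : (14 + 6 * (r : ℝ)) ≤ 14 * (κ * Λ) := by linarith
    calc (14 + 6 * (r : ℝ)) * X.length ≤ (14 * (κ * Λ)) * OP := mul_le_mul h1 hlen hM0 (by positivity)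
      _ = κ * Λ * (14 * OP) := by ring
  have h12 : 12 * (2 : ℝ) ^ D ≤ κ * Λ * (24 * n) := by
    have h1 : (24 : ℝ) * n ≤ κ * Λ * (24 * n) := by
      have : (1 : ℝ) ≤ κ * Λ := by linarith
      nlinarith
    linarith
  constructor
  · rw [e150]
    have h1 : κ * Λ * (14 * OP) + 6 * (κ * Λ * (20 * OP + 8 * n)) + κ * Λ * (24 * n) ≤
        κ * Λ * (150 * OP + 150 * n) := by
      have h2 : 0 ≤ κ * Λ * OP := by positivity
      have h3 : 0 ≤ κ * Λ * n := by positivity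
      nlinarith
    linarith
  · intro hall
    rw [e700]
    have hnX : n ≤ X.toFinset.card := by
      have h1 : Fintype.card (Fin n) ≤ X.toFinset.card := by
        rw [← Finset.card_univ]
        apply Finset.card_le_card
        intro x _
        exact List.mem_toFinset.2 (hall x)
      rwa [Fintype.card_fin] at h1
    have hnM : (n : ℝ) ≤ X.length := by exact_mod_cast hnX.trans (List.toFinset_card_le X)
    have hnOP : (n : ℝ) ≤ OP := hnM.trans hlen
    -- `n D ≤ n (r + 2) + 2 Z`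
    have hnD : (n : ℝ) * D ≤ n * (r + 2) + 2 * Z := by
      have h1 : ∀ m ∈ Finset.Icc 1 (D - (r + 2)), (n : ℝ) / 2 ≤ (2 : ℝ) ^ m * (Ws m).length := by
        intro m hm
        rw [Finset.mem_Icc] at hm
        have h2 := keys_le (2 ^ m) (Ws m) (rest m) (hW m) (hr m)
        rw [← hX m] at h2
        have h3 : (n : ℝ) ≤ ((2 ^ m * ((Ws m).length + 1) : ℕ) : ℝ) := by exact_mod_cast hnX.trans h2
        push_cast at h3
        have h4 : 4 * 2 ^ m ≤ 2 ^ D := by
          have e : 4 * 2 ^ m = 2 ^ (m + 2) := by rw [pow_add]; ring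
          rw [e]
          exact Nat.pow_le_pow_right (by norm_num) (by omega)
        have h5 : 4 * (2 : ℝ) ^ m ≤ 2 * n := by
          have : 4 * 2 ^ m ≤ 2 * n := by omega
          exact_mod_cast this
        linarith
      have h2 := Finset.sum_le_sum h1
      rw [Finset.sum_const, nsmul_eq_mul, Nat.card_Icc] at h2
      have h3 : ∑ m ∈ Finset.Icc 1 (D - (r + 2)), (2 : ℝ) ^ m * (Ws m).length ≤ Z := by
        rw [hZ]
        apply Finset.sum_le_sum_of_subset_of_nonneg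
        · intro m hm
          rw [Finset.mem_Icc] at hm ⊢
          omega
        · intro m _ _
          positivity
      have h4 : (D : ℝ) - (r + 2) ≤ ((D - (r + 2) + 1 - 1 : ℕ) : ℝ) := by
        rw [Nat.add_sub_cancel]
        have : (D : ℝ) ≤ ((D - (r + 2) : ℕ) : ℝ) + ((r + 2 : ℕ) : ℝ) := by
          exact_mod_cast (by omega : D ≤ D - (r + 2) + (r + 2))
        push_cast at this
        linarith
      have h5 := mul_le_mul_of_nonneg_right h4 (by positivity : (0 : ℝ) ≤ n / 2)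
      linarith
    have hlog : (n : ℝ) * Real.logb 2 n ≤ n * D := by
      apply mul_le_mul_of_nonneg_left _ (by positivity)
      rw [Real.logb_le_iff_le_rpow (by norm_num) (by linarith), Real.rpow_natCast]
      exact_mod_cast hD
    have h8 : (n : ℝ) * (r + 2) ≤ κ * Λ * (2 * OP) := by
      have h1 : ((r : ℝ) + 2) ≤ 2 * (κ * Λ) := by linarith
      calc (n : ℝ) * (r + 2) ≤ OP * (2 * (κ * Λ)) := mul_le_mul hnOP h1 (by linarith) hOP0
        _ = κ * Λ * (2 * OP) := by ring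
    have h9 : κ * Λ * (8 * n) ≤ κ * Λ * (8 * OP) := by
      apply mul_le_mul_of_nonneg_left _ (by positivity)
      linarith
    have h10 : κ * Λ * (24 * n) ≤ κ * Λ * (24 * OP) := by
      apply mul_le_mul_of_nonneg_left _ (by positivity)
      linarith
    have h11 : Z ≤ κ * Λ * (28 * OP) := by
      have : κ * Λ * (20 * OP + 8 * n) = κ * Λ * (20 * OP) + κ * Λ * (8 * n) := by ring
      have e : κ * Λ * (28 * OP) = κ * Λ * (20 * OP) + κ * Λ * (8 * OP) := by ring
      linarith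
    have h13 : 0 ≤ κ * Λ * OP := by positivity
    linarith

/-- **Few close pairs in the windows.** -/
theorem close_ratio_rel {T : Tr} (hT : keys T = List.range n) (X : List (Fin n)) (τ : Equiv.Perm (Fin n)) (hn : 1 ≤ n)
    (Ws : ℕ → List (List (Fin n))) (rest : ℕ → List (Fin n)) (hX : ∀ m, X = (Ws m).flatten ++ rest m)
    (hW : ∀ m, ∀ W ∈ Ws m, W.toFinset.card = 2 ^ m) (hr : ∀ m, (rest m).toFinset.card < 2 ^ m)
    {R C : ℝ} (hR : 1 ≤ R) (hC : 0 ≤ C)
    (hs : ∀ m, 1 ≤ m → 2 ^ m ≤ n → (((Ws m).map (close R (2 ^ m))).sum : ℝ) ≤ C * (2 ^ m * (Ws m).length)) :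
    (costSplay T (rel τ X) : ℝ) ≤ 450 * (1 + C) * (1 + Real.logb 2 (R * (1 + C))) *
      (optAny (List.range n) (X.map vl) + n) + 8 * (n * Real.logb 2 n) ∧
    ((∀ x : Fin n, x ∈ X) → (costSplay T (rel τ X) : ℝ) ≤ 2100 * (1 + C) * (1 + Real.logb 2 (R * (1 + C))) *
      optAny (List.range n) (X.map vl)) := by
  classical
  obtain ⟨D, hDdef⟩ : ∃ D : ℕ, D = Nat.clog 2 n := ⟨_, rfl⟩
  have hD : n ≤ 2 ^ D := by
    rw [hDdef]
    exact Nat.le_pow_clog (by norm_num) n
  have hD2 : 2 ^ D < 2 * n := by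
    rcases Nat.lt_or_ge 1 n with h | h
    · have h1 := Nat.pow_pred_clog_lt_self (b := 2) (by norm_num) h
      rw [← hDdef] at h1
      have h2 : 1 ≤ D := by
        rw [hDdef]
        exact Nat.clog_pos (by norm_num) h
      have h3 : 2 ^ D = 2 * 2 ^ (D - 1) := by
        rw [← pow_succ']
        congr 1
        omega
      have h4 : 2 ^ D.pred = 2 ^ (D - 1) := rfl
      omega
    · have : n = 1 := by omega
      rw [hDdef, this]
      simp
  have hlR : 0 ≤ Real.logb 2 R := Real.logb_nonneg (by norm_num) hR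
  obtain ⟨r, hrdef⟩ : ∃ r : ℕ, r = ⌈Real.logb 2 R⌉₊ + 1 := ⟨_, rfl⟩
  have hr1 : (r : ℝ) ≤ Real.logb 2 R + 2 := by
    rw [hrdef]
    push_cast
    have := Nat.ceil_lt_add_one hlR
    linarith
  have hr2 : 2 * R ≤ 2 ^ r := by
    have h1 : Real.logb 2 R ≤ (⌈Real.logb 2 R⌉₊ : ℝ) := Nat.le_ceil _
    rw [Real.logb_le_iff_le_rpow (by norm_num) (by linarith), Real.rpow_natCast] at h1
    rw [hrdef, pow_succ]
    linarith
  obtain ⟨ρ, hρdef⟩ : ∃ ρ : ℝ, ρ = 1 / (1 + C) := ⟨_, rfl⟩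
  have hρ : 0 < ρ := by rw [hρdef]; positivity
  have hρ1 : ρ ≤ 1 := by
    rw [hρdef, div_le_iff₀ (by linarith)]
    linarith
  have hs2 : ρ * ∑ m ∈ Finset.Icc 1 (D - r), (2 : ℝ) ^ m * (Ws m).length ≤
      ∑ m ∈ Finset.Icc 1 (D - r), (hits (2 ^ (D - r - m)) vl (Ws m) : ℝ) := by
    rw [Finset.mul_sum]
    refine Finset.sum_le_sum fun m hm => ?_
    rw [Finset.mem_Icc] at hm
    have hmn : 2 ^ m ≤ n := by
      have h1 : 2 ^ m ≤ 2 ^ (D - 1) := Nat.pow_le_pow_right (by norm_num) (by omega)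
      have h2 : 2 ^ D = 2 * 2 ^ (D - 1) := by
        rw [← pow_succ']
        congr 1
        omega
      omega
    have h1 := hs m hm.1 hmn
    have key : ∀ L : List (List (Fin n)), (∀ W ∈ L, W.toFinset.card = 2 ^ m) →
        2 * ρ * (2 ^ m * L.length) - ρ ^ 2 * (2 ^ m * L.length + ((L.map (close R (2 ^ m))).sum : ℝ)) ≤
        (hits (2 ^ (D - r - m)) vl L : ℝ) := by
      intro L
      induction L with
      | nil => intro _; simp [hits]
      | cons W L ih =>
        intro hL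
        have h2 := ih (fun W hW => hL W (List.mem_cons_of_mem _ hW))
        have h3 := hit_ge (2 ^ (D - r - m)) vl W.toFinset ρ
        rw [hL W (by simp)] at h3
        have h4 : (coll (2 ^ (D - r - m)) vl W.toFinset : ℝ) ≤ (close R (2 ^ m) W : ℝ) := by
          exact_mod_cast coll_le_close (by omega) (by omega) hD2 (by linarith) hr2 W
        have h5 := mul_le_mul_of_nonneg_left h4 (sq_nonneg ρ)
        have e1 : (hits (2 ^ (D - r - m)) vl (W :: L) : ℝ) =
            ((W.toFinset.image (fun x => vl x / 2 ^ (D - r - m))).card : ℝ) + (hits (2 ^ (D - r - m)) vl L : ℝ) := by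
          unfold hits
          rw [List.map_cons, List.sum_cons]
          push_cast
          rfl
        rw [e1, List.map_cons, List.sum_cons, List.length_cons]
        push_cast at h3 h2 ⊢
        nlinarith
    have h2 := key (Ws m) (hW m)
    refine le_trans ?_ h2
    have h3 := mul_le_mul_of_nonneg_left h1 (sq_nonneg ρ)
    have h4 : ρ * (1 + C) = 1 := by
      rw [hρdef]
      field_simp
    have h5 : ρ ^ 2 * (2 ^ m * ((Ws m).length : ℝ) + C * (2 ^ m * (Ws m).length)) =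
        ρ * (ρ * (1 + C)) * (2 ^ m * (Ws m).length) := by ring
    rw [h4, mul_one] at h5
    nlinarith
  have h := spread_ratio_rel hT X τ hD hD2 Ws rest hX hW hr hρ hρ1 hs2
  have hOP0 : (0 : ℝ) ≤ optAny (List.range n) (X.map vl) := Nat.cast_nonneg _
  have e1 : 1 / ρ = 1 + C := by rw [hρdef, one_div_one_div]
  have e2 : Real.logb 2 (R * (1 + C)) = Real.logb 2 R + Real.logb 2 (1 + C) :=
    Real.logb_mul (by positivity) (by positivity)
  have hlC : 0 ≤ Real.logb 2 (1 + C) := Real.logb_nonneg (by norm_num) (by linarith)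
  have e3 : ∀ z : ℝ, z / ρ = z * (1 + C) := by
    intro z
    rw [← e1]
    ring
  have h1 : 1 + (r : ℝ) + Real.logb 2 (1 / ρ) ≤ 3 * (1 + Real.logb 2 (R * (1 + C))) := by
    rw [e1, e2]
    linarith
  rw [e3 150, e3 700] at h
  constructor
  · refine h.1.trans ?_
    have h2 : 150 * (1 + C) * (1 + (r : ℝ) + Real.logb 2 (1 / ρ)) ≤
        450 * (1 + C) * (1 + Real.logb 2 (R * (1 + C))) := by
      have := mul_le_mul_of_nonneg_left h1 (by positivity : 0 ≤ 150 * (1 + C))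
      linarith
    have h3 := mul_le_mul_of_nonneg_right h2 (by positivity : (0 : ℝ) ≤ optAny (List.range n) (X.map vl) + n)
    linarith
  · intro hall
    refine (h.2 hall).trans ?_
    have h2 : 700 * (1 + C) * (1 + (r : ℝ) + Real.logb 2 (1 / ρ)) ≤
        2100 * (1 + C) * (1 + Real.logb 2 (R * (1 + C))) := by
      have := mul_le_mul_of_nonneg_left h1 (by positivity : 0 ≤ 700 * (1 + C))
      linarith
    exact mul_le_mul_of_nonneg_right h2 hOP0

end Pool.Agent.Zk77.Spl
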