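import Pool.Agent.Zk77.Spl.Kron
import Pool.Agent.Zk77.Spl.Rel

/-!
# Local sequences and low discrepancy relabellings (helper77)
-/

set_option autoImplicit false

namespace Pool.Agent.Zk77.Spl

open Finset Pool.Agent.H581R2.Splay Pool.Agent.TH49.Spl Pool.Agent.Y395.SP Pool.Agent.N724.TW

/-- at most `R` points of the graph in every box of area at most `n` -/
def Boxes {n : ℕ} (π : Equiv.Perm (Fin n)) (R : ℕ) : Prop :=
  ∀ a b L M : ℕ, L * M ≤ n → (Finset.univ.filter (fun x : Fin n =>
    (a ≤ (x : ℕ) ∧ (x : ℕ) < a + L) ∧ b ≤ (π x : ℕ) ∧ (π x : ℕ) < b + M)).card ≤ R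

/-- the distance on the cycle of the `n` keys -/
def cdist (n x y : ℕ) : ℕ := min (Nat.dist x y) (n - Nat.dist x y)

/-- every set of consecutive requests with `q` distinct keys has a diameter less than `K q` on the cycle of the keys -/
def Local {n : ℕ} (K : ℕ) (X : List (Fin n)) : Prop :=
  ∀ U W V : List (Fin n), X = U ++ W ++ V → ∀ x ∈ W, ∀ y ∈ W, cdist n x y < K * W.toFinset.card

lemma map_toFinset_card {n : ℕ} (π : Equiv.Perm (Fin n)) (W : List (Fin n)) :
    (W.map π).toFinset.card = W.toFinset.card := by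
  classical
  have : (W.map π).toFinset = W.toFinset.image π := by
    ext x
    simp
  rw [this, Finset.card_image_of_injective _ π.injective]

/-- few close pairs -/
lemma close_le {n : ℕ} (π : Equiv.Perm (Fin n)) {R : ℕ} (hR : Boxes π R) {K q : ℕ} (W : List (Fin n))
    (hq : W.toFinset.card = q) (hW : ∀ x ∈ W, ∀ y ∈ W, cdist n x y < K * q) :
    close (8 * K) q (W.map π) ≤ 2 * R * q := by
  classical
  rcases W with _ | ⟨a, W0⟩
  · unfold close
    simp
  obtain ⟨W, hWdef⟩ : ∃ W : List (Fin n), W = a :: W0 := ⟨_, rfl⟩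
  rw [← hWdef] at hq hW ⊢
  have ha : a ∈ W := by rw [hWdef]; simp
  have hKq : 0 < K * q := by
    have := hW a ha a ha
    omega
  obtain ⟨s, hs⟩ : ∃ s : ℕ, s = (n - 1) / (8 * (K * q)) := ⟨_, rfl⟩
  have hn1 : 1 ≤ n := by
    have := a.2
    omega
  unfold close
  have h1 := Finset.card_le_mul_card_image (f := fun z : Fin n × Fin n => z.1)
    ((W.map π).toFinset.offDiag.filter (fun z => (8 * (K : ℝ)) * q * (Nat.dist (z.1 : ℕ) (z.2 : ℕ)) < n)) (2 * R)
    (fun x hx => by
      obtain ⟨z0, hz0, hz0x⟩ := Finset.mem_image.1 hx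
      rw [Finset.mem_filter, Finset.mem_offDiag, List.mem_toFinset] at hz0
      -- `s ≥ 1`
      have hdist : ∀ z : Fin n × Fin n, (8 * (K : ℝ)) * q * (Nat.dist (z.1 : ℕ) (z.2 : ℕ)) < n →
          Nat.dist (z.1 : ℕ) (z.2 : ℕ) ≤ s := by
        intro z hz
        rw [hs, Nat.le_div_iff_mul_le (by omega)]
        have h2 : ((8 * (K * q) * Nat.dist (z.1 : ℕ) (z.2 : ℕ) : ℕ) : ℝ) < n := by
          push_cast
          calc (8 : ℝ) * (K * q) * (Nat.dist (z.1 : ℕ) (z.2 : ℕ)) = 8 * K * q * (Nat.dist (z.1 : ℕ) (z.2 : ℕ)) := by ring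
            _ < n := hz
        have h3 : 8 * (K * q) * Nat.dist (z.1 : ℕ) (z.2 : ℕ) < n := by exact_mod_cast h2
        rw [mul_comm]
        omega
      have hs1 : 1 ≤ s := by
        have h2 := hdist z0 hz0.2
        have h3 : Nat.dist (z0.1 : ℕ) (z0.2 : ℕ) ≠ 0 := by
          intro h0
          exact hz0.1.2.2 (Fin.ext (Nat.eq_of_dist_eq_zero h0))
        omega
      have hLM : 2 * (K * q) * (2 * s + 1) ≤ n := by
        have h2 : s * (8 * (K * q)) ≤ n - 1 := by
          rw [hs]
          exact Nat.div_mul_le_self _ _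
        have h3 : K * q ≤ K * q * s := Nat.le_mul_of_pos_right _ hs1
        have h4 : s * (8 * (K * q)) = 8 * (K * q * s) := by ring
        have h5 : 2 * (K * q) * (2 * s + 1) = 4 * (K * q * s) + 2 * (K * q) := by ring
        omega
      obtain ⟨b', hb'⟩ : ∃ b' : ℕ, b' = if (a : ℕ) < K * q then n + a - K * q else 0 := ⟨_, rfl⟩
      have hcov : ∀ y ∈ W, ((a : ℕ) - K * q ≤ (y : ℕ) ∧ (y : ℕ) < (a : ℕ) - K * q + 2 * (K * q)) ∨
          (b' ≤ (y : ℕ) ∧ (y : ℕ) < b' + 2 * (K * q)) := by
        intro y hy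
        have h2 := hW a ha y hy
        have h3 := y.2
        have h4 := a.2
        rw [hb']
        unfold cdist Nat.dist at h2
        split_ifs with h5 <;> omega
      refine le_trans (Finset.card_le_card_of_injOn (t := (Finset.univ.filter (fun y : Fin n =>
        ((a : ℕ) - K * q ≤ (y : ℕ) ∧ (y : ℕ) < (a : ℕ) - K * q + 2 * (K * q)) ∧
          (x : ℕ) - s ≤ (π y : ℕ) ∧ (π y : ℕ) < (x : ℕ) - s + (2 * s + 1))) ∪
        (Finset.univ.filter (fun y : Fin n => (b' ≤ (y : ℕ) ∧ (y : ℕ) < b' + 2 * (K * q)) ∧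
          (x : ℕ) - s ≤ (π y : ℕ) ∧ (π y : ℕ) < (x : ℕ) - s + (2 * s + 1)))) (fun z => π.symm z.2) ?_ ?_)
        ((Finset.card_union_le _ _).trans ?_)
      · intro z hz
        rw [Finset.mem_coe, Finset.mem_filter, Finset.mem_filter, Finset.mem_offDiag, List.mem_toFinset,
          List.mem_toFinset] at hz
        obtain ⟨⟨⟨_, hz2, _⟩, hzd⟩, hzx⟩ := hz
        obtain ⟨y, hy, hyz⟩ := List.mem_map.1 hz2
        have h3 : π.symm z.2 = y := by rw [← hyz, Equiv.symm_apply_apply]
        rw [Finset.mem_coe, Finset.mem_union, Finset.mem_filter, Finset.mem_filter]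
        simp only [h3]
        have h6 : (x : ℕ) - s ≤ (π y : ℕ) ∧ (π y : ℕ) < (x : ℕ) - s + (2 * s + 1) := by
          have h4 := hdist z hzd
          rw [hyz]
          have h5 : z.1 = x := hzx
          rw [h5] at h4
          unfold Nat.dist at h4
          omega
        rcases hcov y hy with h | h
        · exact Or.inl ⟨Finset.mem_univ _, h, h6⟩
        · exact Or.inr ⟨Finset.mem_univ _, h, h6⟩
      · intro z hz z' hz' h
        rw [Finset.mem_coe, Finset.mem_filter] at hz hz'
        have h2 := π.symm.injective h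
        exact Prod.ext (hz.2.trans hz'.2.symm) h2
      · have h2 := hR ((a : ℕ) - K * q) ((x : ℕ) - s) (2 * (K * q)) (2 * s + 1) hLM
        have h3 := hR b' ((x : ℕ) - s) (2 * (K * q)) (2 * s + 1) hLM
        omega)
  refine h1.trans (Nat.mul_le_mul_left _ ?_)
  rw [← hq, ← map_toFinset_card π W]
  apply Finset.card_le_card
  intro x hx
  obtain ⟨z, hz, rfl⟩ := Finset.mem_image.1 hx
  rw [Finset.mem_filter, Finset.mem_offDiag] at hz
  exact hz.1.1

/-- **Low discrepancy relabellings of local sequences.** -/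
theorem local_ratio {n : ℕ} {T : Tr} (hT : keys T = List.range n) (hn : 1 ≤ n) (π σ : Equiv.Perm (Fin n)) {R K : ℕ}
    (hR : Boxes π R) (hK : 1 ≤ K) (X : List (Fin n)) (hX : Local K X) :
    (costSplay T (rel σ X) : ℝ) ≤ 450 * (1 + 2 * (R : ℝ)) * (1 + Real.logb 2 (8 * K * (1 + 2 * R))) *
      (optAny (List.range n) (rel π X) + n) + 8 * (n * Real.logb 2 n) ∧
    ((∀ x : Fin n, x ∈ X) → (costSplay T (rel σ X) : ℝ) ≤
      2100 * (1 + 2 * (R : ℝ)) * (1 + Real.logb 2 (8 * K * (1 + 2 * R))) *
        optAny (List.range n) (rel π X)) := by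
  classical
  have eπ : rel π X = (X.map π).map vl := by
    unfold rel
    rw [List.map_map]
    rfl
  have eσ : rel σ X = rel (π.symm.trans σ) (X.map π) := by
    unfold rel
    rw [List.map_map]
    apply List.map_congr_left
    intro x _
    simp
  rw [eπ, eσ]
  have hwin : ∀ m : ℕ, ∃ (Ws : List (List (Fin n))) (rest : List (Fin n)),
      X.map π = Ws.flatten ++ rest ∧ (∀ W ∈ Ws, W.toFinset.card = 2 ^ m) ∧ rest.toFinset.card < 2 ^ m :=
    fun m => windows (2 ^ m) Nat.one_le_two_pow (X.map π).length (X.map π) le_rfl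
  choose Ws rest hX' hW hr using hwin
  have hK0 : (1 : ℝ) ≤ K := by exact_mod_cast hK
  have h := close_ratio_rel hT (X.map π) (π.symm.trans σ) hn Ws rest hX' hW hr (R := 8 * K) (C := 2 * R)
    (by linarith) (by positivity)
    (fun m _ _ => by
      have key : ∀ L : List (List (Fin n)), (∀ W ∈ L, W ∈ Ws m) →
          (L.map (close (8 * K) (2 ^ m))).sum ≤ 2 * R * (2 ^ m * L.length) := by
        intro L
        induction L with
        | nil => intro _; simp
        | cons W L ih =>
          intro hL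
          have h1 := ih (fun W' hW' => hL W' (List.mem_cons_of_mem _ hW'))
          have hWm := hL W (by simp)
          obtain ⟨A, B, hAB⟩ := List.append_of_mem hWm
          have h2 : X.map π = A.flatten ++ (W ++ (B.flatten ++ rest m)) := by
            have h3 := hX' m
            rw [hAB] at h3
            rw [h3]
            simp
          obtain ⟨X1, X2, e1, _, e2⟩ := List.map_eq_append_iff.1 h2
          obtain ⟨X3, X4, e3, e4, _⟩ := List.map_eq_append_iff.1 e2
          have h3 : W.toFinset.card = 2 ^ m := hW m W hWm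
          rw [← e4, map_toFinset_card] at h3
          have h4 := close_le π hR (K := K) X3 h3 (fun x hx y hy => by
            have := hX X1 X3 X4 (by rw [e1, e3]; simp) x hx y hy
            rwa [h3] at this)
          rw [List.map_cons, List.sum_cons, List.length_cons]
          rw [e4] at h4
          calc close (8 * K) (2 ^ m) W + (L.map (close (8 * K) (2 ^ m))).sum ≤
                2 * R * 2 ^ m + 2 * R * (2 ^ m * L.length) := Nat.add_le_add h4 h1
            _ = 2 * R * (2 ^ m * (L.length + 1)) := by ring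
      have h1 := key (Ws m) (fun W hW => hW)
      have h2 : ((((Ws m).map (close (8 * K) (2 ^ m))).sum : ℕ) : ℝ) ≤ ((2 * R * (2 ^ m * (Ws m).length) : ℕ) : ℝ) :=
        Nat.cast_le.2 h1
      refine h2.trans (le_of_eq ?_)
      rw [Nat.cast_mul, Nat.cast_mul, Nat.cast_mul, Nat.cast_pow, Nat.cast_ofNat])
  refine ⟨h.1, fun hall => h.2 fun x => ?_⟩
  rw [List.mem_map]
  exact ⟨π.symm x, hall _, Equiv.apply_symm_apply _ _⟩

/-- walks with bounded steps are local -/
theorem walk_local {n : ℕ} (K : ℕ) (hK : 1 ≤ K) (X : List (Fin n))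
    (hX : X.IsChain (fun x y : Fin n => cdist n x y ≤ K)) : Local K X := by
  classical
  intro U W V hUWV
  have hW : W.IsChain (fun x y : Fin n => cdist n x y ≤ K) := by
    rw [hUWV, List.isChain_append, List.isChain_append] at hX
    exact hX.1.2.1
  clear hUWV hX
  have key : ∀ W : List (Fin n), W.IsChain (fun x y : Fin n => cdist n x y ≤ K) → ∀ x ∈ W, ∀ y ∈ W,
      cdist n x y + K ≤ K * W.toFinset.card := by
    intro W
    induction W with
    | nil => intro _ x hx; simp at hx
    | cons a W ih =>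
      intro hc
      rcases W with _ | ⟨b, W⟩
      · intro x hx y hy
        rw [List.mem_singleton] at hx hy
        rw [hx, hy, cdist, Nat.dist_self]
        simp
      · rw [List.isChain_cons_cons] at hc
        have ih' := ih hc.2
        obtain ⟨W', hW'⟩ : ∃ W', W' = b :: W := ⟨_, rfl⟩
        rw [← hW'] at ih' ⊢
        have hb : b ∈ W' := by rw [hW']; simp
        by_cases haW : a ∈ W'
        · have e : (a :: W').toFinset = W'.toFinset := by
            rw [List.toFinset_cons, Finset.insert_eq_of_mem (List.mem_toFinset.2 haW)]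
          rw [e]
          intro x hx y hy
          have hx' : x ∈ W' := by
            rcases List.mem_cons.1 hx with rfl | h
            · exact haW
            · exact h
          have hy' : y ∈ W' := by
            rcases List.mem_cons.1 hy with rfl | h
            · exact haW
            · exact h
          exact ih' x hx' y hy'
        · have e : (a :: W').toFinset.card = W'.toFinset.card + 1 := by
            rw [List.toFinset_cons, Finset.card_insert_of_notMem (fun h => haW (List.mem_toFinset.1 h))]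
          rw [e, mul_add, mul_one]
          have hab : ∀ y ∈ W', cdist n a y ≤ K * W'.toFinset.card := by
            intro y hy
            have h1 := ih' b hb y hy
            have h3 := hc.1
            have h4 := a.2
            have h5 := b.2
            have h6 := y.2
            unfold cdist Nat.dist at h1 h3 ⊢
            omega
          intro x hx y hy
          rcases List.mem_cons.1 hx with rfl | hx'
          · rcases List.mem_cons.1 hy with rfl | hy'
            · rw [cdist, Nat.dist_self]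
              simp
            · have := hab y hy'
              omega
          · rcases List.mem_cons.1 hy with rfl | hy'
            · have := hab x hx'
              rw [cdist, Nat.dist_comm, ← cdist] at this
              omega
            · have := ih' x hx' y hy'
              omega
  intro x hx y hy
  have := key W hW x hx y hy
  omega

/-- pairwise scattered points have few points in boxes -/
theorem scattered_boxes {n : ℕ} (π : Equiv.Perm (Fin n)) {R : ℕ} (hR1 : 1 ≤ R)
    (hR : ∀ x y : Fin n, x ≠ y → n ≤ R * (Nat.dist (x : ℕ) (y : ℕ) * Nat.dist (π x : ℕ) (π y : ℕ))) : Boxes π R := by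
  classical
  intro a b L M hLM
  rcases Nat.eq_zero_or_pos L with rfl | hL
  · rw [Finset.filter_false_of_mem]
    · simp
    · intro x _ h
      omega
  obtain ⟨w, hw⟩ : ∃ w : ℕ, w = (L + R - 1) / R := ⟨_, rfl⟩
  have hw1 : 1 ≤ w := by
    rw [hw, Nat.le_div_iff_mul_le (by omega)]
    omega
  have hwL : L ≤ R * w := by
    have h1 := Nat.lt_div_mul_add (a := L + R - 1) (b := R) (by omega)
    rw [← hw] at h1
    have e : w * R = R * w := Nat.mul_comm _ _
    omega
  have hwR : R * (w - 1) < L := by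
    have h1 := Nat.div_mul_le_self (L + R - 1) R
    rw [← hw] at h1
    have e : R * (w - 1) + R = w * R := by
      obtain ⟨w', rfl⟩ := Nat.exists_eq_add_of_le' hw1
      rw [Nat.add_sub_cancel]
      ring
    omega
  rw [← Finset.card_range R]
  apply Finset.card_le_card_of_injOn (fun x : Fin n => ((x : ℕ) - a) / w)
  · intro x hx
    rw [Finset.mem_coe, Finset.mem_filter] at hx
    rw [Finset.mem_coe, Finset.mem_range, Nat.div_lt_iff_lt_mul (by omega)]
    omega
  · intro x hx y hy hxy
    rw [Finset.mem_coe, Finset.mem_filter] at hx hy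
    by_contra hne
    have h1 := hR x y hne
    simp only at hxy
    have h2 : Nat.dist (x : ℕ) (y : ℕ) ≤ w - 1 := by
      have h3 := Nat.div_add_mod ((x : ℕ) - a) w
      have h4 := Nat.div_add_mod ((y : ℕ) - a) w
      have h5 := Nat.mod_lt ((x : ℕ) - a) hw1
      have h6 := Nat.mod_lt ((y : ℕ) - a) hw1
      rw [hxy] at h3
      unfold Nat.dist
      omega
    have h3 : Nat.dist (π x : ℕ) (π y : ℕ) + 1 ≤ M := by
      unfold Nat.dist
      omega
    have h4 : R * (Nat.dist (x : ℕ) (y : ℕ) * Nat.dist (π x : ℕ) (π y : ℕ)) ≤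
        R * (w - 1) * (Nat.dist (π x : ℕ) (π y : ℕ)) := by
      rw [← mul_assoc]
      exact Nat.mul_le_mul_right _ (Nat.mul_le_mul_left _ h2)
    have h5 : R * (w - 1) * (Nat.dist (π x : ℕ) (π y : ℕ)) ≤ L * (Nat.dist (π x : ℕ) (π y : ℕ)) :=
      Nat.mul_le_mul_right _ hwR.le
    have h6 : L * (Nat.dist (π x : ℕ) (π y : ℕ) + 1) ≤ L * M := Nat.mul_le_mul_left _ h3
    rw [mul_add, mul_one] at h6
    omega

/-- The graph of `π` is a `(0, D, 2)`-net in base `b`: each box of `b ^ t` consecutive keys and `b ^ s` consecutive values,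
`t + s = D`, which begin at multiples of `b ^ t`, `b ^ s` contains only one point. -/
def Net (b D : ℕ) (π : Equiv.Perm (Fin (b ^ D))) : Prop :=
  ∀ t s : ℕ, t + s = D → ∀ x y : Fin (b ^ D), (x : ℕ) / b ^ t = (y : ℕ) / b ^ t →
    (π x : ℕ) / b ^ s = (π y : ℕ) / b ^ s → x = y

theorem net_boxes {b D : ℕ} (hb : 2 ≤ b) (π : Equiv.Perm (Fin (b ^ D))) (hπ : Net b D π) : Boxes π (2 * (b + 1)) := by
  classical
  intro a c L M hLM
  rcases Nat.eq_zero_or_pos L with rfl | hL
  · rw [Finset.filter_false_of_mem]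
    · simp
    · intro x _ h
      omega
  rcases Nat.eq_zero_or_pos M with rfl | hM
  · rw [Finset.filter_false_of_mem]
    · simp
    · intro x _ h
      omega
  obtain ⟨t, ht⟩ : ∃ t : ℕ, t = Nat.clog b L := ⟨_, rfl⟩
  have ht1 : L ≤ b ^ t := by
    rw [ht]
    exact Nat.le_pow_clog (by omega) L
  have ht2 : b ^ t < b * L := by
    rcases Nat.lt_or_ge 1 L with h | h
    · have h1 := Nat.pow_pred_clog_lt_self (b := b) (by omega) h
      rw [← ht] at h1
      have h2 : 1 ≤ t := by
        rw [ht]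
        exact Nat.clog_pos (by omega) h
      have h3 : b ^ t = b * b ^ (t - 1) := by
        rw [← pow_succ']
        congr 1
        omega
      have h4 : b ^ t.pred = b ^ (t - 1) := rfl
      rw [h3]
      exact Nat.mul_lt_mul_of_pos_left (by rw [← h4]; exact h1) (by omega)
    · have h1 : L = 1 := by omega
      rw [ht, h1]
      simp
      omega
  have hLD : L ≤ b ^ D := le_trans (Nat.le_mul_of_pos_right L hM) hLM
  have htD : t ≤ D := by
    rw [ht]
    exact (Nat.clog_le_iff_le_pow (by omega)).2 hLD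
  obtain ⟨s, hs⟩ : ∃ s, t + s = D := ⟨D - t, by omega⟩
  have hbt : 0 < b ^ t := by positivity
  have hbs : 0 < b ^ s := by positivity
  have hMs : M < b * b ^ s := by
    have h1 : M * b ^ t < b * b ^ s * b ^ t := by
      calc M * b ^ t < M * (b * L) := Nat.mul_lt_mul_of_pos_left ht2 hM
        _ = b * (L * M) := by ring
        _ ≤ b * b ^ D := Nat.mul_le_mul_left _ hLM
        _ = b * b ^ s * b ^ t := by rw [← hs, pow_add]; ring
    exact Nat.lt_of_mul_lt_mul_right h1
  have hc : (((Finset.range 2) ×ˢ (Finset.range (b + 1))).card) = 2 * (b + 1) := by simp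
  rw [← hc]
  apply Finset.card_le_card_of_injOn (fun x : Fin (b ^ D) =>
    ((x : ℕ) / b ^ t - a / b ^ t, (π x : ℕ) / b ^ s - c / b ^ s))
  · intro x hx
    rw [Finset.mem_coe, Finset.mem_filter] at hx
    rw [Finset.mem_coe, Finset.mem_product, Finset.mem_range, Finset.mem_range]
    have h1 : (x : ℕ) / b ^ t ≤ a / b ^ t + 1 := by
      have h2 : (x : ℕ) / b ^ t ≤ (a + b ^ t) / b ^ t := Nat.div_le_div_right (by omega)
      rwa [Nat.add_div_right _ hbt] at h2
    have h2 : (π x : ℕ) / b ^ s ≤ c / b ^ s + b := by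
      have h3 : (π x : ℕ) / b ^ s ≤ (c + b * b ^ s) / b ^ s := Nat.div_le_div_right (by omega)
      rwa [Nat.add_mul_div_right _ _ hbs] at h3
    simp only
    omega
  · intro x hx y hy hxy
    rw [Finset.mem_coe, Finset.mem_filter] at hx hy
    rw [Prod.mk.injEq] at hxy
    have hax : a / b ^ t ≤ (x : ℕ) / b ^ t := Nat.div_le_div_right (by omega)
    have hay : a / b ^ t ≤ (y : ℕ) / b ^ t := Nat.div_le_div_right (by omega)
    have hbx : c / b ^ s ≤ (π x : ℕ) / b ^ s := Nat.div_le_div_right (by omega)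
    have hby : c / b ^ s ≤ (π y : ℕ) / b ^ s := Nat.div_le_div_right (by omega)
    exact hπ t s hs x y (by omega) (by omega)

/-- reversal of the `D` digits in base `b` -/
def revB (b : ℕ) : ℕ → ℕ → ℕ
  | 0, _ => 0
  | D + 1, x => (x % b) * b ^ D + revB b D (x / b)

lemma revB_lt {b : ℕ} (hb : 1 ≤ b) : ∀ D x : ℕ, revB b D x < b ^ D
  | 0, x => by simp [revB]
  | D + 1, x => by
    have h1 := revB_lt hb D (x / b)
    have h2 := Nat.mod_lt x (show 0 < b by omega)
    rw [revB, pow_succ']
    have h3 : (x % b + 1) * b ^ D ≤ b * b ^ D := Nat.mul_le_mul_right _ (by omega)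
    rw [add_mul, one_mul] at h3
    omega

lemma revB_inj {b : ℕ} (hb : 1 ≤ b) : ∀ (t x y : ℕ), revB b t x = revB b t y → x % b ^ t = y % b ^ t
  | 0, x, y, _ => by simp [Nat.mod_one]
  | t + 1, x, y, h => by
    rw [revB, revB] at h
    have h1 := revB_lt hb t (x / b)
    have h2 := revB_lt hb t (y / b)
    have hbt : 0 < b ^ t := by positivity
    have h3 : x % b = y % b := by
      have h5 : (x % b * b ^ t + revB b t (x / b)) / b ^ t = (y % b * b ^ t + revB b t (y / b)) / b ^ t := by rw [h]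
      rwa [Nat.add_comm, Nat.add_mul_div_right _ _ hbt, Nat.div_eq_of_lt h1, Nat.add_comm (y % b * b ^ t),
        Nat.add_mul_div_right _ _ hbt, Nat.div_eq_of_lt h2, zero_add, zero_add] at h5
    have h4 : revB b t (x / b) = revB b t (y / b) := by
      rw [h3] at h
      omega
    have h5 := revB_inj hb t (x / b) (y / b) h4
    rw [pow_succ', Nat.mod_mul, Nat.mod_mul, h3, h5]

/-- the leading digits of the reversed number -/
lemma revB_split (b : ℕ) : ∀ (t s x : ℕ), revB b (t + s) x = revB b t x * b ^ s + revB b s (x / b ^ t)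
  | 0, s, x => by simp [revB]
  | t + 1, s, x => by
    have e : t + 1 + s = (t + s) + 1 := by ring
    rw [e, revB, revB, revB_split b t s (x / b), Nat.div_div_eq_div_mul, ← pow_succ', pow_add]
    ring

/-- the reversal of the digits of the keys is a net -/
theorem rev_net {b D : ℕ} (hb : 1 ≤ b) (π : Equiv.Perm (Fin (b ^ D))) (hπ : ∀ x, (π x : ℕ) = revB b D x) : Net b D π := by
  intro t s hts x y hx hy
  have h3 : ∀ z : Fin (b ^ D), (π z : ℕ) / b ^ s = revB b t (z : ℕ) := by
    intro z
    have h4 : revB b D (z : ℕ) = revB b t z * b ^ s + revB b s (z / b ^ t) := by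
      have h5 := revB_split b t s (z : ℕ)
      rw [hts] at h5
      exact h5
    rw [hπ, h4, Nat.add_comm, Nat.add_mul_div_right _ _ (by positivity), Nat.div_eq_of_lt (revB_lt hb s _), zero_add]
  rw [h3, h3] at hy
  have h4 := revB_inj hb t _ _ hy
  apply Fin.ext
  rw [← Nat.div_add_mod (x : ℕ) (b ^ t), ← Nat.div_add_mod (y : ℕ) (b ^ t), hx, h4]

/-- affine maps with a badly approximable multiplier -/
theorem affine_boxes {n : ℕ} (π : Equiv.Perm (Fin n)) (a c : ℕ) (hπ : ∀ x : Fin n, (π x : ℕ) = (a * x + c) % n)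
    {R : ℕ} (hR1 : 1 ≤ R)
    (hR : ∀ h : ℕ, 1 ≤ h → h < n → ∀ z : ℤ, (n : ℤ) ≤ R * h * |(a : ℤ) * h - n * z|) : Boxes π R := by
  refine scattered_boxes π hR1 ?_
  have key : ∀ x y : Fin n, (x : ℕ) < (y : ℕ) → n ≤ R * (Nat.dist (x : ℕ) (y : ℕ) * Nat.dist (π x : ℕ) (π y : ℕ)) := by
    intro x y hxy
    have hx := x.2
    have hy := y.2
    have h1 := hR ((y : ℕ) - x) (by omega) (by omega) (((a * y + c) / n : ℕ) - ((a * x + c) / n : ℕ) : ℤ)
    have h2 := Nat.div_add_mod (a * (x : ℕ) + c) n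
    have h3 := Nat.div_add_mod (a * (y : ℕ) + c) n
    rw [← hπ] at h2 h3
    have h4 : (a : ℤ) * (((y : ℕ) - (x : ℕ) : ℕ) : ℤ) - n * ((((a * y + c) / n : ℕ) : ℤ) - (((a * x + c) / n : ℕ) : ℤ)) =
        ((π y : ℕ) : ℤ) - ((π x : ℕ) : ℤ) := by
      have h2' : (n : ℤ) * (((a * (x : ℕ) + c) / n : ℕ) : ℤ) + ((π x : ℕ) : ℤ) = (a : ℤ) * ((x : ℕ) : ℤ) + c := by
        exact_mod_cast h2
      have h3' : (n : ℤ) * (((a * (y : ℕ) + c) / n : ℕ) : ℤ) + ((π y : ℕ) : ℤ) = (a : ℤ) * ((y : ℕ) : ℤ) + c := by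
        exact_mod_cast h3
      rw [Nat.cast_sub hxy.le]
      linear_combination h2' - h3'
    rw [h4] at h1
    have h5 : |((π y : ℕ) : ℤ) - ((π x : ℕ) : ℤ)| = (Nat.dist (π x : ℕ) (π y : ℕ) : ℤ) := by
      unfold Nat.dist
      rcases le_total (π x : ℕ) (π y : ℕ) with h | h
      · rw [abs_of_nonneg (by omega)]
        omega
      · rw [abs_of_nonpos (by omega)]
        omega
    have h6 : (y : ℕ) - (x : ℕ) = Nat.dist (x : ℕ) (y : ℕ) := by
      unfold Nat.dist
      omega
    rw [h5, h6] at h1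
    have h7 : (n : ℤ) ≤ ((R * (Nat.dist (x : ℕ) (y : ℕ) * Nat.dist (π x : ℕ) (π y : ℕ)) : ℕ) : ℤ) := by
      push_cast
      linarith [h1, mul_assoc (R : ℤ) (Nat.dist (x : ℕ) (y : ℕ) : ℤ) (Nat.dist (π x : ℕ) (π y : ℕ) : ℤ)]
    exact_mod_cast h7
  intro x y hxy
  rcases lt_or_gt_of_ne (fun h => hxy (Fin.ext h) : (x : ℕ) ≠ (y : ℕ)) with h | h
  · exact key x y h
  · rw [Nat.dist_comm (x : ℕ) (y : ℕ), Nat.dist_comm (π x : ℕ) (π y : ℕ)]
    exact key y x h

/-- the reversal of the digits is a permutation -/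
theorem exists_rev {b : ℕ} (hb : 1 ≤ b) (D : ℕ) : ∃ π : Equiv.Perm (Fin (b ^ D)), ∀ x, (π x : ℕ) = revB b D x :=
  ⟨Equiv.ofBijective (fun x => (⟨revB b D x, revB_lt hb D x⟩ : Fin (b ^ D))) (by
    rw [← Finite.injective_iff_bijective]
    intro x y h
    have h1 : revB b D x = revB b D y := congrArg (fun z : Fin (b ^ D) => (z : ℕ)) h
    have h2 := revB_inj hb D x y h1
    rw [Nat.mod_eq_of_lt x.2, Nat.mod_eq_of_lt y.2] at h2
    exact Fin.ext h2), fun _ => rfl⟩

/-- affine maps with a badly approximable multiplier -/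
theorem exists_affine {n : ℕ} (hn : 1 ≤ n) (a c : ℕ) {R : ℕ} (hR1 : 1 ≤ R)
    (hR : ∀ h : ℕ, 1 ≤ h → h < n → ∀ z : ℤ, (n : ℤ) ≤ R * h * |(a : ℤ) * h - n * z|) :
    ∃ π : Equiv.Perm (Fin n), (∀ x : Fin n, (π x : ℕ) = (a * x + c) % n) ∧ Boxes π R := by
  have key : ∀ x y : Fin n, (x : ℕ) < (y : ℕ) → (a * (x : ℕ) + c) % n ≠ (a * (y : ℕ) + c) % n := by
    intro x y hxy h
    have h1 : n ∣ (a * (y : ℕ) + c) - (a * (x : ℕ) + c) := (Nat.modEq_iff_dvd' (by
      have := Nat.mul_le_mul_left a hxy.le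
      omega)).1 h
    obtain ⟨z, hz⟩ := h1
    have h2 := hR ((y : ℕ) - x) (by omega) (by have := y.2; omega) z
    have h3 : a * (y : ℕ) = a * (x : ℕ) + n * z := by
      have := Nat.mul_le_mul_left a hxy.le
      omega
    have h4 : (a : ℤ) * (((y : ℕ) - (x : ℕ) : ℕ) : ℤ) - n * (z : ℤ) = 0 := by
      rw [Nat.cast_sub hxy.le]
      have h3' : (a : ℤ) * ((y : ℕ) : ℤ) = (a : ℤ) * ((x : ℕ) : ℤ) + n * (z : ℤ) := by exact_mod_cast h3
      linear_combination h3'
    rw [h4, abs_zero, mul_zero] at h2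
    omega
  obtain ⟨π, hπ⟩ : ∃ π : Equiv.Perm (Fin n), ∀ x : Fin n, (π x : ℕ) = (a * x + c) % n :=
    ⟨Equiv.ofBijective (fun x => (⟨(a * (x : ℕ) + c) % n, Nat.mod_lt _ (by omega)⟩ : Fin n)) (by
      rw [← Finite.injective_iff_bijective]
      intro x y h
      have h1 : (a * (x : ℕ) + c) % n = (a * (y : ℕ) + c) % n := congrArg (fun z : Fin n => (z : ℕ)) h
      rcases lt_trichotomy (x : ℕ) (y : ℕ) with h2 | h2 | h2
      · exact absurd h1 (key x y h2)
      · exact Fin.ext h2
      · exact absurd h1.symm (key y x h2)), fun _ => rfl⟩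
  exact ⟨π, hπ, affine_boxes π a c hπ hR1 hR⟩

/-- the ratio for nets in base `2` -/
lemma net_const {K : ℝ} (hK : 1 ≤ K) : 2100 * (1 + 2 * ((2 * (2 + 1) : ℕ) : ℝ)) *
    (1 + Real.logb 2 (8 * K * (1 + 2 * ((2 * (2 + 1) : ℕ) : ℝ)))) ≤ 220000 * (1 + Real.logb 2 K) := by
  have h1 : Real.logb 2 (8 * K * (1 + 2 * ((2 * (2 + 1) : ℕ) : ℝ))) = Real.logb 2 104 + Real.logb 2 K := by
    rw [← Real.logb_mul (by norm_num) (by positivity)]
    congr 1
    push_cast
    ring
  have h2 : Real.logb 2 104 ≤ 7 := by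
    rw [Real.logb_le_iff_le_rpow (by norm_num) (by norm_num)]
    norm_num
  have h3 : 0 ≤ Real.logb 2 K := Real.logb_nonneg (by norm_num) hK
  rw [h1]
  push_cast
  nlinarith

end Pool.Agent.Zk77.Spl
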