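import Pool.Agent.Zk77.Spl.Dil

/-!
# Request sequences whose differences are evenly distributed (helper77)
-/

set_option autoImplicit false

namespace Pool.Agent.Zk77.Spl

open Finset Pool.Agent.H581R2.Splay Pool.Agent.TH49.Spl Pool.Agent.Y395.SP Pool.Agent.N724.TW

/-- the windows `[t + i q, t + (i + 1) q)`, `i < m` -/
def wins (q : ℕ) : ℕ → ℕ → List (List ℕ)
  | 0, _ => []
  | m + 1, t => List.range' t q :: wins q m (t + q)

lemma wins_length (q : ℕ) : ∀ m t : ℕ, (wins q m t).length = m
  | 0, _ => rfl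
  | m + 1, t => by rw [wins, List.length_cons, wins_length q m]

lemma wins_flatten (q : ℕ) : ∀ m t : ℕ, (wins q m t).flatten = List.range' t (m * q)
  | 0, t => by simp [wins]
  | m + 1, t => by
    rw [wins, List.flatten_cons, wins_flatten q m (t + q)]
    have : (m + 1) * q = q + m * q := by ring
    rw [this]
    have h := List.range'_append (s := t) (m := q) (n := m * q) (step := 1)
    simpa using h

lemma mem_wins (q : ℕ) : ∀ (m t : ℕ) (W : List ℕ), W ∈ wins q m t → ∃ i < m, W = List.range' (t + i * q) q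
  | 0, _, W, h => by simp [wins] at h
  | m + 1, t, W, h => by
    rw [wins, List.mem_cons] at h
    rcases h with rfl | h
    · exact ⟨0, by omega, by simp⟩
    · obtain ⟨i, hi, rfl⟩ := mem_wins q m (t + q) W h
      refine ⟨i + 1, by omega, ?_⟩
      congr 1
      ring

lemma esum_wins (q : ℕ) (em : List ℕ → ℝ) : ∀ P t : ℕ,
    esum em (wins q (2 * P) t) = ∑ i ∈ Finset.range (2 * P), em (List.range' (t + i * q) q)
  | 0, t => by simp [wins, esum]
  | P + 1, t => by
    have e1 : 2 * (P + 1) = 2 * P + 1 + 1 := by ring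
    rw [e1, wins, wins, esum, esum_wins q em P (t + q + q), Finset.sum_range_succ', Finset.sum_range_succ']
    have e2 : ∀ i, t + q + q + i * q = t + (i + 1 + 1) * q := fun i => by ring
    simp only [e2, zero_add, one_mul, zero_mul, add_zero]
    ring

lemma range_toFinset (t q : ℕ) : (List.range' t q).toFinset = Finset.Ico t (t + q) := by
  ext x
  rw [List.mem_toFinset, Finset.mem_Ico, List.mem_range'_1]

/-- collisions inside a window -/
lemma coll_window (k : ℕ) (f : ℕ → ℕ) (t q : ℕ) :
    coll k f (Finset.Ico t (t + q)) = 2 * ∑ h ∈ Finset.Ico 1 q, ∑ r ∈ Finset.range (q - h),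
      (if f (t + r) / k = f (t + r + h) / k then 1 else 0) := by
  classical
  unfold coll
  have h1 : (Finset.Ico t (t + q)).offDiag.filter (fun z => f z.1 / k = f z.2 / k) =
      ((Finset.Ico t (t + q)).offDiag.filter (fun z => z.1 < z.2 ∧ f z.1 / k = f z.2 / k)) ∪
      ((Finset.Ico t (t + q)).offDiag.filter (fun z => z.2 < z.1 ∧ f z.1 / k = f z.2 / k)) := by
    ext z
    simp only [Finset.mem_filter, Finset.mem_union, Finset.mem_offDiag]
    constructor
    · rintro ⟨⟨a, b, c⟩, d⟩
      rcases lt_or_gt_of_ne c with h | h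
      · exact Or.inl ⟨⟨a, b, c⟩, h, d⟩
      · exact Or.inr ⟨⟨a, b, c⟩, h, d⟩
    · rintro (⟨a, _, d⟩ | ⟨a, _, d⟩)
      · exact ⟨a, d⟩
      · exact ⟨a, d⟩
  have h2 : Disjoint ((Finset.Ico t (t + q)).offDiag.filter (fun z => z.1 < z.2 ∧ f z.1 / k = f z.2 / k))
      ((Finset.Ico t (t + q)).offDiag.filter (fun z => z.2 < z.1 ∧ f z.1 / k = f z.2 / k)) := by
    rw [Finset.disjoint_left]
    intro z hz hz'
    rw [Finset.mem_filter] at hz hz'
    omega
  have h3 : ((Finset.Ico t (t + q)).offDiag.filter (fun z => z.2 < z.1 ∧ f z.1 / k = f z.2 / k)).card =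
      ((Finset.Ico t (t + q)).offDiag.filter (fun z => z.1 < z.2 ∧ f z.1 / k = f z.2 / k)).card := by
    apply Finset.card_nbij' Prod.swap Prod.swap
    · intro z hz
      rw [Finset.mem_coe, Finset.mem_filter, Finset.mem_offDiag] at hz ⊢
      exact ⟨⟨hz.1.2.1, hz.1.1, fun h => hz.1.2.2 h.symm⟩, hz.2.1, hz.2.2.symm⟩
    · intro z hz
      rw [Finset.mem_coe, Finset.mem_filter, Finset.mem_offDiag] at hz ⊢
      exact ⟨⟨hz.1.2.1, hz.1.1, fun h => hz.1.2.2 h.symm⟩, hz.2.1, hz.2.2.symm⟩
    · intro z _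
      exact Prod.swap_swap z
    · intro z _
      exact Prod.swap_swap z
  have h4 : ((Finset.Ico t (t + q)).offDiag.filter (fun z => z.1 < z.2 ∧ f z.1 / k = f z.2 / k)).card =
      ∑ h ∈ Finset.Ico 1 q, ∑ r ∈ Finset.range (q - h), (if f (t + r) / k = f (t + r + h) / k then 1 else 0) := by
    rw [Finset.sum_sigma', ← Finset.card_filter]
    apply Finset.card_nbij' (fun z => (⟨z.2 - z.1, z.1 - t⟩ : Σ _ : ℕ, ℕ)) (fun z => (t + z.2, t + z.2 + z.1))
    · intro z hz
      rw [Finset.mem_coe, Finset.mem_filter, Finset.mem_offDiag, Finset.mem_Ico, Finset.mem_Ico] at hz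
      rw [Finset.mem_coe, Finset.mem_filter, Finset.mem_sigma, Finset.mem_Ico, Finset.mem_range]
      obtain ⟨⟨hz1, hz2, hz3⟩, hz4, hz5⟩ := hz
      refine ⟨⟨⟨by change 1 ≤ z.2 - z.1; omega, by change z.2 - z.1 < q; omega⟩,
        by change z.1 - t < q - (z.2 - z.1); omega⟩, ?_⟩
      simp only
      have e1 : t + (z.1 - t) = z.1 := by omega
      have e2 : z.1 + (z.2 - z.1) = z.2 := by omega
      rw [e1, e2]
      exact hz5
    · intro z hz
      rw [Finset.mem_coe, Finset.mem_filter, Finset.mem_sigma, Finset.mem_Ico, Finset.mem_range] at hz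
      rw [Finset.mem_coe, Finset.mem_filter, Finset.mem_offDiag, Finset.mem_Ico, Finset.mem_Ico]
      refine ⟨⟨by simp only; omega, by simp only; omega, by simp only; omega⟩, by simp only; omega, hz.2⟩
    · intro z hz
      rw [Finset.mem_coe, Finset.mem_filter, Finset.mem_offDiag, Finset.mem_Ico, Finset.mem_Ico] at hz
      apply Prod.ext
      · simp only
        omega
      · simp only
        omega
    · intro z hz
      rw [Finset.mem_coe, Finset.mem_filter, Finset.mem_sigma, Finset.mem_Ico, Finset.mem_range] at hz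
      obtain ⟨h, r⟩ := z
      simp only at hz ⊢
      congr 1
      · omega
      · omega
  rw [h1, Finset.card_union_of_disjoint h2, h3, h4, two_mul]

/-- a double sum over offsets and windows -/
lemma sum_offsets (q m : ℕ) (g : ℕ → ℕ) :
    ∑ t ∈ Finset.range q, ∑ i ∈ Finset.range m, g (t + i * q) = ∑ s ∈ Finset.range (m * q), g s := by
  induction m with
  | zero => simp
  | succ m ih =>
    have e : (m + 1) * q = m * q + q := by ring
    rw [e, Finset.sum_range_add, ← ih, ← Finset.sum_add_distrib]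
    refine Finset.sum_congr rfl fun t _ => ?_
    rw [Finset.sum_range_succ]
    congr 2
    ring

/-- the total number of the collisions inside the windows, over all offsets -/
lemma coll_total (k : ℕ) (f : ℕ → ℕ) (q P M : ℕ) (hM : (2 * P + 1) * q ≤ M) :
    ∑ t ∈ Finset.range q, ∑ i ∈ Finset.range (2 * P), coll k f (Finset.Ico (t + i * q) (t + i * q + q)) ≤
      2 * ∑ h ∈ Finset.Ico 1 q, (q - h) * ((Finset.range (M - h)).filter (fun s => f s / k = f (s + h) / k)).card := by
  classical
  have h1 : ∑ t ∈ Finset.range q, ∑ i ∈ Finset.range (2 * P), coll k f (Finset.Ico (t + i * q) (t + i * q + q)) =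
      ∑ s ∈ Finset.range (2 * P * q), coll k f (Finset.Ico s (s + q)) :=
    sum_offsets q (2 * P) (fun s => coll k f (Finset.Ico s (s + q)))
  rw [h1]
  have h2 : ∑ s ∈ Finset.range (2 * P * q), coll k f (Finset.Ico s (s + q)) =
      2 * ∑ h ∈ Finset.Ico 1 q, ∑ r ∈ Finset.range (q - h), ∑ s ∈ Finset.range (2 * P * q),
        (if f (s + r) / k = f (s + r + h) / k then 1 else 0) := by
    rw [Finset.sum_congr rfl fun s _ => coll_window k f s q, ← Finset.mul_sum]
    congr 1
    rw [Finset.sum_comm]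
    refine Finset.sum_congr rfl fun h _ => ?_
    exact Finset.sum_comm
  rw [h2]
  apply Nat.mul_le_mul_left
  refine Finset.sum_le_sum fun h hh => ?_
  rw [Finset.mem_Ico] at hh
  have h3 : ∀ r ∈ Finset.range (q - h), ∑ s ∈ Finset.range (2 * P * q),
      (if f (s + r) / k = f (s + r + h) / k then 1 else 0) ≤
      ((Finset.range (M - h)).filter (fun s => f s / k = f (s + h) / k)).card := by
    intro r hr
    rw [Finset.mem_range] at hr
    rw [← Finset.card_filter]
    apply Finset.card_le_card_of_injOn (fun s => s + r)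
    · intro s hs
      rw [Finset.mem_coe, Finset.mem_filter, Finset.mem_range] at hs
      rw [Finset.mem_coe, Finset.mem_filter, Finset.mem_range]
      refine ⟨?_, hs.2⟩
      have e : (2 * P + 1) * q = 2 * P * q + q := by ring
      have hs1 := hs.1
      simp only
      omega
    · intro s _ s' _ h
      simp only at h
      omega
  refine (Finset.sum_le_sum h3).trans ?_
  rw [Finset.sum_const, Finset.card_range, smul_eq_mul]

/-- the number of changes on a level -/
def lsum (N k : ℕ) (Y : List ℕ) : ℕ :=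
  ∑ i ∈ Finset.range N, cnt (i * (2 * k)) (i * (2 * k) + k) ((i + 1) * (2 * k)) false Y

lemma lsum_ge (N k : ℕ) (hk : 1 ≤ k) (f : ℕ → ℕ) (q P M t : ℕ) (ht : t < q) (hM : (2 * P + 1) * q ≤ M) :
    psum (both N k f) (wins q (2 * P) t) ≤ lsum N k ((List.range M).map f) := by
  have e : List.range M = List.range t ++ ((wins q (2 * P) t).flatten ++
      List.range' (t + 2 * P * q) (M - (t + 2 * P * q))) := by
    rw [wins_flatten, List.range_eq_range', List.range_eq_range']
    have h1 := List.range'_append (s := t) (m := 2 * P * q) (n := M - (t + 2 * P * q)) (step := 1)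
    rw [one_mul] at h1
    rw [h1]
    have h2 := List.range'_append (s := 0) (m := t) (n := 2 * P * q + (M - (t + 2 * P * q))) (step := 1)
    rw [one_mul, zero_add] at h2
    rw [h2]
    congr 1
    have e : (2 * P + 1) * q = 2 * P * q + q := by ring
    omega
  rw [e]
  unfold lsum
  have h := psum_le N k hk f (wins q (2 * P) t) (List.range' (t + 2 * P * q) (M - (t + 2 * P * q)))
    (fun i => stt (i * (2 * k)) (i * (2 * k) + k) ((i + 1) * (2 * k)) false ((List.range t).map f))
  refine h.trans (Finset.sum_le_sum fun i _ => ?_)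
  have e2 : (List.range t ++ ((wins q (2 * P) t).flatten ++ List.range' (t + 2 * P * q) (M - (t + 2 * P * q)))).map f =
      (List.range t).map f ++
        ((wins q (2 * P) t).flatten ++ List.range' (t + 2 * P * q) (M - (t + 2 * P * q))).map f := List.map_append
  rw [e2, cnt_append]
  exact Nat.le_add_left _ _

/-- **One level, all shifts.** -/
theorem level {n M : ℕ} (hn : 1 ≤ n) (y : ℕ → ℕ) (hy : ∀ s, y s < n) (k L : ℕ) (hk : 1 ≤ k) (hkn : 96 * k ≤ n)
    (q : ℕ) (hq1 : 32 * n ≤ q * k) (hq2 : q * k ≤ 33 * n) (hqM : 131 * q ≤ M)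
    (hD : ∀ h, 1 ≤ h → h < q → 32 * n * ∑ s ∈ Finset.range (M - h), (k - Nat.dist (y s) (y (s + h))) ≤ 33 * M * k ^ 2)
    (N : ℕ) (hN : k * L + n ≤ N * (2 * k)) :
    ((k * L : ℕ) : ℝ) * M ≤ 528 * ∑ c ∈ Finset.range (k * L), (lsum N k ((List.range M).map (fun s => y s + c)) : ℝ) := by
  classical
  have hn0 : (1 : ℝ) ≤ n := by exact_mod_cast hn
  have hk0 : (1 : ℝ) ≤ k := by exact_mod_cast hk
  have hq0 : 1 ≤ q := by
    by_contra h
    have : q = 0 := by omega
    subst this
    omega
  have hq0' : (1 : ℝ) ≤ q := by exact_mod_cast hq0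
  obtain ⟨P, hP⟩ : ∃ P : ℕ, P = (M / q - 1) / 2 := ⟨_, rfl⟩
  have hMq : 131 ≤ M / q := (Nat.le_div_iff_mul_le (by omega)).2 hqM
  have hP1 : 2 * P + 1 ≤ M / q := by omega
  have hP2 : M / q ≤ 2 * P + 2 := by omega
  have hP3 : 65 ≤ P := by omega
  have hPM : (2 * P + 1) * q ≤ M := by
    calc (2 * P + 1) * q ≤ M / q * q := Nat.mul_le_mul_right _ hP1
      _ ≤ M := Nat.div_mul_le_self _ _
  have hMP : M ≤ (2 * P + 3) * q := by
    have h1 := Nat.lt_div_mul_add (a := M) (b := q) (by omega)
    have h2 : M / q * q + q ≤ (2 * P + 2) * q + q := Nat.add_le_add_right (Nat.mul_le_mul_right _ hP2) _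
    have h3 : (2 * P + 2) * q + q = (2 * P + 3) * q := by ring
    omega
  obtain ⟨K, hK⟩ : ∃ K : ℕ, K = k * L := ⟨_, rfl⟩
  obtain ⟨G, hG⟩ : ∃ G : ℕ → ℕ → ℕ, G = fun c h => ((Finset.range (M - h)).filter
    (fun s => (y s + c) / k = (y (s + h) + c) / k)).card := ⟨_, rfl⟩
  -- lower bound for one shift
  have h1 : ∀ c ∈ Finset.range (k * L),
      (q : ℝ) * (P * (n / (2 * k) - 2)) - (q * (2 * P) * (q * (n / (q * k)) ^ 2 - n / k + 2) +
        (2 * ∑ h ∈ Finset.Ico 1 q, ((q - h : ℕ) : ℝ) * G c h) * (n / (q * k)) ^ 2) ≤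
      q * (lsum N k ((List.range M).map (fun s => y s + c)) : ℝ) := by
    intro c hc
    rw [Finset.mem_range] at hc
    obtain ⟨f, hf⟩ : ∃ f : ℕ → ℕ, f = fun s => y s + c := ⟨_, rfl⟩
    obtain ⟨em, hem⟩ : ∃ em : List ℕ → ℝ, em = fun W => (emp k c n f W.toFinset : ℝ) := ⟨_, rfl⟩
    have hNc : c + n ≤ N * (2 * k) := by omega
    have h2 : ∀ t ∈ Finset.range q, (P : ℝ) * (n / (2 * k) - 2) -
        ∑ i ∈ Finset.range (2 * P), em (List.range' (t + i * q) q) ≤
        (lsum N k ((List.range M).map f) : ℝ) := by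
      intro t ht
      rw [Finset.mem_range] at ht
      have h3 := lsum_ge N k hk f q P M t ht hPM
      have h4 := psum_ge (both N k f) ((n : ℝ) / (2 * k) - 2) em (wins q (2 * P) t) (fun W _ W' _ => by
        rw [hem]
        exact both_ge hk hn hNc f W W')
      rw [wins_length, esum_wins] at h4
      have e1 : 2 * P / 2 = P := by omega
      rw [e1] at h4
      have h5 : (psum (both N k f) (wins q (2 * P) t) : ℝ) ≤ (lsum N k ((List.range M).map f) : ℝ) := by
        exact_mod_cast h3
      linarith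
    have h3 := Finset.sum_le_sum h2
    rw [Finset.sum_sub_distrib, Finset.sum_const, Finset.sum_const, Finset.card_range, nsmul_eq_mul, nsmul_eq_mul] at h3
    have h4 : ∑ t ∈ Finset.range q, ∑ i ∈ Finset.range (2 * P), em (List.range' (t + i * q) q) ≤
        q * (2 * P) * (q * (n / (q * k)) ^ 2 - n / k + 2) +
        (2 * ∑ h ∈ Finset.Ico 1 q, ((q - h : ℕ) : ℝ) * G c h) * (n / (q * k)) ^ 2 := by
      have h5 : ∀ t ∈ Finset.range q, ∀ i ∈ Finset.range (2 * P), em (List.range' (t + i * q) q) ≤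
          (q * ((n : ℝ) / (q * k)) ^ 2 - n / k + 2) +
          (coll k f (Finset.Ico (t + i * q) (t + i * q + q)) : ℝ) * ((n : ℝ) / (q * k)) ^ 2 := by
        intro t _ i _
        rw [hem]
        simp only
        rw [range_toFinset]
        have hc1 : (Finset.Ico (t + i * q) (t + i * q + q)).card = q := by
          rw [Nat.card_Ico]
          omega
        have h6 := emp_le (k := k) (c := c) (n := n) (f := f) (Q := Finset.Ico (t + i * q) (t + i * q + q)) hk hn
          (by rw [← Finset.card_pos, hc1]; omega) (fun x _ => by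
            rw [hf]
            have := hy x
            simp only
            omega)
        rw [hc1] at h6
        refine h6.trans (le_of_eq ?_)
        ring
      refine (Finset.sum_le_sum fun t ht => Finset.sum_le_sum fun i hi => h5 t ht i hi).trans ?_
      have e1 : ∑ t ∈ Finset.range q, ∑ i ∈ Finset.range (2 * P), ((q * ((n : ℝ) / (q * k)) ^ 2 - n / k + 2) +
          (coll k f (Finset.Ico (t + i * q) (t + i * q + q)) : ℝ) * ((n : ℝ) / (q * k)) ^ 2) =
          q * (2 * P) * (q * (n / (q * k)) ^ 2 - n / k + 2) +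
          (∑ t ∈ Finset.range q, ∑ i ∈ Finset.range (2 * P),
            (coll k f (Finset.Ico (t + i * q) (t + i * q + q)) : ℝ)) * ((n : ℝ) / (q * k)) ^ 2 := by
        simp only [Finset.sum_add_distrib, Finset.sum_const, Finset.card_range, nsmul_eq_mul, ← Finset.sum_mul]
        push_cast
        ring
      rw [e1]
      have h6 := coll_total k f q P M hPM
      have h7 : (∑ t ∈ Finset.range q, ∑ i ∈ Finset.range (2 * P),
            (coll k f (Finset.Ico (t + i * q) (t + i * q + q)) : ℝ)) ≤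
          2 * ∑ h ∈ Finset.Ico 1 q, ((q - h : ℕ) : ℝ) * G c h := by
        have e2 : ∀ h, G c h = ((Finset.range (M - h)).filter (fun s => f s / k = f (s + h) / k)).card := by
          intro h
          rw [hG, hf]
        simp only [e2]
        exact_mod_cast h6
      have h8 := mul_le_mul_of_nonneg_right h7 (sq_nonneg ((n : ℝ) / (q * k)))
      linarith
    rw [← hf]
    linarith
  have h2 := Finset.sum_le_sum h1
  rw [Finset.sum_sub_distrib, Finset.sum_add_distrib, Finset.sum_const, Finset.sum_const, Finset.card_range,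
    nsmul_eq_mul, nsmul_eq_mul, ← Finset.mul_sum, ← Finset.sum_mul, ← Finset.mul_sum, ← hK] at h2
  -- the collisions
  have h3 : ∑ c ∈ Finset.range K, ∑ h ∈ Finset.Ico 1 q, ((q - h : ℕ) : ℝ) * G c h ≤
      (q : ℝ) ^ 2 / 2 * (K * (33 / 32 * M * k / n)) := by
    rw [Finset.sum_comm]
    have h4 : ∀ h ∈ Finset.Ico 1 q, ∑ c ∈ Finset.range K, ((q - h : ℕ) : ℝ) * G c h ≤
        ((q - h : ℕ) : ℝ) * (K * (33 / 32 * M * k / n)) := by
      intro h hh
      rw [Finset.mem_Ico] at hh
      rw [← Finset.mul_sum]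
      apply mul_le_mul_of_nonneg_left _ (Nat.cast_nonneg _)
      have e1 : ∑ c ∈ Finset.range K, G c h = L * ∑ s ∈ Finset.range (M - h), (k - Nat.dist (y s) (y (s + h))) := by
        rw [hG, hK, Finset.mul_sum]
        simp only [Finset.card_filter]
        rw [Finset.sum_comm]
        refine Finset.sum_congr rfl fun s _ => ?_
        rw [← Finset.card_filter]
        exact count_shift hk L _ _
      have e2 : ∑ c ∈ Finset.range K, (G c h : ℝ) =
          L * ((∑ s ∈ Finset.range (M - h), (k - Nat.dist (y s) (y (s + h))) : ℕ) : ℝ) := by exact_mod_cast e1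
      rw [e2]
      have h5 := hD h hh.1 hh.2
      have h6 : (32 : ℝ) * n * ((∑ s ∈ Finset.range (M - h), (k - Nat.dist (y s) (y (s + h))) : ℕ) : ℝ) ≤
          33 * M * k ^ 2 := by exact_mod_cast h5
      have e3 : (K : ℝ) * (33 / 32 * M * k / n) = L * (33 * M * k ^ 2 / (32 * n)) := by
        rw [hK]
        push_cast
        field_simp
      rw [e3]
      apply mul_le_mul_of_nonneg_left _ (Nat.cast_nonneg _)
      rw [le_div_iff₀ (by positivity)]
      linarith
    refine (Finset.sum_le_sum h4).trans ?_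
    rw [← Finset.sum_mul]
    apply mul_le_mul_of_nonneg_right _ (by positivity)
    have e4 : ∑ h ∈ Finset.Ico 1 q, (q - h) ≤ q * (q - 1) / 2 := by
      have h5 : 2 * ∑ d ∈ Finset.Ico 1 q, (q - d) ≤ q * (q - 1) := by
        have h6 : ∑ d ∈ Finset.Ico 1 q, (q - d) = ∑ d ∈ Finset.range q, d := by
          have h7 := Finset.sum_range_reflect (fun d => d) q
          rw [← h7, Finset.range_eq_Ico, Finset.sum_eq_sum_Ico_succ_bot (by omega : 0 < q)]
          have h8 : ∀ d ∈ Finset.Ico 1 q, q - d = (q - 1 - d) + 1 := by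
            intro d hd
            rw [Finset.mem_Ico] at hd
            omega
          rw [Finset.sum_congr rfl h8, Finset.sum_add_distrib, Finset.sum_const, Nat.card_Ico, smul_eq_mul, mul_one]
          simp only [tsub_zero]
          ring
        have h7 := Finset.sum_range_id_mul_two q
        omega
      omega
    have e5 : ∑ h ∈ Finset.Ico 1 q, ((q - h : ℕ) : ℝ) ≤ ((q * (q - 1) / 2 : ℕ) : ℝ) := by exact_mod_cast e4
    refine e5.trans ?_
    have e6 : ((q * (q - 1) / 2 : ℕ) : ℝ) ≤ ((q * (q - 1) : ℕ) : ℝ) / ((2 : ℕ) : ℝ) := Nat.cast_div_le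
    refine e6.trans ?_
    push_cast
    apply div_le_div_of_nonneg_right _ (by norm_num)
    have e7 : ((q - 1 : ℕ) : ℝ) ≤ q := by exact_mod_cast Nat.sub_le q 1
    nlinarith
  -- numbers
  obtain ⟨S, hS⟩ : ∃ S : ℝ, S = ∑ c ∈ Finset.range K, (lsum N k ((List.range M).map (fun s => y s + c)) : ℝ) :=
    ⟨_, rfl⟩
  rw [← hS] at h2
  rw [← hK, ← hS]
  have hKr : (0 : ℝ) ≤ K := Nat.cast_nonneg _
  obtain ⟨w, hw⟩ : ∃ w : ℝ, w = n / k := ⟨_, rfl⟩
  have hw96 : 96 ≤ w := by
    rw [hw, le_div_iff₀ (by linarith)]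
    exact_mod_cast hkn
  have hqw1 : 32 * w ≤ q := by
    rw [hw, ← mul_div_assoc, div_le_iff₀ (by linarith)]
    exact_mod_cast hq1
  have hqw2 : (q : ℝ) ≤ 33 * w := by
    rw [hw, ← mul_div_assoc, le_div_iff₀ (by linarith)]
    exact_mod_cast hq2
  have hMPr : (M : ℝ) ≤ (2 * P + 3) * q := by exact_mod_cast hMP
  have hPr : (65 : ℝ) ≤ P := by exact_mod_cast hP3
  have hMr : (0 : ℝ) ≤ M := Nat.cast_nonneg _
  have e1 : (n : ℝ) / (2 * k) = w / 2 := by rw [hw]; field_simp
  have e2 : (n : ℝ) / (q * k) = w / q := by rw [hw]; field_simp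
  have e3 : (n : ℝ) / k = w := hw.symm
  rw [e1, e2, e3] at h2
  have h4 : (2 * ∑ c ∈ Finset.range K, ∑ h ∈ Finset.Ico 1 q, ((q - h : ℕ) : ℝ) * G c h) * (w / q) ^ 2 ≤
      K * (33 / 32 * M * w) := by
    have h5 := mul_le_mul_of_nonneg_right (mul_le_mul_of_nonneg_left h3 (by norm_num : (0 : ℝ) ≤ 2))
      (sq_nonneg (w / q))
    refine h5.trans (le_of_eq ?_)
    have e4 : (33 / 32 * (M : ℝ) * k / n) = 33 / 32 * M / w := by
      rw [hw]
      field_simp
    rw [e4]
    have hw0 : w ≠ 0 := by linarith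
    field_simp
  have h5 : (K : ℝ) * (q * (P * (w / 2 - 2))) -
      (K * (q * (2 * P) * (q * (w / q) ^ 2 - w + 2)) + K * (33 / 32 * M * w)) ≤ q * S := by
    linarith
  -- `q S ≥ K q w P / 4`
  have h6 : (K : ℝ) * (q * (w * P / 4)) ≤
      (K : ℝ) * (q * (P * (w / 2 - 2))) - (K * (q * (2 * P) * (q * (w / q) ^ 2 - w + 2)) + K * (33 / 32 * M * w)) := by
    have e4 : (q : ℝ) * (w / q) ^ 2 = w * (w / q) := by
      field_simp
    have h7 : w / q ≤ 1 / 32 := by
      rw [div_le_iff₀ (by linarith)]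
      linarith
    have h8 : (33 / 32 * (M : ℝ) * w) ≤ 33 / 32 * ((2 * P + 3) * q) * w := by
      apply mul_le_mul_of_nonneg_right _ (by linarith)
      linarith
    have h9 : w * (w / q) ≤ w * (1 / 32) := mul_le_mul_of_nonneg_left h7 (by linarith)
    rw [e4]
    have h10 : (q : ℝ) * (w * P / 4) ≤ q * (P * (w / 2 - 2)) - (q * (2 * P) * (w * (1 / 32) - w + 2) +
        33 / 32 * ((2 * P + 3) * q) * w) := by
      have h11 : w * (P : ℝ) / 4 ≤ (P * (w / 2 - 2)) - ((2 * P) * (w * (1 / 32) - w + 2) +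
          33 / 32 * (2 * P + 3) * w) := by
        have h12 : 65 * w ≤ P * w := mul_le_mul_of_nonneg_right hPr (by linarith)
        have h13 : 96 * (P : ℝ) ≤ P * w := by
          rw [mul_comm]
          exact mul_le_mul_of_nonneg_left hw96 (by linarith)
        nlinarith
      have h14 := mul_le_mul_of_nonneg_left h11 (by linarith : (0 : ℝ) ≤ q)
      linarith
    have h15 : (q : ℝ) * (2 * P) * (w * (w / q) - w + 2) ≤ q * (2 * P) * (w * (1 / 32) - w + 2) :=
      mul_le_mul_of_nonneg_left (by linarith) (by positivity)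
    have h16 : (q : ℝ) * (w * P / 4) ≤ q * (P * (w / 2 - 2)) - (q * (2 * P) * (w * (w / q) - w + 2) + 33 / 32 * M * w) := by
      linarith
    have h17 := mul_le_mul_of_nonneg_left h16 hKr
    linarith
  have h7 : (K : ℝ) * (w * P / 4) ≤ S := by
    have h8 := h6.trans h5
    have h9 : q * ((K : ℝ) * (w * P / 4)) ≤ q * S := by linarith
    exact le_of_mul_le_mul_left h9 (by linarith)
  have h8 : (M : ℝ) ≤ 132 * (w * P) := by
    have h9 : (2 * (P : ℝ) + 3) * q ≤ (2 * P + 3) * (33 * w) := mul_le_mul_of_nonneg_left hqw2 (by positivity)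
    have h10 : (2 * (P : ℝ) + 3) * (33 * w) ≤ 132 * (w * P) := by
      have h12 : 65 * w ≤ P * w := mul_le_mul_of_nonneg_right hPr (by linarith)
      nlinarith
    linarith
  have h9 : (K : ℝ) * M ≤ K * (132 * (w * P)) := mul_le_mul_of_nonneg_left h8 hKr
  nlinarith

end Pool.Agent.Zk77.Spl
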