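import Pool.Agent.Zk77.Spl.Sep
import Pool.Agent.Zk77.Spl.Seq

/-!
# Sequences with bounded pair correlations (helper77)
-/

set_option autoImplicit false

namespace Pool.Agent.Zk77.Spl

open Finset Pool.Agent.H581R2.Splay Pool.Agent.TH49.Spl Pool.Agent.Y395.SP Pool.Agent.N724.TW

/-- number of the pairs at distance `h` in the same block -/
def pc (M : ℕ) (f : ℕ → ℕ) (h k : ℕ) : ℕ := ((Finset.range (M - h)).filter (fun s => f s / k = f (s + h) / k)).card

lemma coll_wins (k : ℕ) (f : ℕ → ℕ) (q P M : ℕ) (hM : P * q ≤ M) :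
    ∑ i ∈ Finset.range P, coll k f (Finset.Ico (i * q) (i * q + q)) ≤
      2 * ∑ h ∈ Finset.Ico 1 q, pc M f h k := by
  classical
  have h1 : ∑ i ∈ Finset.range P, coll k f (Finset.Ico (i * q) (i * q + q)) =
      2 * ∑ h ∈ Finset.Ico 1 q, ∑ i ∈ Finset.range P, ∑ r ∈ Finset.range (q - h),
        (if f (i * q + r) / k = f (i * q + r + h) / k then 1 else 0) := by
    rw [Finset.sum_congr rfl fun i _ => coll_window k f (i * q) q, ← Finset.mul_sum]
    congr 1
    rw [Finset.sum_comm]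
  rw [h1]
  apply Nat.mul_le_mul_left
  refine Finset.sum_le_sum fun h hh => ?_
  rw [Finset.mem_Ico] at hh
  obtain ⟨g, hg⟩ : ∃ g : ℕ → ℕ, g = fun s => if s < M - h then (if f s / k = f (s + h) / k then 1 else 0) else 0 :=
    ⟨_, rfl⟩
  have h2 : ∀ i ∈ Finset.range P, ∑ r ∈ Finset.range (q - h),
      (if f (i * q + r) / k = f (i * q + r + h) / k then 1 else 0) ≤ ∑ r ∈ Finset.range q, g (r + i * q) := by
    intro i hi
    rw [Finset.mem_range] at hi
    refine le_trans (le_of_eq ?_) (Finset.sum_le_sum_of_subset (f := fun r => g (r + i * q))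
      (Finset.range_subset_range.2 (Nat.sub_le q h)))
    refine Finset.sum_congr rfl fun r hr => ?_
    rw [Finset.mem_range] at hr
    have h3 : (i + 1) * q ≤ P * q := Nat.mul_le_mul_right _ hi
    have h4 : (i + 1) * q = i * q + q := by ring
    rw [hg]
    simp only
    rw [if_pos (by omega : r + i * q < M - h), add_comm r (i * q)]
  refine (Finset.sum_le_sum h2).trans ?_
  rw [Finset.sum_comm, sum_offsets q P g]
  have h3 : ∑ s ∈ Finset.range (P * q), g s ≤ ∑ s ∈ Finset.range M, g s :=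
    Finset.sum_le_sum_of_subset (Finset.range_subset_range.2 hM)
  refine h3.trans ?_
  unfold pc
  rw [Finset.card_filter]
  have h4 : ∑ s ∈ Finset.range M, g s = ∑ s ∈ Finset.range (M - h), g s := by
    symm
    apply Finset.sum_subset (Finset.range_subset_range.2 (Nat.sub_le M h))
    intro s _ hs
    rw [Finset.mem_range] at hs
    rw [hg]
    simp only
    rw [if_neg hs]
  rw [h4]
  refine le_of_eq (Finset.sum_congr rfl fun s hs => ?_)
  rw [Finset.mem_range] at hs
  rw [hg]
  simp only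
  rw [if_pos hs]

lemma hits_wins (k : ℕ) (f : ℕ → ℕ) (q : ℕ) : ∀ P t : ℕ, hits k f (wins q P t) =
    ∑ i ∈ Finset.range P, ((Finset.Ico (t + i * q) (t + i * q + q)).image (fun s => f s / k)).card
  | 0, t => by simp [wins, hits]
  | P + 1, t => by
    have ih := hits_wins k f q P (t + q)
    unfold hits at ih ⊢
    rw [wins, List.map_cons, List.sum_cons, ih, Finset.sum_range_succ']
    have e : ∀ i, t + q + i * q = t + (i + 1) * q := fun i => by ring
    simp only [e, zero_mul, add_zero]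
    rw [add_comm]
    congr 1
    unfold hit
    rw [range_toFinset]

/-- **Lower bound for the optimum.** -/
theorem opt_pairs {n M H : ℕ} {T : Tr} (hT : keys T = List.range n) (hn : 1 ≤ n) (hnM : n ≤ 2 * M) (hH : 1 ≤ H)
    (hHn : H ≤ n) (hHM : 2 * H ≤ M) (y : ℕ → ℕ) (hy : ∀ s, y s < n) {C : ℝ} (hC : 1 ≤ C)
    (hp : ∀ h, 1 ≤ h → h < H → ∀ e, (n : ℝ) ≤ 8 * C * H * 2 ^ e → 2 ^ e ≤ n →
      (n : ℝ) * pc M y h (2 ^ e) ≤ C * M * 2 ^ e) :
    (M : ℝ) * Real.logb 2 H ≤ 1000 * (1 + Real.logb 2 C) * optAny (List.range n) ((List.range M).map y) := by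
  classical
  obtain ⟨D, hDdef⟩ : ∃ D : ℕ, D = Nat.clog 2 n := ⟨_, rfl⟩
  have hD : n ≤ 2 ^ D := by
    rw [hDdef]
    exact Nat.le_pow_clog (by norm_num) n
  have hD2 : 2 ^ D < 2 * n := by
    rcases Nat.lt_or_ge 1 n with h | h
    · have h1 := Nat.pow_pred_clog_lt_self (b := 2) (by norm_num) h
      rw [← hDdef] at h1
      have h2 : 1 ≤ D := by
        rw [hDdef]
        exact Nat.clog_pos (by norm_num) h
      have h3 : 2 ^ D = 2 * 2 ^ (D - 1) := by
        rw [← pow_succ']
        congr 1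
        omega
      have h4 : 2 ^ D.pred = 2 ^ (D - 1) := rfl
      omega
    · have : n = 1 := by omega
      rw [hDdef, this]
      simp
  obtain ⟨OP, hOP⟩ : ∃ OP : ℝ, OP = (optAny (List.range n) ((List.range M).map y) : ℝ) := ⟨_, rfl⟩
  have hMOP : (M : ℝ) ≤ OP := by
    have := opt_ge_len hT ((List.range M).map y)
    rw [List.length_map, List.length_range] at this
    rw [hOP]
    exact this
  have hM0 : (0 : ℝ) ≤ M := Nat.cast_nonneg _
  have hH0 : (1 : ℝ) ≤ H := by exact_mod_cast hH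
  have hn0 : (1 : ℝ) ≤ n := by exact_mod_cast hn
  -- `r`
  obtain ⟨r, hr⟩ : ∃ r : ℕ, r = ⌈Real.logb 2 (4 * C)⌉₊ := ⟨_, rfl⟩
  have hl4 : Real.logb 2 (4 * C) = 2 + Real.logb 2 C := by
    rw [Real.logb_mul (by norm_num) (by positivity)]
    congr 1
    rw [Real.logb_eq_iff_rpow_eq (by norm_num) (by norm_num) (by norm_num)]
    norm_num
  have hlC : 0 ≤ Real.logb 2 C := Real.logb_nonneg (by norm_num) hC
  have hr1 : (r : ℝ) ≤ 3 + Real.logb 2 C := by
    have := Nat.ceil_lt_add_one (a := Real.logb 2 (4 * C)) (by rw [hl4]; linarith)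
    rw [hr]
    linarith
  have hr2 : 4 * C ≤ 2 ^ r := by
    have h1 : Real.logb 2 (4 * C) ≤ (r : ℝ) := by
      rw [hr]
      exact Nat.le_ceil _
    rw [Real.logb_le_iff_le_rpow (by norm_num) (by positivity), Real.rpow_natCast] at h1
    exact h1
  have hr3 : (2 : ℝ) ^ r ≤ 8 * C := by
    have h1 : (r : ℝ) ≤ Real.logb 2 (8 * C) := by
      have e : Real.logb 2 (8 * C) = 3 + Real.logb 2 C := by
        rw [Real.logb_mul (by norm_num) (by positivity)]
        congr 1
        rw [Real.logb_eq_iff_rpow_eq (by norm_num) (by norm_num) (by norm_num)]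
        norm_num
      rw [e]
      exact hr1
    rw [Real.le_logb_iff_rpow_le (by norm_num) (by positivity), Real.rpow_natCast] at h1
    exact h1
  -- levels
  obtain ⟨L, hL⟩ : ∃ L : ℕ, L = Nat.log 2 H := ⟨_, rfl⟩
  have hL1 : 2 ^ L ≤ H := by
    rw [hL]
    exact Nat.pow_log_le_self 2 (by omega)
  have hL2 : H < 2 ^ (L + 1) := by
    rw [hL]
    exact Nat.lt_pow_succ_log_self (by norm_num) H
  have hLD : L ≤ D := by
    have h1 : 2 ^ L ≤ 2 ^ D := hL1.trans (hHn.trans hD)
    exact (Nat.pow_le_pow_iff_right (by norm_num)).1 h1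
  obtain ⟨E, hE⟩ : ∃ E : Finset ℕ, E = Finset.Icc 4 (min L (D - r)) := ⟨_, rfl⟩
  have hEmem : ∀ m ∈ E, 4 ≤ m ∧ m ≤ L ∧ m ≤ D - r := by
    intro m hm
    rw [hE, Finset.mem_Icc] at hm
    omega
  have hf : ∀ s, y s < 2 ^ D := fun s => lt_of_lt_of_le (hy s) hD
  have hXm : ∀ m, List.range M = (wins (2 ^ m) (M / 2 ^ m) 0).flatten ++
      List.range' (M / 2 ^ m * 2 ^ m) (M - M / 2 ^ m * 2 ^ m) := by
    intro m
    rw [wins_flatten, List.range_eq_range']
    have h2 := List.range'_append (s := 0) (m := M / 2 ^ m * 2 ^ m) (n := M - M / 2 ^ m * 2 ^ m) (step := 1)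
    rw [one_mul, zero_add] at h2
    rw [h2]
    congr 1
    have := Nat.div_mul_le_self M (2 ^ m)
    omega
  have h1 := alt_lower (D := D) (J := r + 4) y (List.range M) hf E (fun m => D - r - m) (by
    intro m hm
    have := hEmem m hm
    omega) (by
    intro m hm m' hm' h
    have := hEmem m hm
    have := hEmem m' hm'
    omega) (fun m => wins (2 ^ m) (M / 2 ^ m) 0) _ (fun m _ => hXm m)
  have h2 : ∀ m ∈ E, (hits (2 ^ (D - r - m + (r + 4))) y (wins (2 ^ m) (M / 2 ^ m) 0) : ℝ) ≤ M / 16 := by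
    intro m hm
    have hm' := hEmem m hm
    have h3 := hits_le_blocks (D := D) (e := D - r - m + (r + 4)) (by omega) y (wins (2 ^ m) (M / 2 ^ m) 0) hf
    have e1 : D - (D - r - m + (r + 4)) = m - 4 := by omega
    rw [e1, wins_length] at h3
    have h4 : (M / 2 ^ m) * 2 ^ (m - 4) * 16 ≤ M := by
      have e2 : 2 ^ m = 2 ^ (m - 4) * 16 := by
        have : (16 : ℕ) = 2 ^ 4 := by norm_num
        rw [this, ← pow_add]
        congr 1
        omega
      calc (M / 2 ^ m) * 2 ^ (m - 4) * 16 = (M / 2 ^ m) * 2 ^ m := by rw [mul_assoc, ← e2]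
        _ ≤ M := Nat.div_mul_le_self _ _
    rw [le_div_iff₀ (by norm_num)]
    have h5 : hits (2 ^ (D - r - m + (r + 4))) y (wins (2 ^ m) (M / 2 ^ m) 0) * 16 ≤ M :=
      (Nat.mul_le_mul_right 16 h3).trans h4
    exact_mod_cast h5
  have h3 : ∀ m ∈ E, (M : ℝ) / 8 ≤ (hits (2 ^ (D - r - m)) y (wins (2 ^ m) (M / 2 ^ m) 0) : ℝ) := by
    intro m hm
    have hm' := hEmem m hm
    obtain ⟨q, hq⟩ : ∃ q : ℕ, q = 2 ^ m := ⟨_, rfl⟩
    obtain ⟨P, hP⟩ : ∃ P : ℕ, P = M / q := ⟨_, rfl⟩
    obtain ⟨k, hk⟩ : ∃ k : ℕ, k = 2 ^ (D - r - m) := ⟨_, rfl⟩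
    have hqH : q ≤ H := by
      rw [hq]
      exact (Nat.pow_le_pow_right (by norm_num) hm'.2.1).trans hL1
    have hq0 : 1 ≤ q := by rw [hq]; exact Nat.one_le_two_pow
    rw [← hq, ← hP, ← hk, hits_wins]
    have hPq : P * q ≤ M := by
      rw [hP]
      exact Nat.div_mul_le_self _ _
    have hPq2 : M ≤ 2 * (P * q) := by
      have h4 := Nat.lt_div_mul_add (a := M) (b := q) (by omega)
      rw [← hP] at h4
      omega
    have hcollN := coll_wins k y q P M hPq
    -- the collisions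
    have hkq : (2 : ℝ) ^ r * q * k = 2 ^ D := by
      rw [hq, hk]
      push_cast
      rw [← pow_add, ← pow_add]
      congr 1
      omega
    have hDn : (n : ℝ) ≤ 2 ^ D := by exact_mod_cast hD
    have hDn2 : (2 : ℝ) ^ D ≤ 2 * n := by exact_mod_cast hD2.le
    have hpk : ∀ h ∈ Finset.Ico 1 q, (pc M y h k : ℝ) ≤ C * M * k / n := by
      intro h hh
      rw [Finset.mem_Ico] at hh
      have h4 := hp h hh.1 (by omega) (D - r - m) (by
        have h5 : (2 : ℝ) ^ D ≤ 8 * C * H * 2 ^ (D - r - m) := by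
          rw [← hkq]
          have h6 : (k : ℝ) = 2 ^ (D - r - m) := by rw [hk]; push_cast; rfl
          rw [← h6]
          apply mul_le_mul_of_nonneg_right _ (Nat.cast_nonneg _)
          exact mul_le_mul hr3 (by exact_mod_cast hqH) (Nat.cast_nonneg _) (by positivity)
        linarith) (by
        have h5 : 2 ^ (D - r - m) ≤ 2 ^ (D - 1) := Nat.pow_le_pow_right (by norm_num) (by omega)
        have h6 : 2 ^ D = 2 * 2 ^ (D - 1) := by
          rw [← pow_succ']
          congr 1
          omega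
        omega)
      rw [← hk] at h4
      rw [le_div_iff₀ (by linarith)]
      have h6 : (k : ℝ) = 2 ^ (D - r - m) := by rw [hk]; push_cast; rfl
      rw [h6]
      linarith
    have hcoll : (∑ i ∈ Finset.range P, coll k y (Finset.Ico (i * q) (i * q + q)) : ℝ) ≤ M := by
      have h4 : (∑ i ∈ Finset.range P, coll k y (Finset.Ico (i * q) (i * q + q)) : ℝ) ≤
          2 * ∑ h ∈ Finset.Ico 1 q, (pc M y h k : ℝ) := by exact_mod_cast hcollN
      have h5 := Finset.sum_le_sum hpk
      rw [Finset.sum_const, Nat.card_Ico, nsmul_eq_mul] at h5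
      have h6 : ((q - 1 : ℕ) : ℝ) * (C * M * k / n) ≤ q * (C * M * k / n) := by
        apply mul_le_mul_of_nonneg_right _ (by positivity)
        exact_mod_cast Nat.sub_le q 1
      have h7 : 2 * ((q : ℝ) * (C * M * k / n)) ≤ M := by
        have e1 : 2 * ((q : ℝ) * (C * M * k / n)) = M * (2 * C * (q * k)) / n := by ring
        rw [e1, div_le_iff₀ (by linarith)]
        apply mul_le_mul_of_nonneg_left _ hM0
        have h8 : 4 * C * (q * k) ≤ 2 ^ r * (q * k) := mul_le_mul_of_nonneg_right hr2 (by positivity)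
        have e2 : (2 : ℝ) ^ r * (q * k) = 2 ^ D := by rw [← hkq]; ring
        rw [e2] at h8
        linarith
      linarith
    have h4 : ∀ i ∈ Finset.range P, 2 * (1 / 2 : ℝ) * q - (1 / 2) ^ 2 * (q + coll k y (Finset.Ico (i * q) (i * q + q))) ≤
        (((Finset.Ico (0 + i * q) (0 + i * q + q)).image (fun s => y s / k)).card : ℝ) := by
      intro i _
      have h5 := hit_ge k y (Finset.Ico (i * q) (i * q + q)) (1 / 2)
      have e1 : (Finset.Ico (i * q) (i * q + q)).card = q := by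
        rw [Nat.card_Ico]
        omega
      rw [e1] at h5
      rw [zero_add]
      exact h5
    have h5 := Finset.sum_le_sum h4
    rw [Finset.sum_sub_distrib, Finset.sum_const, ← Finset.mul_sum, Finset.sum_add_distrib, Finset.sum_const,
      Finset.card_range, nsmul_eq_mul, nsmul_eq_mul] at h5
    push_cast
    refine le_trans ?_ h5
    have h6 : (M : ℝ) ≤ 2 * (P * q) := by exact_mod_cast hPq2
    linarith
  -- sums
  have hcast : (∑ m ∈ E, (hits (2 ^ (D - r - m)) y (wins (2 ^ m) (M / 2 ^ m) 0) : ℝ)) ≤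
      ∑ m ∈ E, (hits (2 ^ (D - r - m + (r + 4))) y (wins (2 ^ m) (M / 2 ^ m) 0) : ℝ) +
        (r + 4) * (2 * alt D ((List.range M).map y) + 2 ^ D) := by
    have h4 : ((∑ m ∈ E, hits (2 ^ (D - r - m)) y (wins (2 ^ m) (M / 2 ^ m) 0) : ℕ) : ℝ) ≤
        ((∑ m ∈ E, hits (2 ^ (D - r - m + (r + 4))) y (wins (2 ^ m) (M / 2 ^ m) 0) +
        (r + 4) * (2 * alt D ((List.range M).map y) + 2 ^ D) : ℕ) : ℝ) := by exact_mod_cast h1
    push_cast at h4
    exact h4
  have h4 := Finset.sum_le_sum h2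
  have h5 := Finset.sum_le_sum h3
  rw [Finset.sum_const, nsmul_eq_mul] at h4 h5
  have h6 : (alt D ((List.range M).map y) : ℝ) ≤ 2 * OP := by
    have h8 := opt_ge_alt hT ((List.range M).map y) (fun z hz => by
      obtain ⟨x, -, rfl⟩ := List.mem_map.1 hz
      exact hy x) D 0
    have e1 : ((List.range M).map y).map (· + 0) = (List.range M).map y := by simp
    rw [e1] at h8
    rw [hOP]
    exact h8
  have h7 : (2 : ℝ) ^ D ≤ 4 * OP := by
    have h8 : (2 : ℝ) ^ D ≤ 2 * n := by exact_mod_cast hD2.le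
    have h9 : (n : ℝ) ≤ 2 * M := by exact_mod_cast hnM
    linarith
  have hr0 : (0 : ℝ) ≤ r := Nat.cast_nonneg _
  have h8 : ((r : ℝ) + 4) * (2 * alt D ((List.range M).map y) + 2 ^ D) ≤ (r + 4) * (8 * OP) := by
    apply mul_le_mul_of_nonneg_left _ (by positivity)
    linarith
  have h9 : (E.card : ℝ) * (M / 16) ≤ (r + 4) * (8 * OP) := by linarith
  have h10 : Real.logb 2 H - r - 4 ≤ (E.card : ℝ) := by
    have h11 : Real.logb 2 H ≤ L + 1 := by
      rw [Real.logb_le_iff_le_rpow (by norm_num) (by linarith)]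
      have : ((L : ℝ) + 1) = ((L + 1 : ℕ) : ℝ) := by push_cast; ring
      rw [this, Real.rpow_natCast]
      exact_mod_cast hL2.le
    have h12 : (L : ℝ) ≤ E.card + (r + 3) := by
      have h13 : L ≤ E.card + (r + 3) := by
        rw [hE, Nat.card_Icc]
        omega
      exact_mod_cast h13
    linarith
  have h11 : (M : ℝ) * (Real.logb 2 H - r - 4) ≤ M * E.card := mul_le_mul_of_nonneg_left h10 hM0
  have h12 : (M : ℝ) * (r + 4) ≤ (r + 4) * OP := by
    rw [mul_comm]
    exact mul_le_mul_of_nonneg_left hMOP (by positivity)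
  have h13 : (M : ℝ) * Real.logb 2 H ≤ 129 * (r + 4) * OP := by linarith
  rw [← hOP]
  refine h13.trans ?_
  apply mul_le_mul_of_nonneg_right _ (by linarith)
  linarith

/-- **The splay cost.** -/
theorem ratio_pairs {n M H : ℕ} {T : Tr} (hT : keys T = List.range n) (hn : 1 ≤ n) (hnM : n ≤ 2 * M) (hH : 1 ≤ H)
    (hHn : H ≤ n) (hHM : 2 * H ≤ M) (y : ℕ → ℕ) (hy : ∀ s, y s < n) {C : ℝ} (hC : 1 ≤ C)
    (hp : ∀ h, 1 ≤ h → h < H → ∀ e, (n : ℝ) ≤ 8 * C * H * 2 ^ e → 2 ^ e ≤ n →
      (n : ℝ) * pc M y h (2 ^ e) ≤ C * M * 2 ^ e) {θ : ℝ} (hθ : 0 < θ) (hθ1 : θ ≤ 1)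
    (hHθ : θ * Real.logb 2 n ≤ Real.logb 2 H) :
    (costSplay T ((List.range M).map y) : ℝ) ≤
      23000 / θ * (1 + Real.logb 2 C) * optAny (List.range n) ((List.range M).map y) := by
  have h1 := opt_pairs hT hn hnM hH hHn hHM y hy hC hp
  obtain ⟨OP, hOP⟩ : ∃ OP : ℝ, OP = (optAny (List.range n) ((List.range M).map y) : ℝ) := ⟨_, rfl⟩
  have hMOP : (M : ℝ) ≤ OP := by
    have := opt_ge_len hT ((List.range M).map y)
    rw [List.length_map, List.length_range] at this
    rw [hOP]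
    exact this
  rw [← hOP] at h1 ⊢
  have hM0 : (0 : ℝ) ≤ M := Nat.cast_nonneg _
  have hn0 : (1 : ℝ) ≤ n := by exact_mod_cast hn
  have hlC : 0 ≤ Real.logb 2 C := Real.logb_nonneg (by norm_num) hC
  have hln : 0 ≤ Real.logb 2 n := Real.logb_nonneg (by norm_num) hn0
  -- the cost
  obtain ⟨X, hX⟩ : ∃ X : List (Fin n), X = (List.range M).map (fun s => (⟨y s, hy s⟩ : Fin n)) := ⟨_, rfl⟩
  have hXv : rel (Equiv.refl (Fin n)) X = (List.range M).map y := by
    rw [hX]
    unfold rel
    rw [List.map_map]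
    rfl
  have h2 := cost_ws hT X (Equiv.refl (Fin n))
  rw [hXv] at h2
  have h3 : (X.length : ℝ) = M := by rw [hX, List.length_map, List.length_range]
  have h4 : wsumF [] X ≤ M * Real.logb 2 n := by
    have key : ∀ (Y h : List (Fin n)), wsumF h Y ≤ Y.length * Real.logb 2 n := by
      intro Y
      induction Y with
      | nil => intro h; simp [wsumF]
      | cons x Y ih =>
        intro h
        have h5 := ih (x :: h)
        have h6 : Real.logb 2 (wsF h x + 1) ≤ Real.logb 2 n := by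
          apply Real.logb_le_logb_of_le (by norm_num) (by positivity)
          have h7 : wsF h x + 1 ≤ n := by
            unfold wsF
            have h2 := Finset.card_lt_univ_of_notMem (s := (h.takeWhile fun y => decide (y ≠ x)).toFinset) (x := x) (by
              rw [List.mem_toFinset]
              intro hx
              have := List.mem_takeWhile_imp hx
              simp at this)
            rw [Fintype.card_fin] at h2
            exact h2
          exact_mod_cast h7
        rw [wsumF, List.length_cons]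
        push_cast
        linarith
    have := key X []
    rw [h3] at this
    exact this
  rw [h3] at h2
  have h5 : (n : ℝ) ≤ 2 * M := by exact_mod_cast hnM
  have h6 : (n : ℝ) * Real.logb 2 n ≤ 2 * M * Real.logb 2 n := mul_le_mul_of_nonneg_right h5 hln
  have h7 : (M : ℝ) * Real.logb 2 n * θ ≤ M * Real.logb 2 H := by
    have := mul_le_mul_of_nonneg_left hHθ hM0
    linarith
  have h8 : (M : ℝ) * Real.logb 2 n ≤ 1000 * (1 + Real.logb 2 C) * OP / θ := by
    rw [le_div_iff₀ hθ]
    linarith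
  have h9 : 8 * OP ≤ 8 * ((1 + Real.logb 2 C) * OP / θ) := by
    have h10 : OP ≤ (1 + Real.logb 2 C) * OP / θ := by
      rw [le_div_iff₀ hθ]
      have hOP0 : 0 ≤ OP := by linarith
      nlinarith [mul_nonneg hlC hOP0]
    linarith
  have e1 : 23000 / θ * (1 + Real.logb 2 C) * OP = 23000 * ((1 + Real.logb 2 C) * OP / θ) := by ring
  have e2 : 1000 * (1 + Real.logb 2 C) * OP / θ = 1000 * ((1 + Real.logb 2 C) * OP / θ) := by ring
  rw [e1]
  rw [e2] at h8
  have h10 : 0 ≤ (1 + Real.logb 2 C) * OP / θ := by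
    have hOP0 : 0 ≤ OP := by linarith
    positivity
  linarith

end Pool.Agent.Zk77.Spl
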