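import Pool.Agent.Zk77.Spl.Pair
import Mathlib

/-!
# Explicit sequences with bounded pair correlations (helper77)
-/

set_option autoImplicit false

namespace Pool.Agent.Zk77.Spl

open Finset Pool.Agent.H581R2.Splay Pool.Agent.TH49.Spl Pool.Agent.Y395.SP Pool.Agent.N724.TW

/-- **The ratio, another form.** -/
theorem ratio_pairs3 {n M H : ℕ} {T : Tr} (hT : keys T = List.range n) (hn : 1 ≤ n) (hnM : n ≤ 2 * M) (hH : 1 ≤ H)
    (hHn : H ≤ n) (hHM : 2 * H ≤ M) (y : ℕ → ℕ) (hy : ∀ s, y s < n) {C : ℝ} (hC : 1 ≤ C)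
    (hp : ∀ h, 1 ≤ h → h < H → ∀ e, (n : ℝ) ≤ 8 * C * H * 2 ^ e → 2 ^ e ≤ n →
      (n : ℝ) * pc M y h (2 ^ e) ≤ C * M * 2 ^ e) :
    (costSplay T ((List.range M).map y) : ℝ) ≤
      23000 * (1 + Real.logb 2 (C * n / H)) * optAny (List.range n) ((List.range M).map y) := by
  have h1 := opt_pairs hT hn hnM hH hHn hHM y hy hC hp
  obtain ⟨OP, hOP⟩ : ∃ OP : ℝ, OP = (optAny (List.range n) ((List.range M).map y) : ℝ) := ⟨_, rfl⟩
  have hMOP : (M : ℝ) ≤ OP := by
    have := opt_ge_len hT ((List.range M).map y)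
    rw [List.length_map, List.length_range] at this
    rw [hOP]
    exact this
  rw [← hOP] at h1 ⊢
  have hM0 : (0 : ℝ) ≤ M := Nat.cast_nonneg _
  have hn0 : (1 : ℝ) ≤ n := by exact_mod_cast hn
  have hH0 : (1 : ℝ) ≤ H := by exact_mod_cast hH
  have hHn' : (H : ℝ) ≤ n := by exact_mod_cast hHn
  have hlC : 0 ≤ Real.logb 2 C := Real.logb_nonneg (by norm_num) hC
  have hln : 0 ≤ Real.logb 2 n := Real.logb_nonneg (by norm_num) hn0
  have hlnH : 0 ≤ Real.logb 2 n - Real.logb 2 H := by
    have := Real.logb_le_logb_of_le (by norm_num : (1 : ℝ) < 2) (by linarith) hHn'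
    linarith
  have e0 : Real.logb 2 (C * n / H) = Real.logb 2 C + (Real.logb 2 n - Real.logb 2 H) := by
    rw [Real.logb_div (by positivity) (by positivity), Real.logb_mul (by positivity) (by positivity)]
    ring
  -- the cost
  obtain ⟨X, hX⟩ : ∃ X : List (Fin n), X = (List.range M).map (fun s => (⟨y s, hy s⟩ : Fin n)) := ⟨_, rfl⟩
  have hXv : rel (Equiv.refl (Fin n)) X = (List.range M).map y := by
    rw [hX]
    unfold rel
    rw [List.map_map]
    rfl
  have h2 := cost_ws hT X (Equiv.refl (Fin n))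
  rw [hXv] at h2
  have h3 : (X.length : ℝ) = M := by rw [hX, List.length_map, List.length_range]
  have h4 : wsumF [] X ≤ M * Real.logb 2 n := by
    have key : ∀ (Y h : List (Fin n)), wsumF h Y ≤ Y.length * Real.logb 2 n := by
      intro Y
      induction Y with
      | nil => intro h; simp [wsumF]
      | cons x Y ih =>
        intro h
        have h5 := ih (x :: h)
        have h6 : Real.logb 2 (wsF h x + 1) ≤ Real.logb 2 n := by
          apply Real.logb_le_logb_of_le (by norm_num) (by positivity)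
          have h7 : wsF h x + 1 ≤ n := by
            unfold wsF
            have h2 := Finset.card_lt_univ_of_notMem (s := (h.takeWhile fun y => decide (y ≠ x)).toFinset) (x := x) (by
              rw [List.mem_toFinset]
              intro hx
              have := List.mem_takeWhile_imp hx
              simp at this)
            rw [Fintype.card_fin] at h2
            exact h2
          exact_mod_cast h7
        rw [wsumF, List.length_cons]
        push_cast
        linarith
    have := key X []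
    rw [h3] at this
    exact this
  rw [h3] at h2
  have h5 : (n : ℝ) ≤ 2 * M := by exact_mod_cast hnM
  have h6 : (n : ℝ) * Real.logb 2 n ≤ 2 * M * Real.logb 2 n := mul_le_mul_of_nonneg_right h5 hln
  have h7 : (M : ℝ) * Real.logb 2 n ≤ 1000 * (1 + Real.logb 2 C) * OP + (Real.logb 2 n - Real.logb 2 H) * OP := by
    have h8 : (M : ℝ) * (Real.logb 2 n - Real.logb 2 H) ≤ OP * (Real.logb 2 n - Real.logb 2 H) :=
      mul_le_mul_of_nonneg_right hMOP hlnH
    linarith
  have hOP0 : 0 ≤ OP := by linarith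
  rw [e0]
  have h8 : 0 ≤ Real.logb 2 C * OP := mul_nonneg hlC hOP0
  have h9 : 0 ≤ (Real.logb 2 n - Real.logb 2 H) * OP := mul_nonneg hlnH hOP0
  linarith

/-- few repetitions of the differences -/
lemma pc_le {M h k B : ℕ} (hk : 1 ≤ k) (y : ℕ → ℕ)
    (hB : ∀ v : ℤ, ((Finset.range (M - h)).filter (fun s => (y (s + h) : ℤ) - y s = v)).card ≤ B) :
    pc M y h k ≤ B * (2 * k) := by
  classical
  unfold pc
  have h1 := Finset.card_le_mul_card_image (f := fun s => (y (s + h) : ℤ) - y s)
    ((Finset.range (M - h)).filter (fun s => y s / k = y (s + h) / k)) B (fun v _ => by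
      refine le_trans (Finset.card_le_card ?_) (hB v)
      intro s hs
      rw [Finset.mem_filter, Finset.mem_filter] at hs
      rw [Finset.mem_filter]
      exact ⟨hs.1.1, hs.2⟩)
  refine h1.trans (Nat.mul_le_mul_left _ ?_)
  have h2 : ((Finset.range (M - h)).filter (fun s => y s / k = y (s + h) / k)).image
      (fun s => (y (s + h) : ℤ) - y s) ⊆ Finset.Ioo (-(k : ℤ)) k := by
    intro v hv
    obtain ⟨s, hs, rfl⟩ := Finset.mem_image.1 hv
    rw [Finset.mem_filter] at hs
    rw [Finset.mem_Ioo]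
    have h3 := Nat.div_add_mod (y s) k
    have h4 := Nat.div_add_mod (y (s + h)) k
    have h5 := Nat.mod_lt (y s) hk
    have h6 := Nat.mod_lt (y (s + h)) hk
    rw [hs.2] at h3
    omega
  have h3 := Finset.card_le_card h2
  rw [Int.card_Ioo] at h3
  omega

/-- differences which repeat at most `B` times -/
theorem ratio_diff {n M H : ℕ} {T : Tr} (hT : keys T = List.range n) (hn : 1 ≤ n) (hnM : n ≤ 2 * M) (hH : 1 ≤ H)
    (hHn : H ≤ n) (hHM : 2 * H ≤ M) (y : ℕ → ℕ) (hy : ∀ s, y s < n) (B : ℕ) {C : ℝ} (hC : 1 ≤ C)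
    (hBC : 2 * (n : ℝ) * B ≤ C * M)
    (hB : ∀ h, 1 ≤ h → h < H → ∀ v : ℤ,
      ((Finset.range (M - h)).filter (fun s => (y (s + h) : ℤ) - y s = v)).card ≤ B) :
    (costSplay T ((List.range M).map y) : ℝ) ≤
      23000 * (1 + Real.logb 2 (C * n / H)) * optAny (List.range n) ((List.range M).map y) := by
  refine ratio_pairs3 hT hn hnM hH hHn hHM y hy hC (fun h h1 h2 e _ _ => ?_)
  have h3 := pc_le (M := M) (h := h) (k := 2 ^ e) (B := B) Nat.one_le_two_pow y (hB h h1 h2)
  have h4 : (pc M y h (2 ^ e) : ℝ) ≤ B * (2 * 2 ^ e) := by exact_mod_cast h3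
  have hn0 : (0 : ℝ) ≤ n := Nat.cast_nonneg _
  have h5 := mul_le_mul_of_nonneg_left h4 hn0
  have h6 := mul_le_mul_of_nonneg_right hBC (by positivity : (0 : ℝ) ≤ 2 ^ e)
  linarith

/-- Costas permutations -/
def Costas {n : ℕ} (σ : Equiv.Perm (Fin n)) : Prop :=
  ∀ i j i' j' : Fin n, i < j → i' < j' → (j : ℤ) - (i : ℤ) = (j' : ℤ) - (i' : ℤ) →
    ((σ j : ℕ) : ℤ) - ((σ i : ℕ) : ℤ) = ((σ j' : ℕ) : ℤ) - ((σ i' : ℕ) : ℤ) → i = i'

theorem costas_ratio {n : ℕ} (hn : 2 ≤ n) (σ : Equiv.Perm (Fin n)) (hσ : Costas σ) {T : Tr}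
    (hT : keys T = List.range n) :
    (costSplay T (List.ofFn fun i => (σ i : ℕ)) : ℝ) ≤
      85000 * optAny (List.range n) (List.ofFn fun i => (σ i : ℕ)) := by
  obtain ⟨y, hy⟩ : ∃ y : ℕ → ℕ, y = fun s => if h : s < n then (σ ⟨s, h⟩ : ℕ) else 0 := ⟨_, rfl⟩
  have hyn : ∀ s, y s < n := by
    intro s
    rw [hy]
    simp only
    split_ifs with h
    · exact (σ ⟨s, h⟩).2
    · omega
  have hys : ∀ s (h : s < n), y s = (σ ⟨s, h⟩ : ℕ) := by
    intro s h
    rw [hy]
    simp only
    rw [dif_pos h]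
  have e1 : (List.ofFn fun i => (σ i : ℕ)) = (List.range n).map y := by
    apply List.ext_getElem
    · simp
    · intro i h1 h2
      rw [List.getElem_ofFn, List.getElem_map, List.getElem_range]
      rw [hys i (by simpa using h1)]
  rw [e1]
  have h := ratio_diff (n := n) (M := n) (H := n / 2) hT (by omega) (by omega) (by omega) (by omega) (by omega) y hyn 1
    (C := 2) (by norm_num) (by push_cast; linarith) (fun h h1 h2 v => by
      rw [Finset.card_le_one]
      intro s hs s' hs'
      rw [Finset.mem_filter, Finset.mem_range] at hs hs'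
      have h3 := hσ ⟨s, by omega⟩ ⟨s + h, by omega⟩ ⟨s', by omega⟩ ⟨s' + h, by omega⟩
        (by rw [Fin.lt_def]; simp only; omega) (by rw [Fin.lt_def]; simp only; omega)
        (by push_cast; ring) (by
          rw [← hys, ← hys, ← hys, ← hys, hs.2, hs'.2])
      simpa using h3)
  refine h.trans ?_
  apply mul_le_mul_of_nonneg_right _ (Nat.cast_nonneg _)
  have hH : (n : ℝ) ≤ 3 * ((n / 2 : ℕ) : ℝ) := by
    exact_mod_cast (by omega : n ≤ 3 * (n / 2))
  have hn0 : (2 : ℝ) ≤ n := by exact_mod_cast hn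
  have hH0 : (0 : ℝ) < ((n / 2 : ℕ) : ℝ) := by linarith
  have h3 : Real.logb 2 (2 * n / ((n / 2 : ℕ) : ℝ)) ≤ 2.6 := by
    rw [Real.logb_le_iff_le_rpow (by norm_num) (by positivity)]
    have h4 : 2 * (n : ℝ) / ((n / 2 : ℕ) : ℝ) ≤ 6 := by
      rw [div_le_iff₀ hH0]
      linarith
    refine h4.trans ?_
    have h5 : (2 : ℝ) ^ (2.6 : ℝ) = ((2 : ℝ) ^ (13 : ℝ)) ^ (1 / 5 : ℝ) := by
      rw [← Real.rpow_mul (by norm_num)]
      norm_num
    rw [h5]
    have h6 : (6 : ℝ) = ((6 : ℝ) ^ (5 : ℝ)) ^ (1 / 5 : ℝ) := by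
      rw [← Real.rpow_mul (by norm_num)]
      norm_num
    rw [h6]
    apply Real.rpow_le_rpow (by positivity) _ (by norm_num)
    norm_num
  linarith

section
variable (p : ℕ) [Fact p.Prime]

lemma fiber_le (t M : ℕ) (ht : 1 ≤ t) (a : ℕ) : ((Finset.range M).filter (fun s => s % t = a)).card ≤ M / t + 1 := by
  rw [← Finset.card_range (M / t + 1)]
  apply Finset.card_le_card_of_injOn (fun s => s / t)
  · intro s hs
    rw [Finset.mem_coe, Finset.mem_filter, Finset.mem_range] at hs
    rw [Finset.mem_coe, Finset.mem_range]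
    have : s / t ≤ M / t := Nat.div_le_div_right hs.1.le
    simp only
    omega
  · intro s hs s' hs' h
    rw [Finset.mem_coe, Finset.mem_filter] at hs hs'
    simp only at h
    rw [← Nat.div_add_mod s t, ← Nat.div_add_mod s' t, h, hs.2, hs'.2]

/-- residues and integers -/
lemma count_res (A : Finset (ZMod p)) (M : ℕ) :
    ((Finset.range M).filter (fun s => ((s : ℕ) : ZMod p) ∈ A)).card ≤ (M / p + 1) * A.card := by
  classical
  have h1 := Finset.card_le_mul_card_image (f := fun s : ℕ => ((s : ℕ) : ZMod p))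
    ((Finset.range M).filter (fun s => ((s : ℕ) : ZMod p) ∈ A)) (M / p + 1) (fun a _ => by
      refine le_trans (Finset.card_le_card ?_) (fiber_le p M (Fact.out : p.Prime).one_le a.val)
      intro s hs
      rw [Finset.mem_filter, Finset.mem_filter] at hs
      rw [Finset.mem_filter]
      refine ⟨hs.1.1, ?_⟩
      rw [← hs.2, ZMod.val_natCast])
  refine h1.trans (Nat.mul_le_mul_left _ (Finset.card_le_card ?_))
  intro a ha
  obtain ⟨s, hs, rfl⟩ := Finset.mem_image.1 ha
  exact (Finset.mem_filter.1 hs).2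

/-- a periodic polynomial of degree `< p` is constant -/
lemma periodic_const {f : Polynomial (ZMod p)} (hf : f.natDegree < p) {h : ZMod p} (hh : h ≠ 0)
    (hper : f.comp (Polynomial.X + Polynomial.C h) = f) : f.natDegree = 0 := by
  have h1 : ∀ x, f.eval (x + h) = f.eval x := by
    intro x
    have := congrArg (Polynomial.eval x) hper
    rw [Polynomial.eval_comp] at this
    simpa using this
  have h2 : ∀ j : ℕ, f.eval ((j : ZMod p) * h) = f.eval 0 := by
    intro j
    induction j with
    | zero => simp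
    | succ j ih =>
      push_cast
      rw [add_mul, one_mul, h1, ih]
  have h3 : ∀ x, f.eval x = f.eval 0 := by
    intro x
    have := h2 (x / h).val
    rw [ZMod.natCast_zmod_val, div_mul_cancel₀ _ hh] at this
    exact this
  have h4 : f - Polynomial.C (f.eval 0) = 0 := by
    apply Polynomial.eq_zero_of_natDegree_lt_card_of_eval_eq_zero' _ (Finset.univ : Finset (ZMod p))
    · intro x _
      rw [Polynomial.eval_sub, Polynomial.eval_C, h3 x, sub_self]
    · rw [Finset.card_univ, ZMod.card]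
      refine lt_of_le_of_lt (Polynomial.natDegree_sub_le _ _) ?_
      rw [Polynomial.natDegree_C]
      exact max_lt hf (Fact.out : p.Prime).pos
  rw [sub_eq_zero] at h4
  rw [h4, Polynomial.natDegree_C]

/-- the differences of a rational function which is not a linear polynomial are not constant -/
lemma ratfun_ne {f g : Polynomial (ZMod p)} (hfg : IsCoprime f g) (hf : f.natDegree < p) (hg : g.natDegree < p)
    (h2 : 2 ≤ f.natDegree ∨ 1 ≤ g.natDegree) {h : ZMod p} (hh : h ≠ 0) (v : ZMod p) :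
    f.comp (Polynomial.X + Polynomial.C h) * g - f * g.comp (Polynomial.X + Polynomial.C h) -
      Polynomial.C v * (g * g.comp (Polynomial.X + Polynomial.C h)) ≠ 0 := by
  intro h0
  obtain ⟨f', hf'⟩ : ∃ f', f' = f.comp (Polynomial.X + Polynomial.C h) := ⟨_, rfl⟩
  obtain ⟨g', hg'⟩ : ∃ g', g' = g.comp (Polynomial.X + Polynomial.C h) := ⟨_, rfl⟩
  rw [← hf', ← hg'] at h0
  have hg0 : g ≠ 0 := by
    rintro rfl
    rw [isCoprime_zero_right] at hfg
    have h3 := Polynomial.natDegree_eq_zero_of_isUnit hfg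
    rcases h2 with h2 | h2
    · omega
    · simp at h2
  have hcop : IsCoprime f' g' := by
    obtain ⟨a, b, hab⟩ := hfg
    refine ⟨a.comp (Polynomial.X + Polynomial.C h), b.comp (Polynomial.X + Polynomial.C h), ?_⟩
    rw [hf', hg', ← Polynomial.mul_comp, ← Polynomial.mul_comp, ← Polynomial.add_comp, hab, Polynomial.one_comp]
  have hdvd : g' ∣ g := by
    have h3 : g' ∣ f' * g := by
      refine ⟨f + Polynomial.C v * g, ?_⟩
      linear_combination h0
    exact hcop.symm.dvd_of_dvd_mul_left h3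
  have hdeg : g'.natDegree = g.natDegree := by
    rw [hg', Polynomial.natDegree_comp, Polynomial.natDegree_X_add_C, mul_one]
  have hlead : g'.leadingCoeff = g.leadingCoeff := by
    rw [hg', Polynomial.leadingCoeff_comp (by rw [Polynomial.natDegree_X_add_C]; norm_num),
      Polynomial.leadingCoeff_X_add_C, one_pow, mul_one]
  have hgg : g' = g := by
    obtain ⟨u, hu⟩ := hdvd
    have hg'0 : g' ≠ 0 := by
      rintro h3
      rw [h3, zero_mul] at hu
      exact hg0 hu
    have hu0 : u ≠ 0 := by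
      rintro h3
      rw [h3, mul_zero] at hu
      exact hg0 hu
    have h3 : u.natDegree = 0 := by
      have h4 := congrArg Polynomial.natDegree hu
      rw [Polynomial.natDegree_mul hg'0 hu0] at h4
      omega
    obtain ⟨c, hc⟩ := Polynomial.natDegree_eq_zero.1 h3
    have h4 : u.leadingCoeff = 1 := by
      have h5 := congrArg Polynomial.leadingCoeff hu
      rw [Polynomial.leadingCoeff_mul, hlead] at h5
      have h6 : g.leadingCoeff ≠ 0 := Polynomial.leadingCoeff_ne_zero.2 hg0
      have h7 : g.leadingCoeff * 1 = g.leadingCoeff * u.leadingCoeff := by rw [mul_one]; exact h5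
      exact (mul_left_cancel₀ h6 h7).symm
    rw [← hc, Polynomial.leadingCoeff_C] at h4
    rw [hu, ← hc, h4, Polynomial.C_1, mul_one]
  rw [hg'] at hgg
  have hgc := periodic_const p hg hh hgg
  obtain ⟨c, hc⟩ := Polynomial.natDegree_eq_zero.1 hgc
  have hc0 : c ≠ 0 := by
    rintro rfl
    apply hg0
    rw [← hc, Polynomial.C_0]
  have hf2 : 2 ≤ f.natDegree := by omega
  -- `f(x + h) - f(x) = v c`
  have h3 : f' - f = Polynomial.C (v * c) := by
    rw [hg', hgg, ← hc] at h0
    have h4 : (f' - f - Polynomial.C (v * c)) * Polynomial.C c = 0 := by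
      rw [Polynomial.C_mul]
      linear_combination h0
    have h5 : (Polynomial.C c : Polynomial (ZMod p)) ≠ 0 := Polynomial.C_ne_zero.2 hc0
    have h6 := (mul_eq_zero.1 h4).resolve_right h5
    exact sub_eq_zero.1 h6
  obtain ⟨w, hw⟩ : ∃ w : ZMod p, w = v * c / h := ⟨_, rfl⟩
  have hwh : w * h = v * c := by
    rw [hw, div_mul_cancel₀ _ hh]
  have h4 : (f - Polynomial.C w * Polynomial.X).comp (Polynomial.X + Polynomial.C h) = f - Polynomial.C w * Polynomial.X := by
    rw [Polynomial.sub_comp, Polynomial.mul_comp, Polynomial.C_comp, Polynomial.X_comp, ← hf']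
    have h5 : Polynomial.C w * Polynomial.C h = Polynomial.C (v * c) := by rw [← Polynomial.C_mul, hwh]
    linear_combination h3 - h5
  have hdl : (Polynomial.C w * Polynomial.X : Polynomial (ZMod p)).natDegree ≤ 1 :=
    (Polynomial.natDegree_C_mul_le _ _).trans Polynomial.natDegree_X_le
  have h5 : (f - Polynomial.C w * Polynomial.X).natDegree = f.natDegree :=
    Polynomial.natDegree_sub_eq_left_of_natDegree_lt (by omega)
  have h6 := periodic_const p (f := f - Polynomial.C w * Polynomial.X) (by rw [h5]; exact hf) hh h4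
  omega

/-- **Rational functions modulo a prime.** -/
theorem ratfun_ratio (f g : Polynomial (ZMod p)) (d : ℕ) (hd : 1 ≤ d) (hdp : d < p) (hfd : f.natDegree ≤ d)
    (hgd : g.natDegree ≤ d) (hfg : IsCoprime f g) (h2 : 2 ≤ f.natDegree ∨ 1 ≤ g.natDegree) (M : ℕ) (hM : p ≤ M)
    {T : Tr} (hT : keys T = List.range p) :
    (costSplay T ((List.range M).map fun s : ℕ => (f.eval (s : ZMod p) * (g.eval (s : ZMod p))⁻¹).val) : ℝ) ≤
      160000 * (1 + Real.logb 2 d) *
        optAny (List.range p) ((List.range M).map fun s : ℕ => (f.eval (s : ZMod p) * (g.eval (s : ZMod p))⁻¹).val) := by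
  classical
  have hp := (Fact.out : p.Prime)
  have hp2 := hp.two_le
  obtain ⟨y, hy⟩ : ∃ y : ℕ → ℕ, y = fun s : ℕ => (f.eval (s : ZMod p) * (g.eval (s : ZMod p))⁻¹).val := ⟨_, rfl⟩
  rw [← hy]
  have hg0 : g ≠ 0 := by
    rintro rfl
    rw [isCoprime_zero_right] at hfg
    have h3 := Polynomial.natDegree_eq_zero_of_isUnit hfg
    rcases h2 with h2 | h2
    · omega
    · simp at h2
  have hd0 : (1 : ℝ) ≤ d := by exact_mod_cast hd
  have hp0 : (2 : ℝ) ≤ p := by exact_mod_cast hp2
  have hMp : (p : ℝ) ≤ M := by exact_mod_cast hM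
  have hB : ∀ h, 1 ≤ h → h < p / 2 → ∀ v : ℤ,
      ((Finset.range (M - h)).filter (fun s => (y (s + h) : ℤ) - y s = v)).card ≤ (M / p + 1) * (4 * d) := by
    intro h h1 hh2 v
    have hh : ((h : ℕ) : ZMod p) ≠ 0 := by
      rw [Ne, ZMod.natCast_eq_zero_iff]
      intro hdv
      have := Nat.le_of_dvd (by omega) hdv
      omega
    obtain ⟨Nv, hN⟩ : ∃ Nv : Polynomial (ZMod p), Nv = f.comp (Polynomial.X + Polynomial.C ((h : ℕ) : ZMod p)) * g -
      f * g.comp (Polynomial.X + Polynomial.C ((h : ℕ) : ZMod p)) -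
      Polynomial.C ((v : ℤ) : ZMod p) * (g * g.comp (Polynomial.X + Polynomial.C ((h : ℕ) : ZMod p))) := ⟨_, rfl⟩
    have hN0 : Nv ≠ 0 := by
      rw [hN]
      exact ratfun_ne p hfg (by omega) (by omega) h2 hh _
    obtain ⟨g', hg'⟩ : ∃ g' : Polynomial (ZMod p), g' = g.comp (Polynomial.X + Polynomial.C ((h : ℕ) : ZMod p)) := ⟨_, rfl⟩
    obtain ⟨f', hf'⟩ : ∃ f' : Polynomial (ZMod p), f' = f.comp (Polynomial.X + Polynomial.C ((h : ℕ) : ZMod p)) := ⟨_, rfl⟩
    have hg'd : g'.natDegree ≤ d := by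
      rw [hg', Polynomial.natDegree_comp, Polynomial.natDegree_X_add_C, mul_one]
      exact hgd
    have hf'd : f'.natDegree ≤ d := by
      rw [hf', Polynomial.natDegree_comp, Polynomial.natDegree_X_add_C, mul_one]
      exact hfd
    have hg'0 : g' ≠ 0 := by
      intro h3
      apply hg0
      have h4 : (g.comp (Polynomial.X + Polynomial.C ((h : ℕ) : ZMod p))).comp
          (Polynomial.X - Polynomial.C ((h : ℕ) : ZMod p)) = g := by
        rw [Polynomial.comp_assoc]
        simp
      rw [← h4, ← hg', h3, Polynomial.zero_comp]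
    rw [← hf', ← hg'] at hN
    have hNd : Nv.natDegree ≤ 2 * d := by
      rw [hN]
      refine (Polynomial.natDegree_sub_le _ _).trans (max_le ((Polynomial.natDegree_sub_le _ _).trans (max_le ?_ ?_)) ?_)
      · exact Polynomial.natDegree_mul_le.trans (by omega)
      · exact Polynomial.natDegree_mul_le.trans (by omega)
      · refine (Polynomial.natDegree_C_mul_le _ _).trans (Polynomial.natDegree_mul_le.trans (by omega))
    obtain ⟨A, hA⟩ : ∃ A : Finset (ZMod p), A = g.roots.toFinset ∪ g'.roots.toFinset ∪ Nv.roots.toFinset := ⟨_, rfl⟩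
    have hAc : A.card ≤ 4 * d := by
      rw [hA]
      have h3 : g.roots.toFinset.card ≤ d := (Multiset.toFinset_card_le _).trans ((Polynomial.card_roots' g).trans hgd)
      have h4 : g'.roots.toFinset.card ≤ d := (Multiset.toFinset_card_le _).trans ((Polynomial.card_roots' g').trans hg'd)
      have h5 : Nv.roots.toFinset.card ≤ 2 * d := (Multiset.toFinset_card_le _).trans ((Polynomial.card_roots' Nv).trans hNd)
      refine (Finset.card_union_le _ _).trans ?_
      have h6 := Finset.card_union_le g.roots.toFinset g'.roots.toFinset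
      omega
    refine le_trans ?_ (Nat.mul_le_mul_left _ hAc)
    refine le_trans (Finset.card_le_card ?_) (count_res p A M)
    intro s hs
    rw [Finset.mem_filter, Finset.mem_range] at hs
    rw [Finset.mem_filter, Finset.mem_range]
    refine ⟨by omega, ?_⟩
    rw [hA, Finset.mem_union, Finset.mem_union, Multiset.mem_toFinset, Multiset.mem_toFinset, Multiset.mem_toFinset,
      Polynomial.mem_roots hg0, Polynomial.mem_roots hg'0, Polynomial.mem_roots hN0, Polynomial.IsRoot,
      Polynomial.IsRoot, Polynomial.IsRoot]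
    by_cases c1 : g.eval (s : ZMod p) = 0
    · exact Or.inl (Or.inl c1)
    by_cases c2 : g'.eval (s : ZMod p) = 0
    · exact Or.inl (Or.inr c2)
    right
    have h3 : ((y (s + h) : ℕ) : ZMod p) - ((y s : ℕ) : ZMod p) = ((v : ℤ) : ZMod p) := by
      have := congrArg (fun z : ℤ => (z : ZMod p)) hs.2
      push_cast at this
      exact this
    rw [hy] at h3
    simp only [ZMod.natCast_zmod_val] at h3
    have e1 : f'.eval (s : ZMod p) = f.eval (((s + h : ℕ)) : ZMod p) := by
      rw [hf', Polynomial.eval_comp]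
      simp
    have e2 : g'.eval (s : ZMod p) = g.eval (((s + h : ℕ)) : ZMod p) := by
      rw [hg', Polynomial.eval_comp]
      simp
    rw [← e1, ← e2] at h3
    rw [hN]
    simp only [Polynomial.eval_sub, Polynomial.eval_mul, Polynomial.eval_C]
    rw [← h3]
    field_simp
    ring
  have h := ratio_diff (n := p) (M := M) (H := p / 2) hT hp.one_le (by omega) (by omega) (by omega) (by omega) y
    (fun s => by rw [hy]; exact ZMod.val_lt _) ((M / p + 1) * (4 * d)) (C := 16 * d) (by linarith) (by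
      push_cast
      have h3 : (((M / p : ℕ) : ℝ) + 1) * p ≤ 2 * M := by
        have h4 : (M / p + 1) * p ≤ 2 * M := by
          have := Nat.div_mul_le_self M p
          have e : (M / p + 1) * p = M / p * p + p := by ring
          omega
        exact_mod_cast h4
      have h5 : 2 * (p : ℝ) * ((((M / p : ℕ) : ℝ) + 1) * (4 * d)) = ((((M / p : ℕ) : ℝ) + 1) * p) * (8 * d) := by ring
      rw [h5]
      have h6 := mul_le_mul_of_nonneg_right h3 (by positivity : (0 : ℝ) ≤ 8 * d)
      linarith) hB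
  refine h.trans ?_
  apply mul_le_mul_of_nonneg_right _ (Nat.cast_nonneg _)
  have hH : (p : ℝ) ≤ 3 * ((p / 2 : ℕ) : ℝ) := by
    exact_mod_cast (by omega : p ≤ 3 * (p / 2))
  have hH0 : (0 : ℝ) < ((p / 2 : ℕ) : ℝ) := by linarith
  have hld : 0 ≤ Real.logb 2 d := Real.logb_nonneg (by norm_num) hd0
  have h3 : Real.logb 2 (16 * d * p / ((p / 2 : ℕ) : ℝ)) ≤ 5.6 + Real.logb 2 d := by
    have h4 : 16 * (d : ℝ) * p / ((p / 2 : ℕ) : ℝ) ≤ 48 * d := by
      rw [div_le_iff₀ hH0]
      nlinarith
    have h5 : Real.logb 2 (48 * d) = Real.logb 2 48 + Real.logb 2 d := Real.logb_mul (by norm_num) (by positivity)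
    have h6 : Real.logb 2 48 ≤ 5.6 := by
      rw [Real.logb_le_iff_le_rpow (by norm_num) (by norm_num)]
      have h7 : (2 : ℝ) ^ (5.6 : ℝ) = ((2 : ℝ) ^ (28 : ℝ)) ^ (1 / 5 : ℝ) := by
        rw [← Real.rpow_mul (by norm_num)]
        norm_num
      have h8 : (48 : ℝ) = ((48 : ℝ) ^ (5 : ℝ)) ^ (1 / 5 : ℝ) := by
        rw [← Real.rpow_mul (by norm_num)]
        norm_num
      rw [h7, h8]
      apply Real.rpow_le_rpow (by positivity) _ (by norm_num)
      norm_num
    have h9 := Real.logb_le_logb_of_le (by norm_num : (1 : ℝ) < 2) (by positivity) h4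
    linarith
  linarith

/-- **Powers modulo a prime.** -/
theorem power_ratio (g : (ZMod p)ˣ) (t : ℕ) (ht : orderOf g = t) (ht2 : 2 ≤ t) (c b : ZMod p) (hc : c ≠ 0) (M : ℕ)
    (hM : t ≤ M) (hM2 : p ≤ 2 * M) {T : Tr} (hT : keys T = List.range p) :
    (costSplay T ((List.range M).map fun s => (c * (g : ZMod p) ^ s + b).val) : ℝ) ≤
      110000 * (1 + Real.logb 2 (p / t)) *
        optAny (List.range p) ((List.range M).map fun s => (c * (g : ZMod p) ^ s + b).val) := by
  classical
  have hp := (Fact.out : p.Prime)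
  obtain ⟨y, hy⟩ : ∃ y : ℕ → ℕ, y = fun s => (c * (g : ZMod p) ^ s + b).val := ⟨_, rfl⟩
  rw [← hy]
  have htp : t ≤ p := by
    rw [← ht]
    have h1 := orderOf_le_card_univ (x := g)
    rw [ZMod.card_units] at h1
    omega
  have ht0 : (2 : ℝ) ≤ t := by exact_mod_cast ht2
  have htp' : (t : ℝ) ≤ p := by exact_mod_cast htp
  have htM : (t : ℝ) ≤ M := by exact_mod_cast hM
  have hB : ∀ h, 1 ≤ h → h < t / 2 → ∀ v : ℤ,
      ((Finset.range (M - h)).filter (fun s => (y (s + h) : ℤ) - y s = v)).card ≤ M / t + 1 := by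
    intro h h1 h2 v
    have hgh : (g : ZMod p) ^ h - 1 ≠ 0 := by
      intro h3
      have h4 : g ^ h = 1 := by
        apply Units.ext
        push_cast
        exact sub_eq_zero.1 h3
      have h5 := orderOf_dvd_of_pow_eq_one h4
      rw [ht] at h5
      have := Nat.le_of_dvd (by omega) h5
      omega
    rcases ((Finset.range (M - h)).filter (fun s => (y (s + h) : ℤ) - y s = v)).eq_empty_or_nonempty with he | ⟨s0, hs0⟩
    · rw [he]
      simp
    · refine le_trans (Finset.card_le_card ?_) (fiber_le t M (by omega) (s0 % t))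
      intro s hs
      rw [Finset.mem_filter, Finset.mem_range] at hs hs0
      rw [Finset.mem_filter, Finset.mem_range]
      refine ⟨by omega, ?_⟩
      have key : ∀ s, (y (s + h) : ℤ) - y s = v → c * (g : ZMod p) ^ s * ((g : ZMod p) ^ h - 1) = ((v : ℤ) : ZMod p) := by
        intro s hsv
        have h3 := congrArg (fun z : ℤ => (z : ZMod p)) hsv
        push_cast at h3
        rw [hy] at h3
        simp only [ZMod.natCast_zmod_val] at h3
        rw [← h3, pow_add]
        ring
      have h3 := key s hs.2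
      have h4 := key s0 hs0.2
      rw [← h4] at h3
      have h5 : (g : ZMod p) ^ s = (g : ZMod p) ^ s0 := mul_left_cancel₀ hc (mul_right_cancel₀ hgh h3)
      have h6 : g ^ s = g ^ s0 := by
        apply Units.ext
        push_cast
        exact h5
      have h7 := pow_eq_pow_iff_modEq.1 h6
      rw [ht] at h7
      exact h7
  have hC : (1 : ℝ) ≤ 4 * p / t := by
    rw [le_div_iff₀ (by linarith)]
    linarith
  have h := ratio_diff (n := p) (M := M) (H := t / 2) hT hp.one_le hM2 (by omega) (by omega) (by omega) y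
    (fun s => by rw [hy]; exact ZMod.val_lt _) (M / t + 1) (C := 4 * p / t) hC (by
      push_cast
      have h3 : (((M / t : ℕ) : ℝ) + 1) * t ≤ 2 * M := by
        have h4 : (M / t + 1) * t ≤ 2 * M := by
          have := Nat.div_mul_le_self M t
          have e : (M / t + 1) * t = M / t * t + t := by ring
          omega
        exact_mod_cast h4
      rw [div_mul_eq_mul_div, le_div_iff₀ (by linarith)]
      have h6 := mul_le_mul_of_nonneg_right h3 (by positivity : (0 : ℝ) ≤ 2 * p)
      linarith) hB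
  refine h.trans ?_
  apply mul_le_mul_of_nonneg_right _ (Nat.cast_nonneg _)
  have hH : (t : ℝ) ≤ 3 * ((t / 2 : ℕ) : ℝ) := by
    exact_mod_cast (by omega : t ≤ 3 * (t / 2))
  have hH0 : (0 : ℝ) < ((t / 2 : ℕ) : ℝ) := by linarith
  have hpt : (1 : ℝ) ≤ p / t := by
    rw [le_div_iff₀ (by linarith)]
    linarith
  have hld : 0 ≤ Real.logb 2 (p / t) := Real.logb_nonneg (by norm_num) hpt
  have h3 : Real.logb 2 (4 * p / t * p / ((t / 2 : ℕ) : ℝ)) ≤ 3.6 + 2 * Real.logb 2 (p / t) := by
    have h4 : 4 * (p : ℝ) / t * p / ((t / 2 : ℕ) : ℝ) ≤ 12 * (p / t) ^ 2 := by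
      rw [div_le_iff₀ hH0]
      have h5 : 12 * ((p : ℝ) / t) ^ 2 * ((t / 2 : ℕ) : ℝ) = 4 * p / t * p * ((3 * ((t / 2 : ℕ) : ℝ)) / t) := by
        field_simp
        ring
      rw [h5]
      have h6 : (1 : ℝ) ≤ (3 * ((t / 2 : ℕ) : ℝ)) / t := by
        rw [le_div_iff₀ (by linarith)]
        linarith
      have h7 : (0 : ℝ) ≤ 4 * p / t * p := by positivity
      nlinarith
    have h5 : Real.logb 2 (12 * ((p : ℝ) / t) ^ 2) = Real.logb 2 12 + 2 * Real.logb 2 (p / t) := by
      have h50 : ((p : ℝ) / t) ^ 2 ≠ 0 := by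
        have : (0 : ℝ) < p / t := by linarith
        positivity
      rw [Real.logb_mul (by norm_num) h50, Real.logb_pow]
      norm_num
    have h6 : Real.logb 2 12 ≤ 3.6 := by
      rw [Real.logb_le_iff_le_rpow (by norm_num) (by norm_num)]
      have h7 : (2 : ℝ) ^ (3.6 : ℝ) = ((2 : ℝ) ^ (18 : ℝ)) ^ (1 / 5 : ℝ) := by
        rw [← Real.rpow_mul (by norm_num)]
        norm_num
      have h8 : (12 : ℝ) = ((12 : ℝ) ^ (5 : ℝ)) ^ (1 / 5 : ℝ) := by
        rw [← Real.rpow_mul (by norm_num)]
        norm_num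
      rw [h7, h8]
      apply Real.rpow_le_rpow (by positivity) _ (by norm_num)
      norm_num
    have hp00 : (0 : ℝ) < p := by linarith
    have h9 := Real.logb_le_logb_of_le (by norm_num : (1 : ℝ) < 2) (by positivity) h4
    linarith
  linarith

end

end Pool.Agent.Zk77.Spl
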