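import Pool.Agent.Zk77.Spl.Spr

/-!
# Close pairs in windows and the spread (helper77)
-/

set_option autoImplicit false

namespace Pool.Agent.Zk77.Spl

open Finset Pool.Agent.H581R2.Splay Pool.Agent.TH49.Spl Pool.Agent.Y395.SP Pool.Agent.N724.TW

section
variable {κ : Type} [DecidableEq κ]

/-- **Second moment**: few collisions, many blocks. -/
lemma hit_ge (k : ℕ) (f : κ → ℕ) (Q : Finset κ) (t : ℝ) :
    2 * t * Q.card - t ^ 2 * (Q.card + coll k f Q) ≤ ((Q.image (fun x => f x / k)).card : ℝ) := by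
  classical
  obtain ⟨I, hI⟩ : ∃ I : Finset ℕ, I = Q.image (fun x => f x / k) := ⟨_, rfl⟩
  obtain ⟨N, hN⟩ : ∃ N : ℕ → ℕ, N = fun j => (Q.filter (fun x => f x / k = j)).card := ⟨_, rfl⟩
  have hmaps : ∀ x ∈ Q, f x / k ∈ I := by
    intro x hx
    rw [hI]
    exact Finset.mem_image_of_mem _ hx
  have hsum : ∑ j ∈ I, (N j : ℝ) = Q.card := by
    rw [hN]
    have := Finset.card_eq_sum_card_fiberwise (f := fun x => f x / k) (s := Q) (t := I)
      (fun x hx => hmaps x hx)
    rw [this]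
    push_cast
    rfl
  have hsq : ∑ j ∈ I, ((N j : ℝ)) ^ 2 ≤ Q.card + coll k f Q := by
    have h1 : ((Q ×ˢ Q).filter (fun z => f z.1 / k = f z.2 / k)).card = Q.card + coll k f Q := by
      rw [← Finset.diag_union_offDiag, Finset.filter_union, Finset.card_union_of_disjoint
        (Finset.disjoint_filter_filter (Finset.disjoint_diag_offDiag Q))]
      congr 1
      rw [Finset.filter_true_of_mem]
      · exact Finset.diag_card Q
      · intro z hz
        rw [Finset.mem_diag] at hz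
        rw [hz.2]
    have h2 : ∑ j ∈ I, (N j) ^ 2 ≤ ((Q ×ˢ Q).filter (fun z => f z.1 / k = f z.2 / k)).card := by
      rw [Finset.card_eq_sum_card_fiberwise (f := fun z : κ × κ => f z.1 / k) (t := I)
        (s := (Q ×ˢ Q).filter (fun z => f z.1 / k = f z.2 / k)) (fun z hz => by
          rw [Finset.mem_coe, Finset.mem_filter, Finset.mem_product] at hz
          exact hmaps z.1 hz.1.1)]
      refine Finset.sum_le_sum fun j _ => ?_
      rw [hN]
      change (Q.filter (fun x => f x / k = j)).card ^ 2 ≤ _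
      rw [sq, ← Finset.card_product]
      apply Finset.card_le_card
      intro z hz
      rw [Finset.mem_product, Finset.mem_filter, Finset.mem_filter] at hz
      rw [Finset.mem_filter, Finset.mem_filter, Finset.mem_product]
      exact ⟨⟨⟨hz.1.1, hz.2.1⟩, by rw [hz.1.2, hz.2.2]⟩, hz.1.2⟩
    rw [h1] at h2
    exact_mod_cast h2
  have h0 : 0 ≤ ∑ j ∈ I, (1 - t * (N j : ℝ)) ^ 2 := Finset.sum_nonneg fun j _ => sq_nonneg _
  have hexp : ∑ j ∈ I, (1 - t * (N j : ℝ)) ^ 2 = I.card - 2 * t * Q.card + t ^ 2 * ∑ j ∈ I, ((N j : ℝ)) ^ 2 := by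
    have h1 : ∀ j, (1 - t * (N j : ℝ)) ^ 2 = 1 - 2 * t * N j + t ^ 2 * (N j : ℝ) ^ 2 := fun j => by ring
    rw [Finset.sum_congr rfl fun j _ => h1 j, Finset.sum_add_distrib, Finset.sum_sub_distrib, ← Finset.mul_sum,
      ← Finset.mul_sum, hsum, Finset.sum_const, nsmul_eq_mul, mul_one]
  rw [hexp] at h0
  have h2 := mul_le_mul_of_nonneg_left hsq (sq_nonneg t)
  rw [← hI]
  linarith

end

variable {n : ℕ}

/-- the number of the ordered pairs of distinct keys of `W` with `R * q * |x - y| < n` -/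
noncomputable def close (R : ℝ) (q : ℕ) (W : List (Fin n)) : ℕ :=
  open Classical in (W.toFinset.offDiag.filter
    (fun z => R * q * (Nat.dist (z.1 : ℕ) (z.2 : ℕ)) < n)).card

lemma coll_le_close {D r m : ℕ} (hm : m ≤ D - r) (hrD : r ≤ D) (hD2 : 2 ^ D < 2 * n) {R : ℝ} (hR0 : 0 ≤ R)
    (hR : 2 * R ≤ 2 ^ r) (W : List (Fin n)) :
    coll (2 ^ (D - r - m)) vl W.toFinset ≤ close R (2 ^ m) W := by
  classical
  unfold coll close
  apply Finset.card_le_card
  intro z hz
  rw [Finset.mem_filter] at hz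
  rw [Finset.mem_filter]
  refine ⟨hz.1, ?_⟩
  have h1 : Nat.dist (z.1 : ℕ) (z.2 : ℕ) < 2 ^ (D - r - m) := by
    obtain ⟨k, hk⟩ : ∃ k, k = 2 ^ (D - r - m) := ⟨_, rfl⟩
    rw [← hk] at hz ⊢
    have hk0 : 0 < k := by rw [hk]; positivity
    have h2 := hz.2
    change ((z.1 : ℕ)) / k = ((z.2 : ℕ)) / k at h2
    have h3 := Nat.div_add_mod (z.1 : ℕ) k
    have h4 := Nat.div_add_mod (z.2 : ℕ) k
    have h5 := Nat.mod_lt (z.1 : ℕ) hk0
    have h6 := Nat.mod_lt (z.2 : ℕ) hk0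
    rw [h2] at h3
    unfold Nat.dist
    omega
  have h2 : (Nat.dist (z.1 : ℕ) (z.2 : ℕ) : ℝ) < 2 ^ (D - r - m) := by exact_mod_cast h1
  have h3 : (2 : ℝ) ^ r * 2 ^ m * 2 ^ (D - r - m) = 2 ^ D := by
    rw [← pow_add, ← pow_add]
    congr 1
    omega
  have h4 : (2 : ℝ) ^ D < 2 * n := by exact_mod_cast hD2
  have h5 : (0 : ℝ) < 2 ^ m := by positivity
  have h6 : (0 : ℝ) ≤ (Nat.dist (z.1 : ℕ) (z.2 : ℕ) : ℝ) := Nat.cast_nonneg _
  push_cast
  have h7 : 2 * R * 2 ^ m * (Nat.dist (z.1 : ℕ) (z.2 : ℕ) : ℝ) ≤ 2 ^ r * 2 ^ m * (Nat.dist (z.1 : ℕ) (z.2 : ℕ) : ℝ) := by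
    apply mul_le_mul_of_nonneg_right _ h6
    exact mul_le_mul_of_nonneg_right hR h5.le
  have h8 : (2 : ℝ) ^ r * 2 ^ m * (Nat.dist (z.1 : ℕ) (z.2 : ℕ) : ℝ) < 2 ^ r * 2 ^ m * 2 ^ (D - r - m) := by
    apply mul_lt_mul_of_pos_left h2
    positivity
  linarith

/-- **Few close pairs in the windows.** -/
theorem close_ratio {T : Tr} (hT : keys T = List.range n) (X : List (Fin n)) (hn : 1 ≤ n)
    (Ws : ℕ → List (List (Fin n))) (rest : ℕ → List (Fin n)) (hX : ∀ m, X = (Ws m).flatten ++ rest m)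
    (hW : ∀ m, ∀ W ∈ Ws m, W.toFinset.card = 2 ^ m) (hr : ∀ m, (rest m).toFinset.card < 2 ^ m)
    {R C : ℝ} (hR : 1 ≤ R) (hC : 0 ≤ C)
    (hs : ∀ m, 1 ≤ m → 2 ^ m ≤ n → (((Ws m).map (close R (2 ^ m))).sum : ℝ) ≤ C * (2 ^ m * (Ws m).length)) :
    (costSplay T (X.map vl) : ℝ) ≤ 450 * (1 + C) * (1 + Real.logb 2 (R * (1 + C))) *
      (optAny (List.range n) (X.map vl) + n) + 8 * (n * Real.logb 2 n) ∧
    ((∀ x : Fin n, x ∈ X) → (costSplay T (X.map vl) : ℝ) ≤ 2100 * (1 + C) * (1 + Real.logb 2 (R * (1 + C))) *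
      optAny (List.range n) (X.map vl)) := by
  classical
  obtain ⟨D, hDdef⟩ : ∃ D : ℕ, D = Nat.clog 2 n := ⟨_, rfl⟩
  have hD : n ≤ 2 ^ D := by
    rw [hDdef]
    exact Nat.le_pow_clog (by norm_num) n
  have hD2 : 2 ^ D < 2 * n := by
    rcases Nat.lt_or_ge 1 n with h | h
    · have h1 := Nat.pow_pred_clog_lt_self (b := 2) (by norm_num) h
      rw [← hDdef] at h1
      have h2 : 1 ≤ D := by
        rw [hDdef]
        exact Nat.clog_pos (by norm_num) h
      have h3 : 2 ^ D = 2 * 2 ^ (D - 1) := by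
        rw [← pow_succ']
        congr 1
        omega
      have h4 : 2 ^ D.pred = 2 ^ (D - 1) := rfl
      omega
    · have : n = 1 := by omega
      rw [hDdef, this]
      simp
  have hlR : 0 ≤ Real.logb 2 R := Real.logb_nonneg (by norm_num) hR
  obtain ⟨r, hrdef⟩ : ∃ r : ℕ, r = ⌈Real.logb 2 R⌉₊ + 1 := ⟨_, rfl⟩
  have hr1 : (r : ℝ) ≤ Real.logb 2 R + 2 := by
    rw [hrdef]
    push_cast
    have := Nat.ceil_lt_add_one hlR
    linarith
  have hr2 : 2 * R ≤ 2 ^ r := by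
    have h1 : Real.logb 2 R ≤ (⌈Real.logb 2 R⌉₊ : ℝ) := Nat.le_ceil _
    rw [Real.logb_le_iff_le_rpow (by norm_num) (by linarith), Real.rpow_natCast] at h1
    rw [hrdef, pow_succ]
    linarith
  obtain ⟨ρ, hρdef⟩ : ∃ ρ : ℝ, ρ = 1 / (1 + C) := ⟨_, rfl⟩
  have hρ : 0 < ρ := by rw [hρdef]; positivity
  have hρ1 : ρ ≤ 1 := by
    rw [hρdef, div_le_iff₀ (by linarith)]
    linarith
  have hs2 : ρ * ∑ m ∈ Finset.Icc 1 (D - r), (2 : ℝ) ^ m * (Ws m).length ≤
      ∑ m ∈ Finset.Icc 1 (D - r), (hits (2 ^ (D - r - m)) vl (Ws m) : ℝ) := by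
    rw [Finset.mul_sum]
    refine Finset.sum_le_sum fun m hm => ?_
    rw [Finset.mem_Icc] at hm
    have hmn : 2 ^ m ≤ n := by
      have h1 : 2 ^ m ≤ 2 ^ (D - 1) := Nat.pow_le_pow_right (by norm_num) (by omega)
      have h2 : 2 ^ D = 2 * 2 ^ (D - 1) := by
        rw [← pow_succ']
        congr 1
        omega
      omega
    have h1 := hs m hm.1 hmn
    have key : ∀ L : List (List (Fin n)), (∀ W ∈ L, W.toFinset.card = 2 ^ m) →
        2 * ρ * (2 ^ m * L.length) - ρ ^ 2 * (2 ^ m * L.length + ((L.map (close R (2 ^ m))).sum : ℝ)) ≤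
        (hits (2 ^ (D - r - m)) vl L : ℝ) := by
      intro L
      induction L with
      | nil => intro _; simp [hits]
      | cons W L ih =>
        intro hL
        have h2 := ih (fun W hW => hL W (List.mem_cons_of_mem _ hW))
        have h3 := hit_ge (2 ^ (D - r - m)) vl W.toFinset ρ
        rw [hL W (by simp)] at h3
        have h4 : (coll (2 ^ (D - r - m)) vl W.toFinset : ℝ) ≤ (close R (2 ^ m) W : ℝ) := by
          exact_mod_cast coll_le_close (by omega) (by omega) hD2 (by linarith) hr2 W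
        have h5 := mul_le_mul_of_nonneg_left h4 (sq_nonneg ρ)
        have e1 : (hits (2 ^ (D - r - m)) vl (W :: L) : ℝ) =
            ((W.toFinset.image (fun x => vl x / 2 ^ (D - r - m))).card : ℝ) + (hits (2 ^ (D - r - m)) vl L : ℝ) := by
          unfold hits
          rw [List.map_cons, List.sum_cons]
          push_cast
          rfl
        rw [e1, List.map_cons, List.sum_cons, List.length_cons]
        push_cast at h3 h2 ⊢
        nlinarith
    have h2 := key (Ws m) (hW m)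
    refine le_trans ?_ h2
    have h3 := mul_le_mul_of_nonneg_left h1 (sq_nonneg ρ)
    have h4 : ρ * (1 + C) = 1 := by
      rw [hρdef]
      field_simp
    have h5 : ρ ^ 2 * (2 ^ m * ((Ws m).length : ℝ) + C * (2 ^ m * (Ws m).length)) =
        ρ * (ρ * (1 + C)) * (2 ^ m * (Ws m).length) := by ring
    rw [h4, mul_one] at h5
    nlinarith
  have h := spread_ratio hT X hD hD2 Ws rest hX hW hr hρ hρ1 hs2
  have hOP0 : (0 : ℝ) ≤ optAny (List.range n) (X.map vl) := Nat.cast_nonneg _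
  have e1 : 1 / ρ = 1 + C := by rw [hρdef, one_div_one_div]
  have e2 : Real.logb 2 (R * (1 + C)) = Real.logb 2 R + Real.logb 2 (1 + C) :=
    Real.logb_mul (by positivity) (by positivity)
  have hlC : 0 ≤ Real.logb 2 (1 + C) := Real.logb_nonneg (by norm_num) (by linarith)
  have e3 : ∀ z : ℝ, z / ρ = z * (1 + C) := by
    intro z
    rw [← e1]
    ring
  have h1 : 1 + (r : ℝ) + Real.logb 2 (1 / ρ) ≤ 3 * (1 + Real.logb 2 (R * (1 + C))) := by
    rw [e1, e2]
    linarith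
  rw [e3 150, e3 700] at h
  constructor
  · refine h.1.trans ?_
    have h2 : 150 * (1 + C) * (1 + (r : ℝ) + Real.logb 2 (1 / ρ)) ≤
        450 * (1 + C) * (1 + Real.logb 2 (R * (1 + C))) := by
      have := mul_le_mul_of_nonneg_left h1 (by positivity : 0 ≤ 150 * (1 + C))
      linarith
    have h3 := mul_le_mul_of_nonneg_right h2 (by positivity : (0 : ℝ) ≤ optAny (List.range n) (X.map vl) + n)
    linarith
  · intro hall
    refine (h.2 hall).trans ?_
    have h2 : 700 * (1 + C) * (1 + (r : ℝ) + Real.logb 2 (1 / ρ)) ≤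
        2100 * (1 + C) * (1 + Real.logb 2 (R * (1 + C))) := by
      have := mul_le_mul_of_nonneg_left h1 (by positivity : 0 ≤ 700 * (1 + C))
      linarith
    exact mul_le_mul_of_nonneg_right h2 hOP0

/-- **Separated working sets.** -/
theorem sep_ratio {T : Tr} (hT : keys T = List.range n) (X : List (Fin n)) (hn : 1 ≤ n) {R : ℝ} (hR : 1 ≤ R)
    (hs : ∀ U W V : List (Fin n), X = U ++ W ++ V → ∀ x ∈ W, ∀ y ∈ W, x ≠ y →
      (n : ℝ) ≤ R * W.toFinset.card * Nat.dist (x : ℕ) (y : ℕ)) :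
    (costSplay T (X.map vl) : ℝ) ≤ 450 * (1 + Real.logb 2 R) *
      (optAny (List.range n) (X.map vl) + n) + 8 * (n * Real.logb 2 n) ∧
    ((∀ x : Fin n, x ∈ X) → (costSplay T (X.map vl) : ℝ) ≤ 2100 * (1 + Real.logb 2 R) *
      optAny (List.range n) (X.map vl)) := by
  classical
  have hwin : ∀ m : ℕ, ∃ (Ws : List (List (Fin n))) (rest : List (Fin n)),
      X = Ws.flatten ++ rest ∧ (∀ W ∈ Ws, W.toFinset.card = 2 ^ m) ∧ rest.toFinset.card < 2 ^ m :=
    fun m => windows (2 ^ m) Nat.one_le_two_pow X.length X le_rfl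
  choose Ws rest hX hW hr using hwin
  have h := close_ratio hT X hn Ws rest hX hW hr (R := R) (C := 0) hR le_rfl (fun m _ _ => by
    rw [zero_mul]
    have h1 : ((Ws m).map (close R (2 ^ m))).sum = 0 := by
      rw [List.sum_eq_zero]
      intro a ha
      obtain ⟨W, hWm, rfl⟩ := List.mem_map.1 ha
      unfold close
      rw [Finset.card_eq_zero, Finset.filter_eq_empty_iff]
      intro z hz
      rw [Finset.mem_offDiag, List.mem_toFinset, List.mem_toFinset] at hz
      rw [not_lt]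
      obtain ⟨A, B, hAB⟩ := List.append_of_mem hWm
      have h2 := hs A.flatten W (B.flatten ++ rest m) (by
        have h3 := hX m
        rw [hAB] at h3
        rw [h3]
        simp) z.1 hz.1 z.2 hz.2.1 hz.2.2
      rw [hW m W hWm] at h2
      exact h2
    rw [h1]
    simp)
  have e1 : (450 : ℝ) * (1 + 0) * (1 + Real.logb 2 (R * (1 + 0))) = 450 * (1 + Real.logb 2 R) := by
    rw [add_zero, mul_one, mul_one]
  have e2 : (2100 : ℝ) * (1 + 0) * (1 + Real.logb 2 (R * (1 + 0))) = 2100 * (1 + Real.logb 2 R) := by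
    rw [add_zero, mul_one, mul_one]
  rw [e1, e2] at h
  exact h

end Pool.Agent.Zk77.Spl
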