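import Pool.Agent.Zk77.Spl.Hit
import Pool.Agent.Zk77.Spl.Dil

/-!
# Splay trees and the spread of the working sets (helper77)
-/

set_option autoImplicit false

namespace Pool.Agent.Zk77.Spl

open Finset Pool.Agent.H581R2.Splay Pool.Agent.TH49.Spl Pool.Agent.Y395.SP Pool.Agent.N724.TW

variable {n : ℕ}

/-- the position of a key -/
def vl (x : Fin n) : ℕ := (x : ℕ)

lemma rel_refl (X : List (Fin n)) : rel (Equiv.refl (Fin n)) X = X.map vl := rfl

lemma log_count {D : ℕ} (t : ℕ) (ht : t + 1 ≤ 2 ^ D) :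
    Real.logb 2 (t + 1) ≤ (((Finset.range D).filter (fun m => 2 ^ m ≤ t)).card : ℝ) := by
  rcases Nat.eq_zero_or_pos t with rfl | h0
  · simp
  · have h1 : t < 2 ^ (Nat.log 2 t + 1) := Nat.lt_pow_succ_log_self (by norm_num) t
    have h2 : 2 ^ Nat.log 2 t ≤ t := Nat.pow_log_le_self 2 (by omega)
    have h3 : Nat.log 2 t < D := by
      have : 2 ^ Nat.log 2 t < 2 ^ D := by omega
      exact (Nat.pow_lt_pow_iff_right (by norm_num)).1 this
    have h4 : Nat.log 2 t + 1 ≤ ((Finset.range D).filter (fun m => 2 ^ m ≤ t)).card := by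
      rw [← Finset.card_range (Nat.log 2 t + 1)]
      apply Finset.card_le_card
      intro m hm
      rw [Finset.mem_range] at hm
      rw [Finset.mem_filter, Finset.mem_range]
      exact ⟨by omega, (Nat.pow_le_pow_right (by norm_num) (by omega)).trans h2⟩
    have h5 : Real.logb 2 (t + 1) ≤ ((Nat.log 2 t + 1 : ℕ) : ℝ) := by
      rw [Real.logb_le_iff_le_rpow (by norm_num) (by positivity), Real.rpow_natCast]
      exact_mod_cast h1
    refine h5.trans ?_
    exact_mod_cast h4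

lemma cws_le_length (q : ℕ) : ∀ (X h : List (Fin n)), cws q h X ≤ X.length
  | [], h => by simp [cws]
  | x :: X, h => by
    have := cws_le_length q X (x :: h)
    rw [cws, List.length_cons]
    split_ifs <;> omega

/-- **The splay cost and the numbers of the windows.** -/
theorem cost_windows {T : Tr} (hT : keys T = List.range n) (X : List (Fin n)) {D r : ℕ} (hD : n ≤ 2 ^ D)
    (Ws : ℕ → List (List (Fin n))) (rest : ℕ → List (Fin n)) (hX : ∀ m, X = (Ws m).flatten ++ rest m)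
    (hW : ∀ m, ∀ W ∈ Ws m, W.toFinset.card = 2 ^ m) (hr : ∀ m, (rest m).toFinset.card < 2 ^ m) :
    (costSplay T (X.map vl) : ℝ) ≤ (14 + 6 * r) * X.length +
      6 * ∑ m ∈ Finset.Icc 1 (D - r), (2 : ℝ) ^ m * (Ws m).length + 12 * 2 ^ D + 8 * (n * Real.logb 2 n) := by
  have h1 := cost_ws hT X (Equiv.refl (Fin n))
  rw [rel_refl] at h1
  have h2 := wsum_le (Finset.range D) (fun m => 2 ^ m) 0 (fun t ht => by
    rw [add_zero]
    exact log_count t (ht.trans hD)) X []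
  rw [zero_mul, add_zero] at h2
  have h3 : ∑ m ∈ Finset.range D, (cws (2 ^ m) [] X : ℝ) ≤ (r + 1) * X.length +
      ∑ m ∈ Finset.Icc 1 (D - r), (2 : ℝ) ^ m * (Ws m).length + 2 * 2 ^ D := by
    have h4 : Finset.range D ⊆ Finset.Icc 1 (D - r) ∪ ({0} ∪ Finset.Ico (D - r + 1) (D - r + 1 + r)) := by
      intro m hm
      rw [Finset.mem_range] at hm
      rw [Finset.mem_union, Finset.mem_union, Finset.mem_Icc, Finset.mem_singleton, Finset.mem_Ico]
      omega
    have h5 := Finset.sum_le_sum_of_subset_of_nonneg (f := fun m => (cws (2 ^ m) [] X : ℝ)) h4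
      (fun _ _ _ => Nat.cast_nonneg _)
    refine h5.trans ?_
    have hnn : ∀ m, 0 ≤ (cws (2 ^ m) [] X : ℝ) := fun m => Nat.cast_nonneg _
    have h6 : ∑ m ∈ Finset.Icc 1 (D - r) ∪ ({0} ∪ Finset.Ico (D - r + 1) (D - r + 1 + r)), (cws (2 ^ m) [] X : ℝ) ≤
        ∑ m ∈ Finset.Icc 1 (D - r), (cws (2 ^ m) [] X : ℝ) +
        ∑ m ∈ ({0} ∪ Finset.Ico (D - r + 1) (D - r + 1 + r)), (cws (2 ^ m) [] X : ℝ) := by
      rw [← Finset.sum_union_inter]
      have : 0 ≤ ∑ m ∈ Finset.Icc 1 (D - r) ∩ ({0} ∪ Finset.Ico (D - r + 1) (D - r + 1 + r)), (cws (2 ^ m) [] X : ℝ) :=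
        Finset.sum_nonneg fun m _ => hnn m
      linarith
    have h7 : ∑ m ∈ ({0} ∪ Finset.Ico (D - r + 1) (D - r + 1 + r)), (cws (2 ^ m) [] X : ℝ) ≤ (r + 1) * X.length := by
      have h8 : ∑ m ∈ ({0} ∪ Finset.Ico (D - r + 1) (D - r + 1 + r)), (cws (2 ^ m) [] X : ℝ) ≤
          ∑ _m ∈ ({0} ∪ Finset.Ico (D - r + 1) (D - r + 1 + r)), (X.length : ℝ) :=
        Finset.sum_le_sum fun m _ => by exact_mod_cast cws_le_length (2 ^ m) X []
      refine h8.trans ?_
      rw [Finset.sum_const, nsmul_eq_mul]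
      apply mul_le_mul_of_nonneg_right _ (Nat.cast_nonneg _)
      have h9 : ((({0} : Finset ℕ) ∪ Finset.Ico (D - r + 1) (D - r + 1 + r)).card) ≤ r + 1 := by
        refine (Finset.card_union_le _ _).trans ?_
        rw [Finset.card_singleton, Nat.card_Ico]
        omega
      exact_mod_cast h9
    have h8 : ∑ m ∈ Finset.Icc 1 (D - r), (cws (2 ^ m) [] X : ℝ) ≤
        ∑ m ∈ Finset.Icc 1 (D - r), (2 : ℝ) ^ m * (Ws m).length + 2 * 2 ^ D := by
      have h9 : ∀ m ∈ Finset.Icc 1 (D - r), (cws (2 ^ m) [] X : ℝ) ≤ (2 : ℝ) ^ m * (Ws m).length + 2 ^ m := by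
        intro m _
        have h10 := cws_le (2 ^ m) (Ws m) (rest m) [] (hW m) (hr m)
        rw [← hX m] at h10
        have h11 : (cws (2 ^ m) [] X : ℝ) ≤ ((2 ^ m * ((Ws m).length + 1) : ℕ) : ℝ) := by exact_mod_cast h10
        push_cast at h11
        linarith
      refine (Finset.sum_le_sum h9).trans ?_
      rw [Finset.sum_add_distrib]
      have h10 : ∑ m ∈ Finset.Icc 1 (D - r), (2 : ℝ) ^ m ≤ 2 * 2 ^ D := by
        have h11 : ∑ m ∈ Finset.Icc 1 (D - r), 2 ^ m ≤ ∑ m ∈ Finset.range (D + 1), 2 ^ m := by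
          apply Finset.sum_le_sum_of_subset
          intro m hm
          rw [Finset.mem_Icc] at hm
          rw [Finset.mem_range]
          omega
        have h12 : ∑ m ∈ Finset.range (D + 1), 2 ^ m ≤ 2 * 2 ^ D := by
          rw [Nat.geomSum_eq (le_refl 2)]
          rw [pow_succ]
          simp
          omega
        have h13 := h11.trans h12
        exact_mod_cast h13
      linarith
    linarith
  linarith

/-- **The number of the windows is bounded by the optimum.** -/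
theorem windows_opt {T : Tr} (hT : keys T = List.range n) (X : List (Fin n)) {D r : ℕ} (hD : n ≤ 2 ^ D)
    (Ws : ℕ → List (List (Fin n))) (rest : ℕ → List (Fin n)) (hX : ∀ m, X = (Ws m).flatten ++ rest m)
    {ρ : ℝ} (hρ : 0 < ρ) (hρ1 : ρ ≤ 1)
    (hs : ρ * ∑ m ∈ Finset.Icc 1 (D - r), (2 : ℝ) ^ m * (Ws m).length ≤
      ∑ m ∈ Finset.Icc 1 (D - r), (hits (2 ^ (D - r - m)) vl (Ws m) : ℝ)) :
    ∑ m ∈ Finset.Icc 1 (D - r), (2 : ℝ) ^ m * (Ws m).length ≤
      4 / ρ * (1 + r + Real.logb 2 (1 / ρ)) * (5 * optAny (List.range n) (X.map vl) + 2 ^ D) := by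
  classical
  obtain ⟨Z, hZ⟩ : ∃ Z : ℝ, Z = ∑ m ∈ Finset.Icc 1 (D - r), (2 : ℝ) ^ m * (Ws m).length := ⟨_, rfl⟩
  have hZ0 : 0 ≤ Z := by
    rw [hZ]
    exact Finset.sum_nonneg fun m _ => by positivity
  rw [← hZ] at hs ⊢
  obtain ⟨OP, hOP⟩ : ∃ OP : ℝ, OP = (optAny (List.range n) (X.map vl) : ℝ) := ⟨_, rfl⟩
  have hlen : (X.length : ℝ) ≤ OP := by
    have := opt_ge_len hT (X.map vl)
    rw [List.length_map] at this
    rw [hOP]
    exact this
  have hM0 : (0 : ℝ) ≤ X.length := Nat.cast_nonneg _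
  have hlg : 0 ≤ Real.logb 2 (1 / ρ) := Real.logb_nonneg (by norm_num) (by
    rw [le_div_iff₀ hρ]
    linarith)
  obtain ⟨j, hj⟩ : ∃ j : ℕ, j = ⌈Real.logb 2 (1 / ρ)⌉₊ + 1 := ⟨_, rfl⟩
  have hj1 : (j : ℝ) ≤ 2 + Real.logb 2 (1 / ρ) := by
    rw [hj]
    push_cast
    have := Nat.ceil_lt_add_one hlg
    linarith
  have hj2 : 2 / ρ ≤ 2 ^ j := by
    have h1 : Real.logb 2 (1 / ρ) ≤ (⌈Real.logb 2 (1 / ρ)⌉₊ : ℝ) := Nat.le_ceil _
    rw [Real.logb_le_iff_le_rpow (by norm_num) (by positivity), Real.rpow_natCast] at h1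
    rw [hj, pow_succ]
    have : 2 / ρ = 1 / ρ * 2 := by ring
    rw [this]
    linarith
  have hf : ∀ x : Fin n, vl x < 2 ^ D := fun x => lt_of_lt_of_le x.2 hD
  -- the levels `≥ j`
  obtain ⟨E, hE⟩ : ∃ E : Finset ℕ, E = (Finset.Icc 1 (D - r)).filter (fun m => j ≤ m) := ⟨_, rfl⟩
  have h1 := alt_lower (D := D) (J := r + j) vl X hf E (fun m => D - r - m) (by
    intro m hm
    rw [hE, Finset.mem_filter, Finset.mem_Icc] at hm
    omega) (by
    intro m hm m' hm' h
    rw [hE, Finset.mem_filter, Finset.mem_Icc] at hm hm'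
    omega) Ws rest (fun m _ => hX m)
  have h2 : ∑ m ∈ E, hits (2 ^ (D - r - m + (r + j))) vl (Ws m) ≤ ∑ m ∈ E, (Ws m).length * 2 ^ (m - j) := by
    refine Finset.sum_le_sum fun m hm => ?_
    rw [hE, Finset.mem_filter, Finset.mem_Icc] at hm
    have h3 := hits_le_blocks (D := D) (e := D - r - m + (r + j)) (by omega) vl (Ws m) hf
    have e1 : D - (D - r - m + (r + j)) = m - j := by omega
    rw [e1] at h3
    exact h3
  have h3 : (∑ m ∈ E, (((Ws m).length * 2 ^ (m - j) : ℕ) : ℝ)) ≤ Z * (ρ / 2) := by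
    have h4 : ∀ m ∈ E, (((Ws m).length * 2 ^ (m - j) : ℕ) : ℝ) ≤ (2 : ℝ) ^ m * (Ws m).length * (ρ / 2) := by
      intro m hm
      rw [hE, Finset.mem_filter, Finset.mem_Icc] at hm
      have e1 : (2 : ℝ) ^ m = 2 ^ (m - j) * 2 ^ j := by
        rw [← pow_add]
        congr 1
        omega
      push_cast
      rw [e1]
      have h5 : 1 ≤ (2 : ℝ) ^ j * (ρ / 2) := by
        have h6 := mul_le_mul_of_nonneg_right hj2 (by positivity : 0 ≤ ρ / 2)
        have e2 : 2 / ρ * (ρ / 2) = 1 := by field_simp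
        linarith
      have h6 : (0 : ℝ) ≤ (Ws m).length * 2 ^ (m - j) := by positivity
      nlinarith
    refine (Finset.sum_le_sum h4).trans ?_
    rw [← Finset.sum_mul, hZ]
    apply mul_le_mul_of_nonneg_right _ (by positivity)
    apply Finset.sum_le_sum_of_subset_of_nonneg
    · rw [hE]
      exact Finset.filter_subset _ _
    · intro m _ _
      positivity
  -- the levels `< j`
  have h4 : ∑ m ∈ Finset.Icc 1 (D - r), (hits (2 ^ (D - r - m)) vl (Ws m) : ℝ) ≤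
      j * X.length + ∑ m ∈ E, (hits (2 ^ (D - r - m)) vl (Ws m) : ℝ) := by
    rw [hE, ← Finset.sum_filter_add_sum_filter_not (Finset.Icc 1 (D - r)) (fun m => j ≤ m)]
    have h5 : ∑ m ∈ (Finset.Icc 1 (D - r)).filter (fun m => ¬ j ≤ m), (hits (2 ^ (D - r - m)) vl (Ws m) : ℝ) ≤
        ∑ _m ∈ (Finset.Icc 1 (D - r)).filter (fun m => ¬ j ≤ m), (X.length : ℝ) := by
      refine Finset.sum_le_sum fun m _ => ?_
      have h6 := hits_le_length (2 ^ (D - r - m)) vl (Ws m)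
      have h7 : (Ws m).flatten.length ≤ X.length := by
        have := congrArg List.length (hX m)
        rw [List.length_append] at this
        omega
      exact_mod_cast h6.trans h7
    rw [Finset.sum_const, nsmul_eq_mul] at h5
    have h6 : (((Finset.Icc 1 (D - r)).filter (fun m => ¬ j ≤ m)).card : ℝ) ≤ j := by
      rw [Nat.cast_le]
      have e0 := Finset.card_range j
      refine le_trans (Finset.card_le_card (t := Finset.range j) fun m hm => ?_) e0.le
      rw [Finset.mem_filter] at hm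
      rw [Finset.mem_range]
      omega
    have h7 := mul_le_mul_of_nonneg_right h6 hM0
    linarith
  have h5 : (∑ m ∈ E, (hits (2 ^ (D - r - m)) vl (Ws m) : ℝ)) ≤
      Z * (ρ / 2) + (r + j) * (4 * OP + 2 ^ D) := by
    have h6 : (∑ m ∈ E, (hits (2 ^ (D - r - m)) vl (Ws m) : ℝ)) ≤
        (∑ m ∈ E, (((Ws m).length * 2 ^ (m - j) : ℕ) : ℝ)) + (r + j) * (2 * alt D (X.map vl) + 2 ^ D) := by
      have h7 := h1.trans (Nat.add_le_add_right h2 _)
      have h8 : ((∑ m ∈ E, hits (2 ^ (D - r - m)) vl (Ws m) : ℕ) : ℝ) ≤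
        ((∑ m ∈ E, (Ws m).length * 2 ^ (m - j) + (r + j) * (2 * alt D (X.map vl) + 2 ^ D) : ℕ) : ℝ) := by
        exact_mod_cast h7
      push_cast at h8 ⊢
      exact h8
    have h7 : (alt D (X.map vl) : ℝ) ≤ 2 * OP := by
      have h8 := opt_ge_alt hT (X.map vl) (fun y hy => by
        obtain ⟨x, -, rfl⟩ := List.mem_map.1 hy
        exact x.2) D 0
      have e1 : (X.map vl).map (· + 0) = X.map vl := by
        simp
      rw [e1] at h8
      rw [hOP]
      exact h8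
    have h8 : ((r : ℝ) + j) * (2 * alt D (X.map vl) + 2 ^ D) ≤ (r + j) * (4 * OP + 2 ^ D) := by
      apply mul_le_mul_of_nonneg_left _ (by positivity)
      linarith
    linarith
  have h6 : ρ / 2 * Z ≤ (r + j) * (5 * OP + 2 ^ D) := by
    have h7 : (j : ℝ) * X.length ≤ (r + j) * OP := by
      apply mul_le_mul _ hlen hM0 (by positivity)
      have : (0 : ℝ) ≤ r := Nat.cast_nonneg _
      linarith
    linarith
  have h7 : ((r : ℝ) + j) ≤ 2 * (1 + r + Real.logb 2 (1 / ρ)) := by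
    have : (0 : ℝ) ≤ r := Nat.cast_nonneg _
    linarith
  have h8 : (0 : ℝ) ≤ 5 * OP + 2 ^ D := by
    have : (0 : ℝ) ≤ 2 ^ D := by positivity
    linarith
  rw [← hOP]
  have h9 : ρ / 2 * Z ≤ 2 * (1 + r + Real.logb 2 (1 / ρ)) * (5 * OP + 2 ^ D) :=
    h6.trans (mul_le_mul_of_nonneg_right h7 h8)
  have e1 : 4 / ρ * (1 + r + Real.logb 2 (1 / ρ)) * (5 * OP + 2 ^ D) =
      (2 * (1 + r + Real.logb 2 (1 / ρ)) * (5 * OP + 2 ^ D)) / (ρ / 2) := by
    field_simp
    ring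
  rw [e1, le_div_iff₀ (by positivity)]
  linarith

/-- **The competitive ratio and the spread.** -/
theorem spread_ratio {T : Tr} (hT : keys T = List.range n) (X : List (Fin n)) {D r : ℕ} (hD : n ≤ 2 ^ D)
    (hD2 : 2 ^ D < 2 * n)
    (Ws : ℕ → List (List (Fin n))) (rest : ℕ → List (Fin n)) (hX : ∀ m, X = (Ws m).flatten ++ rest m)
    (hW : ∀ m, ∀ W ∈ Ws m, W.toFinset.card = 2 ^ m) (hr : ∀ m, (rest m).toFinset.card < 2 ^ m)
    {ρ : ℝ} (hρ : 0 < ρ) (hρ1 : ρ ≤ 1)
    (hs : ρ * ∑ m ∈ Finset.Icc 1 (D - r), (2 : ℝ) ^ m * (Ws m).length ≤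
      ∑ m ∈ Finset.Icc 1 (D - r), (hits (2 ^ (D - r - m)) vl (Ws m) : ℝ)) :
    (costSplay T (X.map vl) : ℝ) ≤ 150 / ρ * (1 + r + Real.logb 2 (1 / ρ)) *
      (optAny (List.range n) (X.map vl) + n) + 8 * (n * Real.logb 2 n) ∧
    ((∀ x : Fin n, x ∈ X) → (costSplay T (X.map vl) : ℝ) ≤ 700 / ρ * (1 + r + Real.logb 2 (1 / ρ)) *
      optAny (List.range n) (X.map vl)) := by
  obtain ⟨Z, hZ⟩ : ∃ Z : ℝ, Z = ∑ m ∈ Finset.Icc 1 (D - r), (2 : ℝ) ^ m * (Ws m).length := ⟨_, rfl⟩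
  obtain ⟨OP, hOP⟩ : ∃ OP : ℝ, OP = (optAny (List.range n) (X.map vl) : ℝ) := ⟨_, rfl⟩
  have hlen : (X.length : ℝ) ≤ OP := by
    have := opt_ge_len hT (X.map vl)
    rw [List.length_map] at this
    rw [hOP]
    exact this
  have hM0 : (0 : ℝ) ≤ X.length := Nat.cast_nonneg _
  have hlg : 0 ≤ Real.logb 2 (1 / ρ) := Real.logb_nonneg (by norm_num) (by
    rw [le_div_iff₀ hρ]
    linarith)
  obtain ⟨Λ, hΛ⟩ : ∃ Λ : ℝ, Λ = 1 + r + Real.logb 2 (1 / ρ) := ⟨_, rfl⟩
  have hr0 : (0 : ℝ) ≤ r := Nat.cast_nonneg _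
  have hΛ1 : 1 ≤ Λ := by rw [hΛ]; linarith
  have hΛr : 1 + (r : ℝ) ≤ Λ := by rw [hΛ]; linarith
  have hc := cost_windows hT X (r := r) hD Ws rest hX hW hr
  have hz := windows_opt hT X (r := r) hD Ws rest hX hρ hρ1 hs
  rw [← hZ, ← hOP, ← hΛ] at hz
  rw [← hZ] at hc
  rw [← hOP, ← hΛ]
  have hn1 : 1 ≤ n := by
    have : 0 < 2 ^ D := by positivity
    omega
  have hDn : (2 : ℝ) ^ D ≤ 2 * n := by exact_mod_cast hD2.le
  obtain ⟨κ, hκ⟩ : ∃ κ : ℝ, κ = 1 / ρ := ⟨_, rfl⟩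
  have hκ1 : 1 ≤ κ := by
    rw [hκ, le_div_iff₀ hρ]
    linarith
  have hn0 : (1 : ℝ) ≤ n := by exact_mod_cast hn1
  have hOP0 : 0 ≤ OP := by linarith
  have hΛκ : Λ ≤ κ * Λ := by nlinarith
  have hz2 : Z ≤ κ * Λ * (20 * OP + 8 * n) := by
    refine hz.trans ?_
    have e1 : 4 / ρ * Λ * (5 * OP + 2 ^ D) = κ * Λ * (20 * OP + 4 * 2 ^ D) := by
      rw [hκ]
      ring
    rw [e1]
    apply mul_le_mul_of_nonneg_left _ (by positivity)
    linarith
  have e150 : 150 / ρ * Λ * (OP + n) = κ * Λ * (150 * OP + 150 * n) := by rw [hκ]; ring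
  have e700 : 700 / ρ * Λ * OP = κ * Λ * (700 * OP) := by rw [hκ]; ring
  have h14 : (14 + 6 * (r : ℝ)) * X.length ≤ κ * Λ * (14 * OP) := by
    have h1 : (14 + 6 * (r : ℝ)) ≤ 14 * (κ * Λ) := by linarith
    calc (14 + 6 * (r : ℝ)) * X.length ≤ (14 * (κ * Λ)) * OP := mul_le_mul h1 hlen hM0 (by positivity)
      _ = κ * Λ * (14 * OP) := by ring
  have h12 : 12 * (2 : ℝ) ^ D ≤ κ * Λ * (24 * n) := by
    have h1 : (24 : ℝ) * n ≤ κ * Λ * (24 * n) := by
      have : (1 : ℝ) ≤ κ * Λ := by linarith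
      nlinarith
    linarith
  constructor
  · rw [e150]
    have h1 : κ * Λ * (14 * OP) + 6 * (κ * Λ * (20 * OP + 8 * n)) + κ * Λ * (24 * n) ≤
        κ * Λ * (150 * OP + 150 * n) := by
      have h2 : 0 ≤ κ * Λ * OP := by positivity
      have h3 : 0 ≤ κ * Λ * n := by positivity
      nlinarith
    linarith
  · intro hall
    rw [e700]
    have hnX : n ≤ X.toFinset.card := by
      have h1 : Fintype.card (Fin n) ≤ X.toFinset.card := by
        rw [← Finset.card_univ]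
        apply Finset.card_le_card
        intro x _
        exact List.mem_toFinset.2 (hall x)
      rwa [Fintype.card_fin] at h1
    have hnM : (n : ℝ) ≤ X.length := by exact_mod_cast hnX.trans (List.toFinset_card_le X)
    have hnOP : (n : ℝ) ≤ OP := hnM.trans hlen
    -- `n D ≤ n (r + 2) + 2 Z`
    have hnD : (n : ℝ) * D ≤ n * (r + 2) + 2 * Z := by
      have h1 : ∀ m ∈ Finset.Icc 1 (D - (r + 2)), (n : ℝ) / 2 ≤ (2 : ℝ) ^ m * (Ws m).length := by
        intro m hm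
        rw [Finset.mem_Icc] at hm
        have h2 := keys_le (2 ^ m) (Ws m) (rest m) (hW m) (hr m)
        rw [← hX m] at h2
        have h3 : (n : ℝ) ≤ ((2 ^ m * ((Ws m).length + 1) : ℕ) : ℝ) := by exact_mod_cast hnX.trans h2
        push_cast at h3
        have h4 : 4 * 2 ^ m ≤ 2 ^ D := by
          have e : 4 * 2 ^ m = 2 ^ (m + 2) := by rw [pow_add]; ring
          rw [e]
          exact Nat.pow_le_pow_right (by norm_num) (by omega)
        have h5 : 4 * (2 : ℝ) ^ m ≤ 2 * n := by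
          have : 4 * 2 ^ m ≤ 2 * n := by omega
          exact_mod_cast this
        linarith
      have h2 := Finset.sum_le_sum h1
      rw [Finset.sum_const, nsmul_eq_mul, Nat.card_Icc] at h2
      have h3 : ∑ m ∈ Finset.Icc 1 (D - (r + 2)), (2 : ℝ) ^ m * (Ws m).length ≤ Z := by
        rw [hZ]
        apply Finset.sum_le_sum_of_subset_of_nonneg
        · intro m hm
          rw [Finset.mem_Icc] at hm ⊢
          omega
        · intro m _ _
          positivity
      have h4 : (D : ℝ) - (r + 2) ≤ ((D - (r + 2) + 1 - 1 : ℕ) : ℝ) := by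
        rw [Nat.add_sub_cancel]
        have : (D : ℝ) ≤ ((D - (r + 2) : ℕ) : ℝ) + ((r + 2 : ℕ) : ℝ) := by
          exact_mod_cast (by omega : D ≤ D - (r + 2) + (r + 2))
        push_cast at this
        linarith
      have h5 := mul_le_mul_of_nonneg_right h4 (by positivity : (0 : ℝ) ≤ n / 2)
      linarith
    have hlog : (n : ℝ) * Real.logb 2 n ≤ n * D := by
      apply mul_le_mul_of_nonneg_left _ (by positivity)
      rw [Real.logb_le_iff_le_rpow (by norm_num) (by linarith), Real.rpow_natCast]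
      exact_mod_cast hD
    have h8 : (n : ℝ) * (r + 2) ≤ κ * Λ * (2 * OP) := by
      have h1 : ((r : ℝ) + 2) ≤ 2 * (κ * Λ) := by linarith
      calc (n : ℝ) * (r + 2) ≤ OP * (2 * (κ * Λ)) := mul_le_mul hnOP h1 (by linarith) hOP0
        _ = κ * Λ * (2 * OP) := by ring
    have h9 : κ * Λ * (8 * n) ≤ κ * Λ * (8 * OP) := by
      apply mul_le_mul_of_nonneg_left _ (by positivity)
      linarith
    have h10 : κ * Λ * (24 * n) ≤ κ * Λ * (24 * OP) := by
      apply mul_le_mul_of_nonneg_left _ (by positivity)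
      linarith
    have h11 : Z ≤ κ * Λ * (28 * OP) := by
      have : κ * Λ * (20 * OP + 8 * n) = κ * Λ * (20 * OP) + κ * Λ * (8 * n) := by ring
      have e : κ * Λ * (28 * OP) = κ * Λ * (20 * OP) + κ * Λ * (8 * OP) := by ring
      linarith
    have h13 : 0 ≤ κ * Λ * OP := by positivity
    linarith

end Pool.Agent.Zk77.Spl
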